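import Pool.Agent.Work.MP_bb13ef_an.ACL.Stmts
import Pool.Agent.Work.MP_bb13ef_an.SR.Stmts

/-! Bundle of small proof modules (one section per former module). -/

section

/-!
# HULL: decomposition of points of the ball
-/

set_option autoImplicit false

namespace MPbb13ef

namespace HULL

theorem convexA {X : Type} [NormedAddCommGroup X] [NormedSpace ℝ X] (f : X →L[ℝ] ℝ) (c : ℝ) :
    Convex ℝ {x : X | ‖x‖ ≤ 1 ∧ c < f x} := by
  have h1 : Convex ℝ {x : X | ‖x‖ ≤ 1} := by
    have := convex_closedBall (0 : X) 1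
    simpa [Metric.closedBall, dist_zero_right] using this
  have h2 : Convex ℝ {x : X | c < f x} :=
    convex_halfSpace_gt (f := fun x => f x) ⟨f.map_add, fun a x => f.map_smul a x⟩ c
  exact h1.inter h2

theorem convexA' {X : Type} [NormedAddCommGroup X] [NormedSpace ℝ X] (f : X →L[ℝ] ℝ) (c : ℝ) :
    Convex ℝ {x : X | ‖x‖ ≤ 1 ∧ f x < c} := by
  have h1 : Convex ℝ {x : X | ‖x‖ ≤ 1} := by
    have := convex_closedBall (0 : X) 1
    simpa [Metric.closedBall, dist_zero_right] using this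
  have h2 : Convex ℝ {x : X | f x < c} :=
    convex_halfSpace_lt (f := fun x => f x) ⟨f.map_add, fun a x => f.map_smul a x⟩ c
  exact h1.inter h2

end HULL

theorem prf_HULL : S_HULL := by
  intro X _ _ f hf
  refine ⟨hf.1.le, ?_⟩
  intro x hx η hη
  have hsub := hf.2 η hη
  set A : Set X := {x : X | ‖x‖ ≤ 1 ∧ 1 - η < f x} with hA
  set A' : Set X := {x : X | ‖x‖ ≤ 1 ∧ f x < -(1 - η)} with hA'
  have hAc : Convex ℝ A := HULL.convexA f _
  have hAc' : Convex ℝ A' := HULL.convexA' f _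
  have hneg : ∀ y, y ∈ A' → -y ∈ A := by
    rintro y ⟨h1, h2⟩
    refine ⟨by rw [norm_neg]; exact h1, ?_⟩
    rw [map_neg]; linarith
  have hneg' : ∀ y, y ∈ A → -y ∈ A' := by
    rintro y ⟨h1, h2⟩
    refine ⟨by rw [norm_neg]; exact h1, ?_⟩
    rw [map_neg]; linarith
  have hne : (A ∪ A').Nonempty := by
    have h0 : (0 : X) ∈ closure (convexHull ℝ (A ∪ A')) :=
      hsub (by simp)
    have h1 : (convexHull ℝ (A ∪ A')).Nonempty := closure_nonempty_iff.mp ⟨0, h0⟩
    exact convexHull_nonempty_iff.mp h1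
  have hAn : A.Nonempty := by
    rcases hne with ⟨y, hy | hy⟩
    · exact ⟨y, hy⟩
    · exact ⟨-y, hneg y hy⟩
  have hAn' : A'.Nonempty := by
    obtain ⟨y, hy⟩ := hAn
    exact ⟨-y, hneg' y hy⟩
  have hxc : x ∈ closure (convexHull ℝ (A ∪ A')) := hsub (by simpa using hx)
  obtain ⟨w, hw, hxw⟩ := Metric.mem_closure_iff.mp hxc η hη
  rw [convexHull_union hAn hAn', hAc.convexHull_eq, hAc'.convexHull_eq, mem_convexJoin] at hw
  obtain ⟨y, hy, z', hz', hseg⟩ := hw
  obtain ⟨a, b, ha, hb, hab, rfl⟩ := hseg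
  refine ⟨y, -z', a, hy.1, by rw [norm_neg]; exact hz'.1, hy.2, (hneg _ hz').2, ha, by linarith, ?_⟩
  have h1 : a • y - (1 - a) • (-z') = a • y + b • z' := by
    have : b = 1 - a := by linarith
    rw [this, smul_neg, sub_neg_eq_add]
  rw [h1, ← dist_eq_norm]
  exact hxw

end MPbb13ef

end

section

set_option autoImplicit false

namespace MPbb13ef

theorem prf_INT : S_INT := by
  intro r a b hs hab hba
  have key : ∀ m, ∑ n ∈ Finset.range m, |r (b n) - r (a n)| ≤
      ∑ k ∈ Finset.range (a m), |r (k + 1) - r k| := by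
    intro m
    induction m with
    | zero => simpa using Finset.sum_nonneg (fun k _ => abs_nonneg _)
    | succ n ih =>
      rw [Finset.sum_range_succ]
      have h1 : |r (b n) - r (a n)| ≤ ∑ k ∈ Finset.Ico (a n) (b n), |r (k + 1) - r k| := by
        have := dist_le_Ico_sum_dist r (hab n).le
        simpa [Real.dist_eq, abs_sub_comm] using this
      have h2 : ∑ k ∈ Finset.range (a n), |r (k + 1) - r k| +
          ∑ k ∈ Finset.Ico (a n) (b n), |r (k + 1) - r k| =
          ∑ k ∈ Finset.range (b n), |r (k + 1) - r k| := by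
        rw [Finset.range_eq_Ico, Finset.sum_Ico_consecutive _ (Nat.zero_le _) (hab n).le,
          ← Finset.range_eq_Ico]
      have h3 : ∑ k ∈ Finset.range (b n), |r (k + 1) - r k| ≤
          ∑ k ∈ Finset.range (a (n + 1)), |r (k + 1) - r k| :=
        Finset.sum_le_sum_of_subset_of_nonneg (Finset.range_mono (hba n))
          (fun _ _ _ => abs_nonneg _)
      linarith
  refine summable_of_sum_range_le (c := ∑' k, |r (k + 1) - r k|) (fun n => abs_nonneg _) ?_
  intro m
  exact (key m).trans (hs.sum_le_tsum _ (fun _ _ => abs_nonneg _))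

end MPbb13ef

end

section

/-! L1E: an independent sequence gives a copy of `ℓ₁` -/

set_option autoImplicit false

namespace MPbb13ef

namespace L1E

theorem hasSum_abs (a : lp (fun _ : ℕ => ℝ) 1) : HasSum (fun n => |a n|) ‖a‖ := by
  have hp : 0 < (1 : ENNReal).toReal := by simp
  have hs := (lp.memℓp a).summable hp
  have hn := lp.norm_eq_tsum_rpow hp a
  simp only [ENNReal.toReal_one, Real.rpow_one, div_one, Real.norm_eq_abs] at hs hn
  rw [hn]
  exact hs.hasSum

theorem sg_mul (r : ℝ) : |r| * sg (decide (0 ≤ r)) = r := by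
  unfold sg
  by_cases h : 0 ≤ r
  · simp [h, abs_of_nonneg h]
  · have h' : r < 0 := not_le.mp h
    simp [h, abs_of_neg h']

end L1E

open L1E in
theorem prf_L1E : S_L1E := by
  intro X _ _ _ x hx hind
  have hnorm : ∀ a : lp (fun _ : ℕ => ℝ) 1, ∀ n, ‖a n • x n‖ ≤ |a n| := by
    intro a n
    rw [norm_smul, Real.norm_eq_abs]
    exact mul_le_of_le_one_right (abs_nonneg _) (hx n)
  have hsum : ∀ a : lp (fun _ : ℕ => ℝ) 1, Summable fun n => a n • x n := fun a =>
    Summable.of_norm_bounded (hasSum_abs a).summable (hnorm a)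
  let L : lp (fun _ : ℕ => ℝ) 1 →ₗ[ℝ] X :=
    { toFun := fun a => ∑' n, a n • x n
      map_add' := by
        intro a b
        rw [← (hsum a).tsum_add (hsum b)]
        congr 1
        funext n
        simp [add_smul]
      map_smul' := by
        intro r a
        simp only [RingHom.id_apply]
        rw [← (hsum a).tsum_const_smul r]
        congr 1
        funext n
        simp [mul_smul] }
  have hL : ∀ a, ‖L a‖ ≤ 1 * ‖a‖ := by
    intro a
    rw [one_mul]
    exact tsum_of_norm_bounded (hasSum_abs a) (hnorm a)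
  refine ⟨L.mkContinuous 1 hL, 1 / 2, by norm_num, ?_⟩
  intro a
  have h1 : Filter.Tendsto (fun n => ‖∑ i ∈ Finset.range n, a i • x i‖) Filter.atTop
      (nhds ‖L.mkContinuous 1 hL a‖) := by
    have := (hsum a).hasSum.tendsto_sum_nat
    exact this.norm
  have h2 : Filter.Tendsto (fun n => 1 / 2 * ∑ i ∈ Finset.range n, |a i|) Filter.atTop
      (nhds (1 / 2 * ‖a‖)) := ((hasSum_abs a).tendsto_sum_nat).const_mul _
  refine le_of_tendsto_of_tendsto' h2 h1 ?_
  intro n
  obtain ⟨e, he, hs⟩ := hind n (fun i => decide (0 ≤ a i))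
  calc 1 / 2 * ∑ i ∈ Finset.range n, |a i|
      = ∑ i ∈ Finset.range n, |a i| * (1 / 2) := by rw [Finset.mul_sum]; congr 1; funext i; ring
    _ ≤ ∑ i ∈ Finset.range n, |a i| * (sg (decide (0 ≤ a i)) * e (x i)) := by
        refine Finset.sum_le_sum fun i hi => ?_
        exact mul_le_mul_of_nonneg_left (hs i (Finset.mem_range.mp hi)).le (abs_nonneg _)
    _ = e (∑ i ∈ Finset.range n, a i • x i) := by
        rw [map_sum]
        refine Finset.sum_congr rfl fun i _ => ?_
        rw [map_smul, smul_eq_mul, ← mul_assoc, sg_mul]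
    _ ≤ ‖e (∑ i ∈ Finset.range n, a i • x i)‖ := le_abs_self _
    _ ≤ ‖e‖ * ‖∑ i ∈ Finset.range n, a i • x i‖ := e.le_opNorm _
    _ ≤ ‖∑ i ∈ Finset.range n, a i • x i‖ :=
        mul_le_of_le_one_left (norm_nonneg _) he

end MPbb13ef

end

section

/-!
# NI: numerical index one
-/

set_option autoImplicit false

namespace MPbb13ef

namespace NI

theorem conv_half {X : Type} [NormedAddCommGroup X] [NormedSpace ℝ X] (g : X →L[ℝ] ℝ) (r : ℝ)
    (A : Set X) (hA : ∀ y ∈ A, g y ≤ r) : ∀ y ∈ closure (convexHull ℝ A), g y ≤ r := by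
  have hc : Convex ℝ {y : X | g y ≤ r} := convex_halfSpace_le g.isLinear r
  have h1 : convexHull ℝ A ⊆ {y : X | g y ≤ r} := convexHull_min hA hc
  have h2 : IsClosed {y : X | g y ≤ r} := isClosed_le g.continuous continuous_const
  exact fun y hy => closure_minimal h1 h2 hy

end NI

theorem prf_NI : S_NI := by
  intro X _ _ h hx T r hr
  obtain ⟨x0, hx0⟩ := hx
  by_cases hr0 : r < 0
  · have hn : ‖(‖x0‖⁻¹ : ℝ) • x0‖ = 1 := by
      rw [norm_smul, norm_inv, norm_norm, inv_mul_cancel₀ (norm_ne_zero_iff.mpr hx0)]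
    obtain ⟨f, hf, hfx⟩ := h _ hn
    exact ⟨_, f, hn, hf.1, hfx, lt_of_lt_of_le hr0 (abs_nonneg _)⟩
  · have hr0' : 0 ≤ r := not_lt.mp hr0
    obtain ⟨x, hx1, hxT⟩ : ∃ x : X, ‖x‖ ≤ 1 ∧ r < ‖T x‖ := by
      by_contra hcon
      have hcon' : ∀ x : X, ‖x‖ ≤ 1 → ‖T x‖ ≤ r := fun x hx1 => by
        by_contra h3
        exact hcon ⟨x, hx1, not_le.mp h3⟩
      have : ‖T‖ ≤ r := by
        refine T.opNorm_le_bound hr0' (fun y => ?_)
        by_cases hy : y = 0
        · rw [hy, map_zero]; simp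
        · have hy0 : ‖y‖ ≠ 0 := norm_ne_zero_iff.mpr hy
          have h1 : ‖(‖y‖⁻¹ : ℝ) • y‖ ≤ 1 := by
            rw [norm_smul, norm_inv, norm_norm, inv_mul_cancel₀ hy0]
          have h2 := hcon' _ h1
          rw [map_smul, norm_smul, norm_inv, norm_norm] at h2
          rw [inv_mul_le_iff₀ (lt_of_le_of_ne (norm_nonneg _) (Ne.symm hy0))] at h2
          linarith [mul_comm r ‖y‖]
      linarith
    have hTx : T x ≠ 0 := fun h0 => by
      rw [h0, norm_zero] at hxT
      exact absurd hxT (not_lt.mpr hr0')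
    have hTx0 : ‖T x‖ ≠ 0 := norm_ne_zero_iff.mpr hTx
    have hn : ‖(‖T x‖⁻¹ : ℝ) • T x‖ = 1 := by
      rw [norm_smul, norm_inv, norm_norm, inv_mul_cancel₀ hTx0]
    obtain ⟨f, hf, hfv⟩ := h _ hn
    have hfT : f (T x) = ‖T x‖ := by
      rw [map_smul, smul_eq_mul] at hfv
      field_simp at hfv
      exact hfv
    have hkey : ∃ y : X, ‖y‖ ≤ 1 ∧ (f y = 1 ∨ f y = -1) ∧ r < f (T y) := by
      by_contra hcon
      have hcon' : ∀ y ∈ ({x : X | ‖x‖ ≤ 1 ∧ f x = 1} ∪ {x : X | ‖x‖ ≤ 1 ∧ f x = -1}),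
          (f.comp T) y ≤ r := by
        intro y hy
        by_contra h3
        rcases hy with hy | hy
        · exact hcon ⟨y, hy.1, Or.inl hy.2, not_le.mp h3⟩
        · exact hcon ⟨y, hy.1, Or.inr hy.2, not_le.mp h3⟩
      have h4 := NI.conv_half (f.comp T) r _ hcon' x (hf.2 (by
        rw [Metric.mem_closedBall, dist_zero_right]; exact hx1))
      have h5 : (f.comp T) x = ‖T x‖ := hfT
      linarith
    obtain ⟨y, hy1, hy2, hy3⟩ := hkey
    have hle : |f y| ≤ ‖y‖ := by
      have := f.le_opNorm y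
      rw [hf.1, one_mul] at this
      exact this
    rcases hy2 with hy2 | hy2
    · refine ⟨y, f, le_antisymm hy1 ?_, hf.1, hy2, lt_of_lt_of_le hy3 (le_abs_self _)⟩
      rw [hy2, abs_one] at hle
      exact hle
    · refine ⟨-y, f, ?_, hf.1, ?_, ?_⟩
      · rw [norm_neg]
        refine le_antisymm hy1 ?_
        rw [hy2, abs_neg, abs_one] at hle
        exact hle
      · rw [map_neg, hy2, neg_neg]
      · rw [map_neg, map_neg, abs_neg]
        exact lt_of_lt_of_le hy3 (le_abs_self _)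

end MPbb13ef

end

section

/-!
# STB: stabilisation of countable consistent extensions
-/

set_option autoImplicit false

namespace MPbb13ef

namespace STB

variable {X : Type} [NormedAddCommGroup X] [NormedSpace ℝ X]

theorem cons_mono {P P' : Set (X →L[ℝ] ℝ)} (h : P ⊆ P') (hc : Cons P') : Cons P :=
  fun T hT ε hε => hc T (hT.trans h) ε hε

theorem und_anti {D P P' : Set (X →L[ℝ] ℝ)} (h : P ⊆ P') : Und D P' ⊆ Und D P := by
  intro e he
  exact ⟨he.1, cons_mono (Set.insert_subset_insert h) he.2.1,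
    cons_mono (Set.insert_subset_insert h) he.2.2⟩

open Classical in
/-- one step -/
noncomputable def stp (D : Set (X →L[ℝ] ℝ)) (V : Set (X →L[ℝ] ℝ)) (P : Set (X →L[ℝ] ℝ)) :
    Set (X →L[ℝ] ℝ) :=
  if h : ∃ P', Ext D P P' ∧ V ∩ Und D P' = ∅ then h.choose else P

theorem stp_ext (D V P : Set (X →L[ℝ] ℝ)) (hD : P ⊆ D) (hC : P.Countable) (hP : Cons P) :
    Ext D P (stp D V P) := by
  unfold stp
  split_ifs with h
  · exact h.choose_spec.1
  · exact ⟨subset_rfl, hD, hC, hP⟩

theorem stp_miss (D V P P' : Set (X →L[ℝ] ℝ)) (h1 : Ext D P P') (h2 : V ∩ Und D P' = ∅) :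
    V ∩ Und D (stp D V P) = ∅ := by
  have h : ∃ P', Ext D P P' ∧ V ∩ Und D P' = ∅ := ⟨P', h1, h2⟩
  unfold stp
  rw [dif_pos h]
  exact h.choose_spec.2

/-- the sequence -/
noncomputable def sq (D : Set (X →L[ℝ] ℝ)) (V : ℕ → Set (X →L[ℝ] ℝ)) (P₀ : Set (X →L[ℝ] ℝ)) :
    ℕ → Set (X →L[ℝ] ℝ)
  | 0 => P₀
  | n + 1 => stp D (V n) (sq D V P₀ n)

theorem sq_spec (D : Set (X →L[ℝ] ℝ)) (V : ℕ → Set (X →L[ℝ] ℝ)) (P₀ : Set (X →L[ℝ] ℝ))
    (hD : P₀ ⊆ D) (hC : P₀.Countable) (hP : Cons P₀) (n : ℕ) :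
    sq D V P₀ n ⊆ D ∧ (sq D V P₀ n).Countable ∧ Cons (sq D V P₀ n) := by
  induction n with
  | zero => exact ⟨hD, hC, hP⟩
  | succ n ih =>
    have := stp_ext D (V n) (sq D V P₀ n) ih.1 ih.2.1 ih.2.2
    exact this.2

theorem sq_mono (D : Set (X →L[ℝ] ℝ)) (V : ℕ → Set (X →L[ℝ] ℝ)) (P₀ : Set (X →L[ℝ] ℝ))
    (hD : P₀ ⊆ D) (hC : P₀.Countable) (hP : Cons P₀) : Monotone (sq D V P₀) := by
  refine monotone_nat_of_le_succ fun n => ?_
  have ih := sq_spec D V P₀ hD hC hP n
  exact (stp_ext D (V n) (sq D V P₀ n) ih.1 ih.2.1 ih.2.2).1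

theorem fin_sub (s : ℕ → Set (X →L[ℝ] ℝ)) (hs : Monotone s) (T : Finset (X →L[ℝ] ℝ))
    (hT : (T : Set (X →L[ℝ] ℝ)) ⊆ ⋃ n, s n) : ∃ n, (T : Set (X →L[ℝ] ℝ)) ⊆ s n := by
  classical
  induction T using Finset.induction_on with
  | empty => exact ⟨0, by simp⟩
  | insert a T _ ih =>
    obtain ⟨n, hn⟩ := ih (fun x hx => hT (by simp [Finset.mem_coe.1 hx]))
    obtain ⟨m, hm⟩ := Set.mem_iUnion.1 (hT (show a ∈ ((insert a T : Finset _) : Set _) by simp))
    refine ⟨max n m, fun x hx => ?_⟩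
    rw [Finset.mem_coe, Finset.mem_insert] at hx
    rcases hx with rfl | hx
    · exact hs (le_max_right n m) hm
    · exact hs (le_max_left n m) (hn (Finset.mem_coe.2 hx))

end STB

theorem prf_STB : S_STB := by
  intro X _ _ D ι _ U P₀ hD hC hP
  rcases isEmpty_or_nonempty ι with hι | hι
  · exact ⟨P₀, ⟨subset_rfl, hD, hC, hP⟩, fun i => (hι.false i).elim⟩
  · obtain ⟨g, hg⟩ := exists_surjective_nat ι
    set s := STB.sq D (fun n => U (g n)) P₀ with hs
    have hmono : Monotone s := STB.sq_mono D _ P₀ hD hC hP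
    have hspec := STB.sq_spec D (fun n => U (g n)) P₀ hD hC hP
    refine ⟨⋃ n, s n, ⟨?_, ?_, ?_, ?_⟩, ?_⟩
    · exact Set.subset_iUnion s 0
    · exact Set.iUnion_subset fun n => (hspec n).1
    · exact Set.countable_iUnion fun n => (hspec n).2.1
    · intro T hT ε hε
      obtain ⟨n, hn⟩ := STB.fin_sub s hmono T hT
      exact (hspec n).2.2 T hn ε hε
    · intro i hi P' hP'
      by_contra hne
      rw [Set.not_nonempty_iff_eq_empty] at hne
      obtain ⟨n, rfl⟩ := hg i
      have h1 : Ext D (s n) P' := ⟨(Set.subset_iUnion s n).trans hP'.1, hP'.2⟩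
      have h2 : U (g n) ∩ Und D (s (n + 1)) = ∅ := STB.stp_miss D (U (g n)) (s n) P' h1 hne
      obtain ⟨e, he⟩ := hi
      have h3 : e ∈ U (g n) ∩ Und D (s (n + 1)) :=
        ⟨he.1, STB.und_anti (Set.subset_iUnion s (n + 1)) he.2⟩
      rw [h2] at h3
      exact h3

end MPbb13ef

end

section

/-!
# SUB: diagonal subsequences
-/

set_option autoImplicit false

namespace MPbb13ef

theorem prf_SUB : S_SUB := by
  intro X _ _ q y hy
  have hK : IsCompact (Set.pi Set.univ (fun j => Set.Icc (-‖q j‖) ‖q j‖) : Set (ℕ → ℝ)) :=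
    isCompact_univ_pi fun j => isCompact_Icc
  have hmem : ∀ k, (fun j => q j (y k)) ∈
      (Set.pi Set.univ (fun j => Set.Icc (-‖q j‖) ‖q j‖) : Set (ℕ → ℝ)) := by
    intro k j _
    have h1 : |q j (y k)| ≤ ‖q j‖ := by
      rw [← Real.norm_eq_abs]
      calc ‖q j (y k)‖ ≤ ‖q j‖ * ‖y k‖ := (q j).le_opNorm (y k)
        _ ≤ ‖q j‖ * 1 := mul_le_mul_of_nonneg_left (hy k) (norm_nonneg _)
        _ = ‖q j‖ := mul_one _
    exact abs_le.1 h1
  obtain ⟨L, -, ψ, hψ, hL⟩ := hK.tendsto_subseq hmem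
  rw [tendsto_pi_nhds] at hL
  have hev : ∀ k : ℕ, ∀ᶠ n in Filter.atTop, ∀ j ≤ k, |q j (y (ψ n)) - L j| ≤ (1 / 2 : ℝ) ^ k := by
    intro k
    have h2 : ∀ j ∈ Finset.range (k + 1), ∀ᶠ n in Filter.atTop,
        |q j (y (ψ n)) - L j| ≤ (1 / 2 : ℝ) ^ k := by
      intro j _
      have h3 := Metric.tendsto_nhds.1 (hL j) ((1 / 2 : ℝ) ^ k) (by positivity)
      refine h3.mono fun n hn => ?_
      rw [Real.dist_eq] at hn
      exact hn.le
    have h4 := (Filter.eventually_all_finset (Finset.range (k + 1))).2 h2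
    refine h4.mono fun n hn j hj => hn j (Finset.mem_range.2 (by omega))
  obtain ⟨χ, hχ, hχ2⟩ := Filter.extraction_forall_of_eventually hev
  refine ⟨ψ ∘ χ, hψ.comp hχ, fun j => ?_⟩
  rw [← summable_nat_add_iff j]
  have hs : Summable fun k : ℕ => 2 * (1 / 2 : ℝ) ^ k :=
    (summable_geometric_of_lt_one (by norm_num) (by norm_num)).mul_left 2
  refine Summable.of_nonneg_of_le (fun _ => abs_nonneg _) (fun k => ?_) hs
  have h5 := hχ2 (k + j + 1) j (by omega)
  have h6 := hχ2 (k + j) j (by omega)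
  have h7 : (1 / 2 : ℝ) ^ (k + j + 1) ≤ (1 / 2 : ℝ) ^ k :=
    pow_le_pow_of_le_one (by norm_num) (by norm_num) (by omega)
  have h8 : (1 / 2 : ℝ) ^ (k + j) ≤ (1 / 2 : ℝ) ^ k :=
    pow_le_pow_of_le_one (by norm_num) (by norm_num) (by omega)
  rw [map_sub]
  simp only [Function.comp_apply]
  have h9 : q j (y (ψ (χ (k + j + 1)))) - q j (y (ψ (χ (k + j)))) =
      (q j (y (ψ (χ (k + j + 1)))) - L j) - (q j (y (ψ (χ (k + j)))) - L j) := by ring
  rw [h9]
  calc _ ≤ |q j (y (ψ (χ (k + j + 1)))) - L j| + |q j (y (ψ (χ (k + j)))) - L j| := abs_sub _ _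
    _ ≤ 2 * (1 / 2 : ℝ) ^ k := by linarith

end MPbb13ef

end

section

/-!
# Vertices are separated and countable
-/

set_option autoImplicit false

namespace MPbb13ef

theorem prf_VC : S_VC := by
  intro X _ _ _ D Q hS
  have hsep : ∀ y ∈ Vtx D, ∀ y' ∈ Vtx D, y ≠ y' → 2 ≤ ‖y - y'‖ := by
    intro y hy y' hy' hne
    have h0 : 0 < ‖y - y'‖ := by
      rw [norm_pos_iff]; exact sub_ne_zero.2 hne
    obtain ⟨f, hf, hfp⟩ := hS.norming (y - y') 0 h0
    rw [map_sub] at hfp
    have h1 := hy.2 f hf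
    have h2 := hy'.2 f hf
    have h3 : ‖f‖ ≤ 1 := (hS.sp f hf).1
    have h4 : |f (y - y')| ≤ 1 * ‖y - y'‖ := by
      have := f.le_opNorm (y - y')
      rw [Real.norm_eq_abs] at this
      exact this.trans (mul_le_mul_of_nonneg_right h3 (norm_nonneg _))
    rw [map_sub] at h4
    have h5 : f y - f y' = 2 := by
      rcases abs_eq (zero_le_one' ℝ) |>.1 h1 with h | h <;>
      rcases abs_eq (zero_le_one' ℝ) |>.1 h2 with h' | h' <;>
      linarith
    rw [h5] at h4
    norm_num at h4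
    exact h4
  refine ⟨hsep, ?_⟩
  obtain ⟨u, hu⟩ := TopologicalSpace.exists_dense_seq X
  have hex : ∀ y : X, ∃ n, dist y (u n) < 1 := fun y => by
    obtain ⟨z, hz, ⟨n, rfl⟩⟩ := Metric.dense_iff.1 hu y 1 one_pos
    exact ⟨n, by rw [dist_comm]; exact hz⟩
  choose n hn using hex
  rw [Set.countable_iff_exists_injOn]
  refine ⟨n, fun y hy y' hy' h => ?_⟩
  by_contra hne
  have h1 := hsep y hy y' hy' hne
  have h2 := hn y
  have h3 := hn y'
  rw [← h] at h3
  rw [← dist_eq_norm] at h1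
  have h4 := dist_triangle_right y y' (u (n y))
  linarith

end MPbb13ef

end

section

set_option autoImplicit false

namespace MPbb13ef

namespace VI

variable {X : Type} [NormedAddCommGroup X] [NormedSpace ℝ X]

theorem le_one (e : X →L[ℝ] ℝ) (he : ‖e‖ ≤ 1) (x : X) (hx : ‖x‖ ≤ 1) : e x ≤ 1 := by
  have h1 := e.le_opNorm x
  have h2 : e x ≤ ‖e x‖ := Real.le_norm_self _
  have h3 : ‖e‖ * ‖x‖ ≤ 1 := mul_le_one₀ he (norm_nonneg _) hx
  linarith

/-- if `-e'` is inconsistent with `e`, then `e'` is controlled by `e` -/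
theorem ctrl (hDET : S_DET) (e e' : X →L[ℝ] ℝ) (he : ‖e‖ ≤ 1) (he' : Sp e')
    (h : ¬ Cons (insert (-e') {e})) :
    ∃ C : ℝ, 0 < C ∧ ∀ x : X, ‖x‖ ≤ 1 → 1 - e' x ≤ C * (1 - e x) := by
  obtain ⟨T, C, hT, hC, h1⟩ := hDET X {e} e' (by
    intro t ht
    rw [Set.mem_singleton_iff] at ht
    rw [ht]
    exact he) he' h
  refine ⟨C, hC, fun x hx => (h1 x hx).trans ?_⟩
  apply mul_le_mul_of_nonneg_left _ hC.le
  have h2 : T ⊆ {e} := by
    intro t ht
    rw [Finset.mem_singleton]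
    exact hT ht
  calc ∑ t ∈ T, (1 - t x) ≤ ∑ t ∈ ({e} : Finset (X →L[ℝ] ℝ)), (1 - t x) := by
        apply Finset.sum_le_sum_of_subset_of_nonneg h2
        intro t ht _
        rw [Finset.mem_singleton] at ht
        rw [ht]
        have := le_one e he x hx
        linarith
    _ = 1 - e x := Finset.sum_singleton _ _

/-- the two inequalities force equality -/
theorem eq_of_ctrl (e e' : X →L[ℝ] ℝ) (he : Sp e) (he' : ‖e'‖ ≤ 1) (C C' : ℝ)
    (hC : 0 < C) (hC' : 0 < C')
    (h : ∀ x : X, ‖x‖ ≤ 1 → 1 - e' x ≤ C * (1 - e x))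
    (h' : ∀ x : X, ‖x‖ ≤ 1 → 1 + e' x ≤ C' * (1 + e x)) : e = e' := by
  have key : ∀ x : X, ‖x‖ ≤ 1 → e x = e' x := by
    intro x hx
    have h0 : ∀ η : ℝ, 0 < η → |e x - e' x| ≤ (4 + C + C') * η := by
      intro η hη
      obtain ⟨y, z, l, hy, hz, hey, hez, hl0, hl1, hr⟩ := he.2 x hx η hη
      set r := x - (l • y - (1 - l) • z) with hrdef
      have hx1 : x = r + (l • y - (1 - l) • z) := by
        rw [hrdef]
        abel
      have h1 : e x - e' x = (e r - e' r) + l * (e y - e' y) - (1 - l) * (e z - e' z) := by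
        conv_lhs => rw [hx1]
        simp only [map_add, map_sub, map_smul, smul_eq_mul]
        ring
      have hr1 : |e r| ≤ η := by
        have h2 := e.le_opNorm r
        rw [Real.norm_eq_abs] at h2
        have h3 : ‖e‖ * ‖r‖ ≤ 1 * ‖r‖ := mul_le_mul_of_nonneg_right he.1 (norm_nonneg _)
        linarith
      have hr2 : |e' r| ≤ η := by
        have h2 := e'.le_opNorm r
        rw [Real.norm_eq_abs] at h2
        have h3 : ‖e'‖ * ‖r‖ ≤ 1 * ‖r‖ := mul_le_mul_of_nonneg_right he' (norm_nonneg _)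
        linarith
      have hy1 := le_one e he.1 y hy
      have hy2 := le_one e' he' y hy
      have hz1 := le_one e he.1 z hz
      have hz2 := le_one e' he' z hz
      have hy3 : 1 - e' y ≤ C * η := (h y hy).trans
        (mul_le_mul_of_nonneg_left (by linarith) hC.le)
      have hz3 : 1 - e' z ≤ C' * η := by
        have h4 := h' (-z) (by rw [norm_neg]; exact hz)
        rw [map_neg, map_neg] at h4
        have h5 : C' * (1 + -e z) ≤ C' * η := mul_le_mul_of_nonneg_left (by linarith) hC'.le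
        linarith
      have hCη : 0 < C * η := mul_pos hC hη
      have hCη' : 0 < C' * η := mul_pos hC' hη
      have h6 : |e y - e' y| ≤ (1 + C) * η := by
        rw [abs_le]
        constructor <;> nlinarith
      have h7 : |e z - e' z| ≤ (1 + C') * η := by
        rw [abs_le]
        constructor <;> nlinarith
      have h8 : |l * (e y - e' y)| ≤ (1 + C) * η := by
        rw [abs_mul, abs_of_nonneg hl0]
        calc l * |e y - e' y| ≤ 1 * |e y - e' y| :=
              mul_le_mul_of_nonneg_right hl1 (abs_nonneg _)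
          _ ≤ (1 + C) * η := by rw [one_mul]; exact h6
      have h9 : |(1 - l) * (e z - e' z)| ≤ (1 + C') * η := by
        rw [abs_mul, abs_of_nonneg (by linarith : (0 : ℝ) ≤ 1 - l)]
        calc (1 - l) * |e z - e' z| ≤ 1 * |e z - e' z| :=
              mul_le_mul_of_nonneg_right (by linarith) (abs_nonneg _)
          _ ≤ (1 + C') * η := by rw [one_mul]; exact h7
      rw [abs_le] at hr1 hr2 h8 h9
      rw [h1, abs_le]
      constructor <;> linarith [hr1.1, hr1.2, hr2.1, hr2.2, h8.1, h8.2, h9.1, h9.2]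
    by_contra hne
    have hpos : 0 < |e x - e' x| := abs_pos.2 (sub_ne_zero.2 hne)
    have hK : 0 < 4 + C + C' := by linarith
    have h2 := h0 (|e x - e' x| / (2 * (4 + C + C'))) (by positivity)
    have h3 : (4 + C + C') * (|e x - e' x| / (2 * (4 + C + C'))) = |e x - e' x| / 2 := by
      field_simp
    rw [h3] at h2
    linarith
  ext x
  by_cases hx : x = 0
  · rw [hx, map_zero, map_zero]
  · have hn : 0 < ‖x‖ := norm_pos_iff.2 hx
    have h1 := key (‖x‖⁻¹ • x) (by
      rw [norm_smul, norm_inv, norm_norm, inv_mul_cancel₀ hn.ne'])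
    rw [map_smul, map_smul, smul_eq_mul, smul_eq_mul] at h1
    exact mul_left_cancel₀ (inv_ne_zero hn.ne') h1

theorem pair_ext (D : Set (X →L[ℝ] ℝ)) (a b : X →L[ℝ] ℝ) (ha : a ∈ D) (hb : b ∈ D)
    (h : Cons (insert a {b})) : Ext D (insert a {b}) (insert a {b}) := by
  refine ⟨subset_rfl, ?_, ?_, h⟩
  · intro t ht
    rcases ht with rfl | ht
    · exact ha
    · rw [Set.mem_singleton_iff] at ht
      rw [ht]
      exact hb
  · exact (Set.countable_singleton b).insert a

end VI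

open VI in
theorem prf_VI (hDET : S_DET) : S_VI := by
  intro X _ _ D Q hS hV hfd hfin
  apply hfd
  -- vertices separate the elements of `D`
  have hsep : ∀ e ∈ D, ∀ e' ∈ D, (∀ y ∈ Vtx D, e y = e' y) → e = e' := by
    intro e he e' he' hy
    have h1 : ¬ Cons (insert (-e') {e}) := by
      intro hc
      obtain ⟨y, hyV, hy1⟩ := hV _ (pair_ext D (-e') e (hS.neg _ he') he hc)
      have h2 := hy1 (-e') (Set.mem_insert _ _)
      have h3 := hy1 e (Set.mem_insert_of_mem _ rfl)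
      have h4 := hy y hyV
      rw [ContinuousLinearMap.neg_apply] at h2
      linarith
    have h2 : ¬ Cons (insert (-(-e')) {-e}) := by
      intro hc
      rw [neg_neg] at hc
      obtain ⟨y, hyV, hy1⟩ := hV _ (pair_ext D e' (-e) he' (hS.neg _ he) hc)
      have h2 := hy1 e' (Set.mem_insert _ _)
      have h3 := hy1 (-e) (Set.mem_insert_of_mem _ rfl)
      have h4 := hy y hyV
      rw [ContinuousLinearMap.neg_apply] at h3
      linarith
    obtain ⟨C, hC, h3⟩ := ctrl hDET e e' (hS.sp e he).1 (hS.sp e' he') h1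
    obtain ⟨C', hC', h4⟩ := ctrl hDET (-e) (-e') (hS.sp _ (hS.neg _ he)).1
      (hS.sp _ (hS.neg _ he')) h2
    refine eq_of_ctrl e e' (hS.sp e he) (hS.sp e' he').1 C C' hC hC' h3 ?_
    intro x hx
    have h5 := h4 x hx
    rw [ContinuousLinearMap.neg_apply, ContinuousLinearMap.neg_apply] at h5
    linarith
  -- `D` is finite
  haveI : Finite (Vtx D) := hfin.to_subtype
  have hDfin : Finite D := by
    let Φ : D → (Vtx D → Prop) := fun e y => (e : X →L[ℝ] ℝ) (y : X) = 1
    refine Finite.of_injective Φ ?_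
    intro e e' hee
    apply Subtype.ext
    apply hsep _ e.2 _ e'.2
    intro y hy
    have h1 : ((e : X →L[ℝ] ℝ) y = 1) = ((e' : X →L[ℝ] ℝ) y = 1) := congrFun hee ⟨y, hy⟩
    have h2 := hy.2 _ e.2
    have h3 := hy.2 _ e'.2
    rcases eq_or_eq_neg_of_abs_eq h2 with h4 | h4 <;>
      rcases eq_or_eq_neg_of_abs_eq h3 with h5 | h5
    · rw [h4, h5]
    · have h6 := h1.mp h4
      rw [h4, h6]
    · have h6 := h1.mpr h5
      rw [h5, h6]
    · rw [h4, h5]
  let L : X →ₗ[ℝ] (D → ℝ) :=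
    { toFun := fun x f => (f : X →L[ℝ] ℝ) x
      map_add' := fun x y => by
        ext f
        exact map_add _ _ _
      map_smul' := fun c x => by
        ext f
        exact map_smul _ _ _ }
  refine FiniteDimensional.of_injective L ?_
  rw [← LinearMap.ker_eq_bot, LinearMap.ker_eq_bot']
  intro x hx
  by_contra hne
  obtain ⟨f, hf, hfx⟩ := hS.norming x 0 (norm_pos_iff.2 hne)
  have h1 : (f : X →L[ℝ] ℝ) x = 0 := congrFun hx ⟨f, hf⟩
  linarith

end MPbb13ef

end

section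

/-!
# Numerical index one and a boundary of spears and countably many functionals: spears are norming
-/

set_option autoImplicit false

namespace MPbb13ef

/-- The alternative Daugavet property implies that a functional which is equal to the norm on a
ball is a spear. -/
theorem spear_of_ball {X : Type} [NormedAddCommGroup X] [NormedSpace ℝ X] (hA : ADP X)
    (q : X →L[ℝ] ℝ) (hq1 : ‖q‖ ≤ 1) (x₁ : X) (hx₁ : x₁ ≠ 0) (δ : ℝ) (hδ : 0 < δ)
    (hball : ∀ x, ‖x - x₁‖ ≤ δ → q x = ‖x‖) : Spear q := by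
  have hx0 : 0 < ‖x₁‖ := norm_pos_iff.2 hx₁
  have hqx : q x₁ = ‖x₁‖ := hball x₁ (by simpa using hδ.le)
  have hq : ‖q‖ = 1 := by
    refine le_antisymm hq1 ?_
    have := q.le_opNorm x₁
    rw [hqx, Real.norm_of_nonneg hx0.le] at this
    exact le_of_mul_le_mul_right (by linarith) hx0
  refine ⟨hq, fun ε hε => ?_⟩
  intro z hz
  have hz1 : ‖z‖ ≤ 1 := by simpa using hz
  by_contra hzC
  set S : Set X := {x : X | ‖x‖ ≤ 1 ∧ 1 - ε < q x} ∪ {x : X | ‖x‖ ≤ 1 ∧ q x < -(1 - ε)} with hS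
  obtain ⟨g, u, hgC, hgz⟩ := geometric_hahn_banach_closed_point
    ((convex_convexHull ℝ S).closure) isClosed_closure hzC
  -- choose the small parameter
  obtain ⟨ε', hε'0, hε'⟩ : ∃ ε' : ℝ, 0 < ε' ∧ ε' + ε' / δ < ε := by
    refine ⟨ε / (2 * (1 + 1 / δ)), by positivity, ?_⟩
    have h1 : ε / (2 * (1 + 1 / δ)) + ε / (2 * (1 + 1 / δ)) / δ = ε / 2 := by
      field_simp
    rw [h1]
    linarith
  obtain ⟨y, f, hy, hf1, hfx, hfy⟩ := hA x₁ g u ⟨z, hz1, hgz⟩ ε' hε'0
  have hfq : ‖f - q‖ ≤ ε' / δ := by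
    refine ContinuousLinearMap.opNorm_le_bound _ (by positivity) (fun h => ?_)
    have key : ∀ k : X, ‖k‖ ≤ δ → (f - q) k ≤ ε' := by
      intro k hk
      have h1 : q (x₁ + k) = ‖x₁ + k‖ := hball _ (by simpa using hk)
      have h2 : f (x₁ + k) ≤ ‖x₁ + k‖ :=
        (le_abs_self _).trans ((f.le_of_opNorm_le hf1 _).trans (by rw [one_mul]))
      rw [map_add] at h1 h2
      rw [sub_apply]
      linarith
    rcases eq_or_ne h 0 with rfl | hh
    · simp
    have hh0 : 0 < ‖h‖ := norm_pos_iff.2 hh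
    have key2 : ∀ k : X, ‖k‖ ≤ δ → ‖(f - q) k‖ ≤ ε' := by
      intro k hk
      rw [Real.norm_eq_abs, abs_le]
      refine ⟨?_, key k hk⟩
      have := key (-k) (by rwa [norm_neg])
      rw [map_neg] at this
      linarith
    have h3 := key2 ((δ / ‖h‖) • h) (by
      rw [norm_smul, Real.norm_of_nonneg (by positivity), div_mul_cancel₀ _ hh0.ne'])
    rw [map_smul, norm_smul, Real.norm_of_nonneg (by positivity : (0 : ℝ) ≤ δ / ‖h‖)] at h3
    have h4 : ‖(f - q) h‖ ≤ ε' / (δ / ‖h‖) := by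
      rw [le_div_iff₀ (by positivity)]
      linarith
    refine h4.trans (le_of_eq ?_)
    field_simp
  have hqy : 1 - ε < |q y| := by
    have h1 : |f y| ≤ |q y| + ε' / δ := by
      have h2 : f y = q y + (f - q) y := by rw [sub_apply]; ring
      have h3 : |(f - q) y| ≤ ε' / δ := by
        have := (f - q).le_of_opNorm_le hfq y
        rw [Real.norm_eq_abs] at this
        exact this.trans (mul_le_of_le_one_right (by positivity) hy.1)
      rw [h2]
      exact (abs_add_le _ _).trans (by linarith)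
    linarith
  have hyS : y ∈ S := by
    rcases lt_abs.1 hqy with h | h
    · exact Or.inl ⟨hy.1, h⟩
    · exact Or.inr ⟨hy.1, by linarith⟩
  have := hgC y (subset_closure (subset_convexHull ℝ S hyS))
  exact absurd hy.2 (not_lt.2 this.le)

/-- If the spears together with countably many functionals are a boundary and the space has the
alternative Daugavet property, then the spears are norming. -/
theorem norming_of_adp {X : Type} [NormedAddCommGroup X] [NormedSpace ℝ X] [CompleteSpace X]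
    (hA : ADP X) (hne : ∃ x : X, x ≠ 0) (Q : Set (X →L[ℝ] ℝ)) (hQ : Q.Countable)
    (hbd : ∀ x : X, ∃ f : X →L[ℝ] ℝ, (Spear f ∨ f ∈ Q) ∧ ‖f‖ ≤ 1 ∧ |f x| = ‖x‖)
    (x : X) (r : ℝ) (hr : r < ‖x‖) : ∃ f : X →L[ℝ] ℝ, Spear f ∧ r < |f x| := by
  have main : ∀ (x₀ : X) (r₀ : ℝ), 0 ≤ r₀ → r₀ < ‖x₀‖ →
      ∃ f : X →L[ℝ] ℝ, Spear f ∧ r₀ < |f x₀| := by
    intro x₀ r₀ hr0 hr1
    by_contra hcon
    push Not at hcon
    set ρ : ℝ := (‖x₀‖ - r₀) / 2 with hρ
    have hρ0 : 0 < ρ := by rw [hρ]; linarith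
    have hU : ∀ x, ‖x - x₀‖ < ρ → 0 < ‖x‖ ∧ ∀ f : X →L[ℝ] ℝ, Spear f → |f x| < ‖x‖ := by
      intro x hx
      have h1 : ‖x₀‖ ≤ ‖x‖ + ‖x - x₀‖ := by
        have := norm_sub_le x (x - x₀)
        rwa [sub_sub_cancel] at this
      refine ⟨by linarith, fun f hf => ?_⟩
      have h2 : f x = f x₀ + f (x - x₀) := by rw [map_sub]; ring
      have h3 : |f (x - x₀)| ≤ ‖x - x₀‖ := by
        have := f.le_of_opNorm_le hf.1.le (x - x₀)
        rwa [one_mul, Real.norm_eq_abs] at this
      have h4 := hcon f hf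
      calc |f x| ≤ |f x₀| + |f (x - x₀)| := by rw [h2]; exact abs_add_le _ _
        _ < ‖x‖ := by linarith
    -- Baire category
    have : Countable Q := hQ.to_subtype
    let F : Option Q → Set X := fun o => match o with
      | none => (Metric.ball x₀ ρ)ᶜ
      | some q => {x | ‖(q : X →L[ℝ] ℝ)‖ ≤ 1 ∧ |(q : X →L[ℝ] ℝ) x| = ‖x‖}
    have hFc : ∀ o, IsClosed (F o) := by
      intro o
      rcases o with _ | q
      · exact Metric.isOpen_ball.isClosed_compl
      · by_cases hq : ‖(q : X →L[ℝ] ℝ)‖ ≤ 1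
        · have : F (some q) = {x | |(q : X →L[ℝ] ℝ) x| = ‖x‖} := by
            ext x
            simp [F, hq]
          rw [this]
          exact isClosed_eq (q : X →L[ℝ] ℝ).continuous.abs continuous_norm
        · have : F (some q) = ∅ := by
            ext x
            simp [F, hq]
          rw [this]
          exact isClosed_empty
    have hFU : (⋃ o, F o) = Set.univ := by
      refine Set.eq_univ_of_forall (fun x => ?_)
      rw [Set.mem_iUnion]
      by_cases hx : x ∈ Metric.ball x₀ ρ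
      · obtain ⟨f, hf, hf1, hfx⟩ := hbd x
        rcases hf with hf | hf
        · exact absurd hfx ((hU x (by rwa [← mem_ball_iff_norm])).2 f hf).ne
        · exact ⟨some ⟨f, hf⟩, hf1, hfx⟩
      · exact ⟨none, hx⟩
    have hd := dense_iUnion_interior_of_closed hFc hFU
    obtain ⟨x₁, hx₁U, hx₁I⟩ := hd.exists_mem_open Metric.isOpen_ball
      ⟨x₀, Metric.mem_ball_self hρ0⟩
    rw [Set.mem_iUnion] at hx₁U
    obtain ⟨o, ho⟩ := hx₁U
    rcases o with _ | q
    · exact interior_subset ho hx₁I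
    · obtain ⟨δ, hδ, hδF⟩ := Metric.isOpen_iff.1 isOpen_interior x₁ ho
      have hx₁n : ‖x₁ - x₀‖ < ρ := by rwa [← mem_ball_iff_norm]
      obtain ⟨hx₁0, hx₁s⟩ := hU x₁ hx₁n
      obtain ⟨hq1, hqx⟩ := interior_subset ho
      -- the sign of `q`
      obtain ⟨q', hq', hqq⟩ : ∃ q' : X →L[ℝ] ℝ, ‖q'‖ ≤ 1 ∧ (q' x₁ = ‖x₁‖) ∧
          ∀ x, |q' x| = |(q : X →L[ℝ] ℝ) x| := by
        rcases le_total 0 ((q : X →L[ℝ] ℝ) x₁) with h | h
        · exact ⟨q, hq1, by rw [← hqx, abs_of_nonneg h], fun x => rfl⟩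
        · exact ⟨-q, by rwa [norm_neg], by rw [← hqx, abs_of_nonpos h]; rfl,
            fun x => by rw [neg_apply, abs_neg]⟩
      have hball : ∀ x, ‖x - x₁‖ ≤ min (δ / 2) (‖x₁‖ / 2) → q' x = ‖x‖ := by
        intro x hx
        have h1 : x ∈ F (some q) := interior_subset (hδF (by
          rw [mem_ball_iff_norm]
          exact (hx.trans (min_le_left _ _)).trans_lt (by linarith)))
        have h2 : |q' x| = ‖x‖ := by rw [hqq.2 x]; exact h1.2
        have h3 : 0 ≤ q' x := by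
          have h4 : q' x = q' x₁ + q' (x - x₁) := by rw [map_sub]; ring
          have h5 : |q' (x - x₁)| ≤ ‖x - x₁‖ := by
            have := q'.le_of_opNorm_le hq' (x - x₁)
            rwa [one_mul, Real.norm_eq_abs] at this
          have h6 := (abs_le.1 h5).1
          have h7 := hx.trans (min_le_right _ _)
          rw [h4, hqq.1]
          linarith
        rwa [abs_of_nonneg h3] at h2
      have hsp : Spear q' := spear_of_ball hA q' hq' x₁ (norm_pos_iff.1 hx₁0)
        (min (δ / 2) (‖x₁‖ / 2)) (lt_min (by linarith) (by linarith)) hball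
      have := hx₁s q' hsp
      rw [hqq.1, abs_of_nonneg hx₁0.le] at this
      exact lt_irrefl _ this
  rcases le_or_gt 0 r with h | h
  · exact main x r h hr
  · obtain ⟨y, hy⟩ := hne
    obtain ⟨f, hf, -⟩ := main y 0 le_rfl (norm_pos_iff.2 hy)
    exact ⟨f, hf, h.trans_le (abs_nonneg _)⟩

end MPbb13ef

end

section

/-!
# Item NIA: numerical index one gives the alternative Daugavet property
-/

set_option autoImplicit false

namespace MPbb13ef

namespace NIA

theorem sgn_mul (r : ℝ) : ∃ s : ℝ, |s| = 1 ∧ s * r = |r| := by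
  rcases le_total 0 r with h | h
  · exact ⟨1, abs_one, by rw [one_mul, abs_of_nonneg h]⟩
  · exact ⟨-1, by rw [abs_neg, abs_one], by rw [abs_of_nonpos h]; ring⟩

end NIA

theorem prf_NIA : S_NIA := by
  intro X _ _ hNI w g a hz ε hε
  obtain ⟨z, hz1, hz2⟩ := hz
  obtain ⟨x, hx1, hxw⟩ : ∃ x : X, ‖x‖ = 1 ∧ ‖w‖ • x = w := by
    by_cases hw : w = 0
    · obtain ⟨x, f, hx, _⟩ := hNI 0 (-1) (by rw [norm_zero]; norm_num)
      exact ⟨x, hx, by rw [hw, norm_zero, zero_smul]⟩
    · have hw' : ‖w‖ ≠ 0 := norm_ne_zero_iff.2 hw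
      refine ⟨‖w‖⁻¹ • w, ?_, ?_⟩
      · rw [norm_smul, norm_inv, norm_norm, inv_mul_cancel₀ hw']
      · rw [smul_smul, mul_inv_cancel₀ hw', one_smul]
  have hfw : ∀ f : X →L[ℝ] ℝ, f w = ‖w‖ * f x := by
    intro f
    conv_lhs => rw [← hxw]
    rw [map_smul, smul_eq_mul]
  by_cases hg : g = 0
  · obtain ⟨f, hf1, hf2⟩ := exists_dual_vector'' ℝ x
    have hf3 : f x = 1 := by
      rw [hf2, hx1]; simp
    refine ⟨x, f, ⟨hx1.le, ?_⟩, hf1, ?_, ?_⟩
    · rw [hg] at hz2 ⊢
      exact hz2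
    · rw [hfw, hf3, mul_one]; linarith
    · rw [hf3, abs_one]; linarith
  · have hgpos : 0 < ‖g‖ := norm_pos_iff.2 hg
    have hw0 : 0 ≤ ‖w‖ := norm_nonneg w
    have he : 0 < ε / (1 + ‖w‖) := by positivity
    have he1 : ε / (1 + ‖w‖) ≤ ε := div_le_self hε.le (by linarith)
    have he2 : ‖w‖ * (ε / (1 + ‖w‖)) < ε := by
      rw [mul_div_assoc', div_lt_iff₀ (by positivity)]
      nlinarith
    set e := ε / (1 + ‖w‖) with hedef
    have hT : ‖g.smulRight x‖ = ‖g‖ := by
      rw [ContinuousLinearMap.norm_smulRight_apply, hx1, mul_one]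
    have hgz : g z ≤ ‖g‖ := by
      refine (le_abs_self _).trans ?_
      have h1 := g.le_opNorm z
      rw [Real.norm_eq_abs] at h1
      nlinarith
    obtain ⟨y, f, hy, hf, hfy, hr⟩ := hNI (g.smulRight x) (max a ((1 - e) * ‖g‖)) (by
      rw [hT]
      refine max_lt (lt_of_lt_of_le hz2 hgz) ?_
      nlinarith)
    rw [ContinuousLinearMap.smulRight_apply, map_smul, smul_eq_mul, abs_mul] at hr
    have hr1 : a < |g y| * |f x| := lt_of_le_of_lt (le_max_left _ _) hr
    have hr2 : (1 - e) * ‖g‖ < |g y| * |f x| := lt_of_le_of_lt (le_max_right _ _) hr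
    have hfx : |f x| ≤ 1 := by
      have h1 := f.le_opNorm x
      rw [Real.norm_eq_abs, hf, hx1, mul_one] at h1
      exact h1
    have hgy : |g y| ≤ ‖g‖ := by
      have h1 := g.le_opNorm y
      rw [Real.norm_eq_abs, hy, mul_one] at h1
      exact h1
    have h3 : 1 - e < |f x| := by
      have h4 : (1 - e) * ‖g‖ < |f x| * ‖g‖ := by
        have := abs_nonneg (f x)
        nlinarith
      exact lt_of_mul_lt_mul_right h4 hgpos.le
    obtain ⟨s, hs1, hs2⟩ := NIA.sgn_mul (g y)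
    obtain ⟨t, ht1, ht2⟩ := NIA.sgn_mul (f x)
    refine ⟨s • y, t • f, ⟨?_, ?_⟩, ?_, ?_, ?_⟩
    · rw [norm_smul, Real.norm_eq_abs, hs1, hy, mul_one]
    · rw [map_smul, smul_eq_mul, hs2]
      have := abs_nonneg (g y)
      nlinarith
    · rw [norm_smul, Real.norm_eq_abs, ht1, hf, mul_one]
    · rw [hfw, smul_apply, smul_eq_mul, ht2]
      nlinarith
    · rw [smul_apply, map_smul, smul_eq_mul, smul_eq_mul, hfy, mul_one,
        abs_mul, ht1, hs1]
      linarith

end MPbb13ef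

end
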