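import Mathlib
import Pool.Agent.Work.MP_bb13ef_an.ACL.Stmts

/-! Bundle of small proof modules (one section per former module). -/

section

/-!
# Assembly of the proof (the statements of the items are hypotheses)
-/

set_option autoImplicit false

open scoped ZeroAtInfty

namespace MPbb13ef

theorem asm_BP (hA : S_BPA) (hB : S_BPB) (hC : S_BPC) : S_BP := by
  intro X _ _ _ w c C hc hw hSB
  obtain ⟨φ, f, hφ, hf⟩ := hB X w c C hc hw hSB
  refine hC X (w ∘ φ) f c C hc ?_ ?_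
  · intro J θ B hB0 hθ
    have key := hA X w C hSB (J.map ⟨φ, hφ.injective⟩) (fun j => θ (Function.invFun φ j)) B hB0 ?_
    · rw [Finset.sum_map] at key
      simp only [Function.Embedding.coeFn_mk] at key
      have hinv : ∀ i, Function.invFun φ (φ i) = i := Function.leftInverse_invFun hφ.injective
      simp only [hinv] at key
      exact key
    · intro j hj
      rw [Finset.mem_map] at hj
      obtain ⟨i, hi, rfl⟩ := hj
      have hinv : Function.invFun φ (φ i) = i := Function.leftInverse_invFun hφ.injective i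
      simp only [Function.Embedding.coeFn_mk, hinv]
      exact hθ i hi
  · intro n
    exact hf n

theorem asm_F (h1 : S_F1) (h2 : S_F2) (h3 : S_G2) : S_F := by
  intro X _ _ _ B z δ hB hδ hz hsum
  by_contra hcon
  obtain ⟨u, hu, hub⟩ := h1 X B z δ hδ hz hsum hcon
  obtain ⟨N, hN⟩ := h2 X B u hB hu hub
  exact hcon (h3 X u N hN)

theorem asm_MAIN (hDNS : S_DNS) (hSTB : S_STB) (hL4 : S_L4) (hL1E : S_L1E) (hB : S_B)
    (hVC : S_VC) (hVI : S_VI) (hE : S_E) : S_MAIN := by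
  intro X _ _ _ _ D Q hS hfd
  by_contra hcon
  rw [not_or] at hcon
  obtain ⟨h0, h1⟩ := hcon
  obtain ⟨d, hd1, hd2⟩ := hDNS X
  have AB : ∀ P : Set (X →L[ℝ] ℝ), Ext D P P → ∃ y ∈ Vtx D, ∀ e ∈ P, e y = 1 := by
    intro P hP
    obtain ⟨_, hPD, hPc, hPcons⟩ := hP
    obtain ⟨P', hP', hst⟩ := hSTB X D (List (ℕ × Bool)) (UB d) P hPD hPc hPcons
    have hP'' : Ext D P' P' := ⟨Set.Subset.rfl, hP'.2.1, hP'.2.2.1, hP'.2.2.2⟩
    have hU : Und D P' = ∅ := by
      by_contra hne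
      have hne' : (Und D P').Nonempty := Set.nonempty_iff_ne_empty.2 hne
      obtain ⟨x, hx1, hx2⟩ := hL4 X D P' d hS.sp hS.neg hd1 hd2 hP'' hst hne'
      refine h1 (hL1E X x hx1 (fun n s => ?_))
      obtain ⟨e, he, h⟩ := hx2 n s
      exact ⟨e, (hS.sp e he).1, h⟩
    obtain ⟨y, hy, hyP⟩ := hB X D Q hS h0 P' hP'' hU
    exact ⟨y, hy, fun e he => hyP e (hP'.1 he)⟩
  obtain ⟨hsep, hcount⟩ := hVC X D Q hS
  have hinf := hVI X D Q hS AB hfd
  exact h0 (hE X D Q hS AB hsep hcount hinf)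

theorem Spear.neg {X : Type} [NormedAddCommGroup X] [NormedSpace ℝ X] {f : X →L[ℝ] ℝ}
    (hf : Spear f) : Spear (-f) := by
  refine ⟨by rw [norm_neg]; exact hf.1, fun ε hε => ?_⟩
  refine (hf.2 ε hε).trans (closure_mono (convexHull_mono ?_))
  rintro x (⟨h1, h2⟩ | ⟨h1, h2⟩)
  · right
    refine ⟨h1, ?_⟩
    simp only [neg_apply]
    linarith
  · left
    refine ⟨h1, ?_⟩
    simp only [neg_apply]
    linarith

/-- The main theorem for the set of all spears. -/
theorem asm_SPEAR (hHULL : S_HULL) (hMAIN : S_MAIN) : ∀ (X : Type) [NormedAddCommGroup X]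
    [NormedSpace ℝ X] [CompleteSpace X] [TopologicalSpace.SeparableSpace X],
    ¬ FiniteDimensional ℝ X → ∀ Q : Set (X →L[ℝ] ℝ), Q.Countable →
    (∀ (x : X) (r : ℝ), r < ‖x‖ → ∃ f : X →L[ℝ] ℝ, Spear f ∧ r < |f x|) →
    (∀ x : X, ∃ f : X →L[ℝ] ℝ, (Spear f ∨ f ∈ Q) ∧ ‖f‖ ≤ 1 ∧ |f x| = ‖x‖) →
    HasC0 X ∨ HasL1 X := by
  intro X _ _ _ _ hfd Q hQ hnorm hbd
  refine hMAIN X {f | Spear f} Q ?_ hfd
  refine ⟨fun f hf => hHULL X f hf, fun f hf => Spear.neg hf, ?_, ?_, hQ⟩
  · intro x r hr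
    obtain ⟨f, hf, hfx⟩ := hnorm x r hr
    rcases le_total 0 (f x) with h | h
    · exact ⟨f, hf, by rwa [abs_of_nonneg h] at hfx⟩
    · refine ⟨-f, Spear.neg hf, ?_⟩
      rw [abs_of_nonpos h] at hfx
      simpa using hfx
  · intro x
    obtain ⟨f, hf, h⟩ := hbd x
    exact ⟨f, hf, h⟩

end MPbb13ef

end

section

/-!
# Almost-CL-spaces: every vector is normed by a face functional
-/

set_option autoImplicit false

namespace MPbb13ef

namespace ACL

variable {X : Type} [NormedAddCommGroup X] [NormedSpace ℝ X]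

/-- a maximal convex subset of the sphere containing `x` -/
theorem exists_maximal (x : X) (hx : ‖x‖ = 1) :
    ∃ F : Set X, x ∈ F ∧
      Maximal (fun G : Set X => Convex ℝ G ∧ G ⊆ Metric.sphere (0 : X) 1) F := by
  have h := zorn_subset_nonempty {G : Set X | Convex ℝ G ∧ G ⊆ Metric.sphere (0 : X) 1} ?_ {x} ?_
  · obtain ⟨F, hxF, hF⟩ := h
    exact ⟨F, hxF rfl, hF⟩
  · intro c hc hchain hne
    refine ⟨⋃₀ c, ⟨?_, ?_⟩, fun s hs => Set.subset_sUnion_of_mem hs⟩
    · exact DirectedOn.convex_sUnion hchain.directedOn fun A hA => (hc hA).1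
    · exact Set.sUnion_subset fun A hA => (hc hA).2
  · exact ⟨convex_singleton x, by simpa using hx⟩

/-- a convex subset of the sphere lies in a hyperplane at distance one -/
theorem exists_functional (F : Set X) (hF : Convex ℝ F) (hs : F ⊆ Metric.sphere (0 : X) 1)
    (x : X) (hx : x ∈ F) : ∃ f : X →L[ℝ] ℝ, ‖f‖ = 1 ∧ ∀ b ∈ F, f b = 1 := by
  have hdisj : Disjoint (Metric.ball (0 : X) 1) F := by
    rw [Set.disjoint_left]
    intro y hy hyF
    have h1 := hs hyF
    rw [mem_sphere_zero_iff_norm] at h1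
    rw [mem_ball_zero_iff] at hy
    linarith
  obtain ⟨g, u, hg1, hg2⟩ := geometric_hahn_banach_open (convex_ball (0 : X) 1)
    Metric.isOpen_ball hF hdisj
  have hu : 0 < u := by
    have := hg1 0 (Metric.mem_ball_self one_pos)
    rwa [map_zero] at this
  have hle : ∀ y : X, ‖y‖ < 1 → u⁻¹ * g y < 1 := by
    intro y hy
    have := hg1 y (mem_ball_zero_iff.2 hy)
    rw [inv_mul_lt_iff₀ hu]
    linarith
  have hnorm : ‖u⁻¹ • g‖ ≤ 1 := by
    refine ContinuousLinearMap.opNorm_le_of_unit_norm zero_le_one fun y hy => ?_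
    rw [Real.norm_eq_abs]
    have key : ∀ y : X, ‖y‖ = 1 → (u⁻¹ • g) y ≤ 1 := by
      intro y hy
      by_contra hcon
      push Not at hcon
      have hpos : 0 < (u⁻¹ • g) y := lt_trans one_pos hcon
      have h2 := hle (((u⁻¹ • g) y)⁻¹ • y) (by
        rw [norm_smul, hy, mul_one, Real.norm_eq_abs, abs_of_pos (inv_pos.2 hpos)]
        exact inv_lt_one_of_one_lt₀ hcon)
      rw [map_smul, smul_eq_mul] at h2
      have h3 : (u⁻¹ • g) y = u⁻¹ * g y := rfl
      rw [h3] at h2 hpos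
      have h4 : u⁻¹ * ((u⁻¹ * g y)⁻¹ * g y) = 1 := by
        have : u⁻¹ * ((u⁻¹ * g y)⁻¹ * g y) = (u⁻¹ * g y)⁻¹ * (u⁻¹ * g y) := by ring
        rw [this, inv_mul_cancel₀ hpos.ne']
      linarith
    rw [abs_le]
    constructor
    · have h5 := key (-y) (by rw [norm_neg, hy])
      rw [map_neg] at h5
      linarith
    · exact key y hy
  have hone : ∀ b ∈ F, (u⁻¹ • g) b = 1 := by
    intro b hb
    have hbn : ‖b‖ = 1 := mem_sphere_zero_iff_norm.1 (hs hb)
    apply le_antisymm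
    · have h6 := (u⁻¹ • g).le_opNorm b
      rw [hbn, mul_one, Real.norm_eq_abs] at h6
      exact (le_abs_self _).trans (h6.trans hnorm)
    · have h7 := hg2 b hb
      show 1 ≤ u⁻¹ * g b
      rw [inv_mul_eq_div, le_div_iff₀ hu]
      linarith
  refine ⟨u⁻¹ • g, le_antisymm hnorm ?_, hone⟩
  have hxn : ‖x‖ = 1 := mem_sphere_zero_iff_norm.1 (hs hx)
  have h8 := (u⁻¹ • g).le_opNorm x
  rw [hone x hx, hxn, mul_one, norm_one] at h8
  exact h8

end ACL

theorem prf_ACL : S_ACL := by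
  intro X _ _ h x hx
  obtain ⟨F, hxF, hF⟩ := ACL.exists_maximal x hx
  obtain ⟨f, hf, hf1⟩ := ACL.exists_functional F hF.prop.1 hF.prop.2 x hxF
  refine ⟨f, ⟨hf, (h F hF).trans (closure_mono (convexHull_mono ?_))⟩, hf1 x hxF⟩
  apply Set.union_subset_union
  · intro y hy
    exact ⟨(mem_sphere_zero_iff_norm.1 (hF.prop.2 hy)).le, hf1 y hy⟩
  · intro y hy
    have h1 := hF.prop.2 hy
    have h2 := hf1 _ hy
    rw [mem_sphere_zero_iff_norm, norm_neg] at h1
    rw [map_neg] at h2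
    exact ⟨h1.le, by linarith⟩

end MPbb13ef

end

section

set_option autoImplicit false

namespace MPbb13ef

namespace B

variable {X : Type} [NormedAddCommGroup X] [NormedSpace ℝ X]

lemma le_one_of (f : X →L[ℝ] ℝ) (hf : ‖f‖ ≤ 1) (x : X) (hx : ‖x‖ ≤ 1) : |f x| ≤ 1 := by
  have h1 : ‖f x‖ ≤ ‖f‖ * ‖x‖ := f.le_opNorm x
  have h2 : ‖f‖ * ‖x‖ ≤ 1 * 1 := mul_le_mul hf hx (norm_nonneg _) zero_le_one
  rw [Real.norm_eq_abs] at h1
  linarith

lemma empty_case (hDET : S_DET) (D : Set (X →L[ℝ] ℝ)) (hsp : ∀ f ∈ D, Sp f)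
    (hneg : ∀ f ∈ D, -f ∈ D) (hU : Und D (∅ : Set (X →L[ℝ] ℝ)) = ∅) (e : X →L[ℝ] ℝ)
    (he : e ∈ D) : False := by
  have key : ∀ e' : X →L[ℝ] ℝ, Sp e' → ¬ Cons (insert (-e') (∅ : Set (X →L[ℝ] ℝ))) → False := by
    intro e' h1 h2
    obtain ⟨T, C, hT, hC, h⟩ := hDET X ∅ e' (by intro t ht; exact absurd ht (Set.notMem_empty _)) h1 h2
    have hT0 : T = ∅ := by
      rw [← Finset.coe_eq_empty]
      exact Set.subset_empty_iff.mp hT
    have h3 := h 0 (by simp)
    rw [hT0] at h3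
    simp at h3
    linarith
  have h4 : e ∉ Und D (∅ : Set (X →L[ℝ] ℝ)) := by
    rw [hU]; exact Set.notMem_empty _
  by_cases h5 : Cons (insert e (∅ : Set (X →L[ℝ] ℝ)))
  · have h6 : ¬ Cons (insert (-e) (∅ : Set (X →L[ℝ] ℝ))) := by
      intro h7
      exact h4 ⟨he, h5, h7⟩
    exact key e (hsp e he) h6
  · refine key (-e) (hsp _ (hneg e he)) ?_
    rwa [neg_neg]

lemma det_bound (hDET : S_DET) (P : Set (X →L[ℝ] ℝ)) (hP1 : ∀ t ∈ P, ‖t‖ ≤ 1)
    (e : ℕ → (X →L[ℝ] ℝ)) (hPe : P = Set.range e) (y : ℕ → X) (hy1 : ∀ k, ‖y k‖ ≤ 1)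
    (hy : ∀ k, ∀ i < k, 1 - (1 / 2 : ℝ) ^ k < e i (y k)) (e' : X →L[ℝ] ℝ) (h1 : Sp e')
    (h2 : ¬ Cons (insert (-e') P)) :
    ∃ (K : ℝ) (k0 : ℕ), 0 ≤ K ∧ ∀ k, k0 ≤ k → 1 - e' (y k) ≤ K * (1 / 2 : ℝ) ^ k := by
  obtain ⟨T, C, hT, hC, h⟩ := hDET X P e' hP1 h1 h2
  have h3 : ∀ t : X →L[ℝ] ℝ, ∃ i : ℕ, t ∈ T → e i = t := by
    intro t
    by_cases ht : t ∈ T
    · have : t ∈ P := hT (by simpa using ht)
      rw [hPe] at this
      obtain ⟨i, hi⟩ := this
      exact ⟨i, fun _ => hi⟩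
    · exact ⟨0, fun h => absurd h ht⟩
  choose g hg using h3
  refine ⟨C * T.card, T.sup g + 1, by positivity, ?_⟩
  intro k hk
  have h4 : ∀ t ∈ T, 1 - t (y k) ≤ (1 / 2 : ℝ) ^ k := by
    intro t ht
    have h5 : g t < k := by
      have : g t ≤ T.sup g := Finset.le_sup ht
      omega
    have h6 := hy k (g t) h5
    rw [hg t ht] at h6
    linarith
  have h7 : ∑ t ∈ T, (1 - t (y k)) ≤ T.card * (1 / 2 : ℝ) ^ k := by
    have := Finset.sum_le_card_nsmul T (fun t => 1 - t (y k)) ((1 / 2 : ℝ) ^ k) h4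
    simpa [nsmul_eq_mul] using this
  have h8 := h (y k) (hy1 k)
  calc 1 - e' (y k) ≤ C * ∑ t ∈ T, (1 - t (y k)) := h8
    _ ≤ C * (T.card * (1 / 2 : ℝ) ^ k) := mul_le_mul_of_nonneg_left h7 hC.le
    _ = C * T.card * (1 / 2 : ℝ) ^ k := by ring

end B

theorem prf_B (hF : S_F) (hDET : S_DET) (hSUB : S_SUB) (hCAU : S_CAU) (hINT : S_INT) : S_B := by
  classical
  intro X _ _ _ D Q hS hC0 P hExt hU
  obtain ⟨-, hPD, hPc, hcons⟩ := hExt
  rcases Set.eq_empty_or_nonempty P with hP | hP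
  · subst hP
    refine ⟨0, ⟨by simp, ?_⟩, ?_⟩
    · intro e he
      exact (B.empty_case hDET D hS.sp hS.neg hU e he).elim
    · intro e he
      exact absurd he (Set.notMem_empty _)
  obtain ⟨e, hPe⟩ := hPc.exists_eq_range hP
  have hP1 : ∀ t ∈ P, ‖t‖ ≤ 1 := fun t ht => (hS.sp t (hPD ht)).1
  -- the sequence
  have hex : ∀ k : ℕ, ∃ x : X, ‖x‖ ≤ 1 ∧ ∀ i < k, 1 - (1 / 2 : ℝ) ^ k < e i x := by
    intro k
    obtain ⟨x, hx1, hx2⟩ := hcons ((Finset.range k).image e) (by
      intro t ht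
      rw [hPe]
      simp only [Finset.coe_image, Set.mem_image] at ht
      obtain ⟨i, -, hi⟩ := ht
      exact ⟨i, hi⟩) ((1 / 2 : ℝ) ^ k) (by positivity)
    refine ⟨x, hx1, fun i hi => hx2 (e i) ?_⟩
    exact Finset.mem_image_of_mem e (Finset.mem_range.mpr hi)
  choose y hy1 hy using hex
  -- elements of D
  have hD : ∀ f ∈ D, ∃ (σ K : ℝ) (k0 : ℕ), (σ = 1 ∨ σ = -1) ∧ 0 ≤ K ∧
      ∀ k, k0 ≤ k → |σ - f (y k)| ≤ K * (1 / 2 : ℝ) ^ k := by
    intro f hf
    have h4 : f ∉ Und D P := by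
      rw [hU]; exact Set.notMem_empty _
    by_cases h5 : Cons (insert f P)
    · have h6 : ¬ Cons (insert (-f) P) := fun h7 => h4 ⟨hf, h5, h7⟩
      obtain ⟨K, k0, hK, h⟩ := B.det_bound hDET P hP1 e hPe y hy1 hy f (hS.sp f hf) h6
      refine ⟨1, K, k0, Or.inl rfl, hK, fun k hk => ?_⟩
      have h8 := B.le_one_of f (hS.sp f hf).1 (y k) (hy1 k)
      rw [abs_le] at h8
      rw [abs_of_nonneg (by linarith [h8.2])]
      exact h k hk
    · obtain ⟨K, k0, hK, h⟩ := B.det_bound hDET P hP1 e hPe y hy1 hy (-f)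
        (hS.sp _ (hS.neg f hf)) (by rwa [neg_neg])
      refine ⟨-1, K, k0, Or.inr rfl, hK, fun k hk => ?_⟩
      have h8 := B.le_one_of f (hS.sp f hf).1 (y k) (hy1 k)
      rw [abs_le] at h8
      have h9 := h k hk
      rw [ContinuousLinearMap.neg_apply] at h9
      rw [abs_of_nonpos (by linarith [h8.1])]
      linarith
  -- the sequence for Q
  obtain ⟨q, hq⟩ : ∃ q : ℕ → (X →L[ℝ] ℝ), ∀ b ∈ Q, ∃ j, q j = b := by
    rcases Set.eq_empty_or_nonempty Q with hQ | hQ
    · exact ⟨fun _ => 0, fun b hb => by rw [hQ] at hb; exact absurd hb (Set.notMem_empty _)⟩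
    · obtain ⟨q, hq⟩ := hS.count.exists_eq_range hQ
      refine ⟨q, fun b hb => ?_⟩
      rw [hq] at hb
      exact hb
  obtain ⟨φ, hφ, hsum⟩ := hSUB X q y hy1
  have hφk : ∀ k, k ≤ φ k := fun k => hφ.id_le k
  have hpow : ∀ k, (1 / 2 : ℝ) ^ (φ k) ≤ (1 / 2 : ℝ) ^ k := fun k =>
    pow_le_pow_of_le_one (by norm_num) (by norm_num) (hφk k)
  have hsumD : ∀ b ∈ D ∪ Q, Summable fun k => |b (y (φ (k + 1)) - y (φ k))| := by
    intro b hb
    rcases hb with hb | hb
    · obtain ⟨σ, K, k0, -, hK, h⟩ := hD b hb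
      rw [← summable_nat_add_iff k0]
      have hg : Summable fun k : ℕ => 2 * K * (1 / 2 : ℝ) ^ k :=
        (summable_geometric_of_lt_one (by norm_num) (by norm_num)).mul_left _
      refine Summable.of_nonneg_of_le (fun k => abs_nonneg _) (fun k => ?_) hg
      have h1 := h (φ (k + k0 + 1)) (by have := hφk (k + k0 + 1); omega)
      have h2 := h (φ (k + k0)) (by have := hφk (k + k0); omega)
      have h3 : (1 / 2 : ℝ) ^ (φ (k + k0 + 1)) ≤ (1 / 2 : ℝ) ^ k :=
        pow_le_pow_of_le_one (by norm_num) (by norm_num)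
          (by have := hφk (k + k0 + 1); omega)
      have h4 : (1 / 2 : ℝ) ^ (φ (k + k0)) ≤ (1 / 2 : ℝ) ^ k :=
        pow_le_pow_of_le_one (by norm_num) (by norm_num)
          (by have := hφk (k + k0); omega)
      have h5 : K * (1 / 2 : ℝ) ^ (φ (k + k0 + 1)) ≤ K * (1 / 2 : ℝ) ^ k :=
        mul_le_mul_of_nonneg_left h3 hK
      have h6 : K * (1 / 2 : ℝ) ^ (φ (k + k0)) ≤ K * (1 / 2 : ℝ) ^ k :=
        mul_le_mul_of_nonneg_left h4 hK
      rw [map_sub]
      rw [abs_le] at h1 h2 ⊢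
      constructor <;> linarith [h1.1, h1.2, h2.1, h2.2]
    · obtain ⟨j, hj⟩ := hq b hb
      have := hsum j
      rw [hj] at this
      exact this
  have hcauchy : CauchySeq (fun k => y (φ k)) := by
    by_contra hn
    obtain ⟨δ, a, b, hδ, hab, hba, hz⟩ := hCAU X (fun k => y (φ k)) hn
    refine hC0 (hF X (D ∪ Q) (fun n => y (φ (b n)) - y (φ (a n))) δ hS.bdry hδ hz ?_)
    intro f hf
    have h1 := hINT (fun k => f (y (φ k))) a b (by
      have h2 := hsumD f hf
      refine h2.congr (fun k => ?_)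
      rw [map_sub]) hab hba
    refine h1.congr (fun n => ?_)
    rw [map_sub]
  obtain ⟨y0, hy0⟩ := cauchySeq_tendsto_of_complete hcauchy
  have hgeo : Filter.Tendsto (fun k : ℕ => (1 / 2 : ℝ) ^ k) Filter.atTop (nhds 0) :=
    tendsto_pow_atTop_nhds_zero_of_lt_one (by norm_num) (by norm_num)
  have hlim : ∀ (f : X →L[ℝ] ℝ) (σ K : ℝ) (k0 : ℕ), 0 ≤ K →
      (∀ k, k0 ≤ k → |σ - f (y k)| ≤ K * (1 / 2 : ℝ) ^ k) → f y0 = σ := by
    intro f σ K k0 hK h
    have h1 : Filter.Tendsto (fun k => f (y (φ k))) Filter.atTop (nhds (f y0)) :=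
      (f.continuous.tendsto y0).comp hy0
    have h2 : Filter.Tendsto (fun k => f (y (φ k))) Filter.atTop (nhds σ) := by
      rw [tendsto_iff_norm_sub_tendsto_zero]
      refine squeeze_zero' (g := fun k : ℕ => K * (1 / 2 : ℝ) ^ k)
        (Filter.Eventually.of_forall fun k => norm_nonneg _) ?_ ?_
      · filter_upwards [Filter.eventually_ge_atTop k0] with k hk
        have h3 := h (φ k) (hk.trans (hφk k))
        rw [Real.norm_eq_abs, abs_sub_comm]
        exact h3.trans (mul_le_mul_of_nonneg_left (hpow k) hK)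
      · simpa using hgeo.const_mul K
    exact tendsto_nhds_unique h1 h2
  refine ⟨y0, ⟨?_, ?_⟩, ?_⟩
  · exact le_of_tendsto (hy0.norm) (Filter.Eventually.of_forall fun k => hy1 (φ k))
  · intro f hf
    obtain ⟨σ, K, k0, hσ, hK, h⟩ := hD f hf
    rw [hlim f σ K k0 hK h]
    rcases hσ with hσ | hσ <;> rw [hσ] <;> norm_num
  · intro f hf
    have hf' := hf
    rw [hPe] at hf'
    obtain ⟨i, hi⟩ := hf'
    refine hlim f 1 1 (i + 1) zero_le_one (fun k hk => ?_)
    have h1 := hy k i (by omega)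
    rw [hi] at h1
    have h2 := B.le_one_of f (hP1 f hf) (y k) (hy1 k)
    rw [abs_le] at h2
    rw [abs_of_nonneg (by linarith [h2.2])]
    linarith

end MPbb13ef

end

section

/-! BLK: tails of bounded series are small -/

set_option autoImplicit false

namespace MPbb13ef

namespace BLK

theorem sg_beq (a b : Bool) : sg (a == b) = sg a * sg b := by
  cases a <;> cases b <;> simp [sg]

end BLK

open BLK in
theorem prf_BLK (hBP : S_BP) : S_BLK := by
  classical
  intro X _ _ _ w C hw hno ε hε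
  by_contra hcon
  push Not at hcon
  choose J hJ s hs using hcon
  -- the starting points of the blocks
  let N : ℕ → ℕ := fun k => Nat.rec 0 (fun _ m => m + (J m).sup id + 1) k
  have hN1 : ∀ k, N (k + 1) = N k + (J (N k)).sup id + 1 := fun k => rfl
  have hmono : Monotone N := monotone_nat_of_le_succ fun k => by rw [hN1]; omega
  have hlt : ∀ k, ∀ i ∈ J (N k), i < N (k + 1) := by
    intro k i hi
    have : i ≤ (J (N k)).sup id := Finset.le_sup (f := id) hi
    rw [hN1]; omega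
  have huniq : ∀ k l i, i ∈ J (N k) → i ∈ J (N l) → k = l := by
    intro k l i hk hl
    rcases lt_trichotomy k l with h | h | h
    · have h1 := hlt k i hk
      have h2 : N (k + 1) ≤ N l := hmono h
      have h3 := hJ (N l) i hl
      omega
    · exact h
    · have h1 := hlt l i hl
      have h2 : N (l + 1) ≤ N k := hmono h
      have h3 := hJ (N k) i hk
      omega
  refine hno (hBP X (fun k => ∑ i ∈ J (N k), sg (s (N k) i) • w i) ε C hε (fun k => (hs (N k)).le) ?_)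
  intro K σ
  let τ : ℕ → Bool := fun i => if h : ∃ k, i ∈ J (N k) then (σ h.choose == s (N h.choose) i) else true
  have hτ : ∀ k, ∀ i ∈ J (N k), τ i = (σ k == s (N k) i) := by
    intro k i hi
    have h : ∃ k, i ∈ J (N k) := ⟨k, hi⟩
    have hc : h.choose = k := huniq _ _ i h.choose_spec hi
    simp only [τ, dif_pos h, hc]
  have hdisj : (K : Set ℕ).PairwiseDisjoint fun k => J (N k) := by
    intro k _ l _ hkl
    rw [Function.onFun, Finset.disjoint_left]
    intro i hi hi'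
    exact hkl (huniq _ _ i hi hi')
  have : ∑ k ∈ K, sg (σ k) • ∑ i ∈ J (N k), sg (s (N k) i) • w i
      = ∑ i ∈ K.biUnion (fun k => J (N k)), sg (τ i) • w i := by
    rw [Finset.sum_biUnion hdisj]
    refine Finset.sum_congr rfl fun k _ => ?_
    rw [Finset.smul_sum]
    refine Finset.sum_congr rfl fun i hi => ?_
    rw [hτ k i hi, sg_beq, mul_smul]
  rw [this]
  exact hw _ _

end MPbb13ef

end

section

/-!
# From signs to coefficients
-/

set_option autoImplicit false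

namespace MPbb13ef

namespace BPA

theorem sg_mul (a : ℝ) : sg (decide (0 ≤ a)) * a = |a| := by
  unfold sg
  by_cases h : 0 ≤ a
  · rw [decide_eq_true h, if_pos rfl, one_mul, abs_of_nonneg h]
  · rw [decide_eq_false h, if_neg Bool.false_ne_true, abs_of_neg (not_le.1 h)]
    ring

end BPA

theorem prf_BPA : S_BPA := by
  intro X _ _ w C hC J θ B hB hθ
  obtain ⟨f, hf1, hf2⟩ := exists_dual_vector'' ℝ (∑ i ∈ J, θ i • w i)
  have h0 : f (∑ i ∈ J, θ i • w i) = ∑ i ∈ J, θ i * f (w i) := by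
    rw [map_sum]
    exact Finset.sum_congr rfl fun i _ => by rw [map_smul, smul_eq_mul]
  have h1 : f (∑ i ∈ J, sg (decide (0 ≤ f (w i))) • w i) = ∑ i ∈ J, |f (w i)| := by
    rw [map_sum]
    exact Finset.sum_congr rfl fun i _ => by rw [map_smul, smul_eq_mul, BPA.sg_mul]
  have h2 : ‖∑ i ∈ J, sg (decide (0 ≤ f (w i))) • w i‖ ≤ C :=
    hC J fun i => decide (0 ≤ f (w i))
  have h3 : ∑ i ∈ J, |f (w i)| ≤ C := by
    rw [← h1]
    refine le_trans (le_abs_self _) ?_
    rw [← Real.norm_eq_abs]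
    refine le_trans (f.le_opNorm _) ?_
    refine le_trans (mul_le_mul_of_nonneg_right hf1 (norm_nonneg _)) ?_
    rw [one_mul]
    exact h2
  have h4 : ∑ i ∈ J, θ i * f (w i) ≤ ∑ i ∈ J, B * |f (w i)| := by
    refine Finset.sum_le_sum fun i hi => ?_
    refine le_trans (le_abs_self _) ?_
    rw [abs_mul]
    exact mul_le_mul_of_nonneg_right (hθ i hi) (abs_nonneg _)
  have h5 : ‖∑ i ∈ J, θ i • w i‖ = ∑ i ∈ J, θ i * f (w i) := by
    rw [← h0]
    exact hf2.symm
  rw [h5]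
  refine le_trans h4 ?_
  rw [← Finset.mul_sum, mul_comm C B]
  exact mul_le_mul_of_nonneg_left h3 hB

end MPbb13ef

end

section

/-!
# Item BPB: Rosenthal type selection of a subsequence
-/

set_option autoImplicit false

open Filter Topology

namespace MPbb13ef

namespace BPB

theorem tail (g : ℕ → ℝ) (hg : ∀ m, 0 ≤ g m) (C : ℝ) (hC : ∀ J : Finset ℕ, ∑ m ∈ J, g m ≤ C)
    (δ : ℝ) (hδ : 0 < δ) : ∃ m0 : ℕ, ∀ J : Finset ℕ, (∀ m ∈ J, m0 ≤ m) → ∑ m ∈ J, g m ≤ δ := by
  have hs : Summable g := summable_of_sum_le hg hC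
  obtain ⟨s, hs'⟩ := summable_iff_vanishing_norm.1 hs δ hδ
  refine ⟨s.sup id + 1, fun J hJ => ?_⟩
  have hd : Disjoint J s := by
    rw [Finset.disjoint_left]
    intro m hm hm'
    have h1 := hJ m hm
    have h2 : m ≤ s.sup id := Finset.le_sup (f := id) hm'
    omega
  exact (le_abs_self _).trans (hs' J hd).le

theorem geo (K : Finset ℕ) : ∑ x ∈ K, (1 / 2 : ℝ) ^ (x + 1) ≤ 1 := by
  have h1 : HasSum (fun n : ℕ => (1 / 2 : ℝ) ^ n) 2 := by
    simpa using hasSum_geometric_two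
  have h2 : HasSum (fun n : ℕ => (1 / 2 : ℝ) ^ (n + 1)) 1 := by
    have h3 := h1.mul_right (1 / 2 : ℝ)
    simpa [pow_succ] using h3
  exact sum_le_hasSum K (fun _ _ => by positivity) h2

theorem rosenthal (a : ℕ → ℕ → ℝ) (ha : ∀ n m, 0 ≤ a n m) (C : ℝ)
    (hC : ∀ n, ∀ J : Finset ℕ, ∑ m ∈ J, a n m ≤ C) (δ : ℝ) (hδ : 0 < δ) :
    ∃ φ : ℕ → ℕ, StrictMono φ ∧ ∀ n, ∀ J : Finset ℕ, n ∉ J →
      ∑ m ∈ J, a (φ n) (φ m) ≤ 3 * δ := by
  classical
  let U : Ultrafilter ℕ := hyperfilter ℕ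
  have hlim : ∀ m, ∃ g : ℝ, 0 ≤ g ∧ Tendsto (fun n => a n m) U (𝓝 g) := by
    intro m
    obtain ⟨g, hg, hg'⟩ := (isCompact_Icc (a := (0 : ℝ)) (b := C)).ultrafilter_le_nhds
      (U.map fun n => a n m) (by
        rw [le_principal_iff]
        show ∀ᶠ n in (U : Filter ℕ), a n m ∈ Set.Icc (0 : ℝ) C
        refine Eventually.of_forall fun n => ⟨ha n m, ?_⟩
        have := hC n {m}
        rwa [Finset.sum_singleton] at this)
    exact ⟨g, hg.1, hg'⟩
  choose G hG0 hG using hlim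
  have hGC : ∀ J : Finset ℕ, ∑ m ∈ J, G m ≤ C := by
    intro J
    exact le_of_tendsto (tendsto_finsetSum J fun m _ => hG m)
      (Eventually.of_forall fun n => hC n J)
  obtain ⟨m0, hm0⟩ := tail G hG0 C hGC δ hδ
  have hU : (U : Filter ℕ) ≤ cofinite := hyperfilter_le_cofinite
  have hUat : ∀ N : ℕ, ∀ᶠ y in (U : Filter ℕ), N ≤ y := by
    intro N
    apply hU
    rw [Nat.cofinite_eq_atTop]
    exact eventually_ge_atTop N
  obtain ⟨φ, hP, hr⟩ := exists_seq_of_forall_finset_exists (fun x : ℕ => m0 ≤ x)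
    (fun x y : ℕ => x < y ∧ a y x ≤ G x + δ * (1 / 2) ^ (x + 1) ∧
      ∀ J : Finset ℕ, (∀ m ∈ J, y ≤ m) → ∑ m ∈ J, a x m ≤ δ) (by
    intro s _
    have h1 : ∀ x ∈ s, ∀ᶠ y in (U : Filter ℕ), x < y ∧ a y x ≤ G x + δ * (1 / 2) ^ (x + 1) ∧
        ∀ J : Finset ℕ, (∀ m ∈ J, y ≤ m) → ∑ m ∈ J, a x m ≤ δ := by
      intro x _
      have h2 : ∀ᶠ y in (U : Filter ℕ), a y x < G x + δ * (1 / 2) ^ (x + 1) :=
        (hG x).eventually_lt_const (by
          have : 0 < δ * (1 / 2 : ℝ) ^ (x + 1) := by positivity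
          linarith)
      obtain ⟨m1, hm1⟩ := tail (a x) (ha x) C (hC x) δ hδ
      filter_upwards [hUat (x + 1), h2, hUat m1] with y hy1 hy2 hy3
      exact ⟨hy1, hy2.le, fun J hJ => hm1 J fun m hm => hy3.trans (hJ m hm)⟩
    have h3 := (Filter.eventually_all_finset s).2 h1
    obtain ⟨y, hy1, hy2⟩ := (h3.and (hUat m0)).exists
    exact ⟨y, hy2, hy1⟩)
  have hmono : StrictMono φ := fun m n hmn => (hr m n hmn).1
  refine ⟨φ, hmono, fun n J hnJ => ?_⟩
  rw [← Finset.sum_filter_add_sum_filter_not J (fun m => m < n)]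
  have hlt : ∑ m ∈ J.filter (fun m => m < n), a (φ n) (φ m) ≤ 2 * δ := by
    calc ∑ m ∈ J.filter (fun m => m < n), a (φ n) (φ m)
        ≤ ∑ m ∈ J.filter (fun m => m < n), (G (φ m) + δ * (1 / 2) ^ (φ m + 1)) := by
          refine Finset.sum_le_sum fun m hm => ?_
          exact (hr m n (Finset.mem_filter.1 hm).2).2.1
      _ = ∑ x ∈ (J.filter (fun m => m < n)).image φ, (G x + δ * (1 / 2) ^ (x + 1)) := by
          rw [Finset.sum_image fun x _ y _ h => hmono.injective h]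
      _ = ∑ x ∈ (J.filter (fun m => m < n)).image φ, G x +
          δ * ∑ x ∈ (J.filter (fun m => m < n)).image φ, (1 / 2 : ℝ) ^ (x + 1) := by
          rw [Finset.sum_add_distrib, Finset.mul_sum]
      _ ≤ δ + δ * 1 := by
          refine add_le_add (hm0 _ ?_) (mul_le_mul_of_nonneg_left (geo _) hδ.le)
          intro x hx
          obtain ⟨m, _, rfl⟩ := Finset.mem_image.1 hx
          exact hP m
      _ = 2 * δ := by ring
  have hgt : ∑ m ∈ J.filter (fun m => ¬ m < n), a (φ n) (φ m) ≤ δ := by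
    have h1 : ∑ m ∈ J.filter (fun m => ¬ m < n), a (φ n) (φ m) =
        ∑ x ∈ (J.filter (fun m => ¬ m < n)).image φ, a (φ n) x := by
      rw [Finset.sum_image fun x _ y _ h => hmono.injective h]
    rw [h1]
    refine (hr n (n + 1) (Nat.lt_succ_self n)).2.2 _ ?_
    intro x hx
    obtain ⟨m, hm, rfl⟩ := Finset.mem_image.1 hx
    rw [Finset.mem_filter] at hm
    apply hmono.monotone
    rcases Nat.lt_or_ge n m with h | h
    · exact h
    · exfalso
      have : m = n := by omega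
      exact hnJ (this ▸ hm.1)
  linarith

end BPB

theorem prf_BPB : S_BPB := by
  intro X _ _ w c C hc hw hSB
  have hg : ∀ n, ∃ g : X →L[ℝ] ℝ, ‖g‖ ≤ 1 ∧ g (w n) = ‖w n‖ := by
    intro n
    obtain ⟨g, hg1, hg2⟩ := exists_dual_vector'' ℝ (w n)
    exact ⟨g, hg1, by simpa using hg2⟩
  choose g hg1 hg2 using hg
  have hrow : ∀ n, ∀ J : Finset ℕ, ∑ m ∈ J, |g n (w m)| ≤ C := by
    intro n J
    have h1 : ∑ m ∈ J, |g n (w m)| = g n (∑ m ∈ J, sg (decide (0 ≤ g n (w m))) • w m) := by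
      rw [map_sum]
      refine Finset.sum_congr rfl fun m _ => ?_
      rw [map_smul, smul_eq_mul]
      by_cases h : 0 ≤ g n (w m)
      · rw [abs_of_nonneg h]; simp [sg, h]
      · rw [abs_of_neg (not_le.1 h)]; simp [sg, h]
    rw [h1]
    refine (le_abs_self _).trans ?_
    have h2 := (g n).le_opNorm (∑ m ∈ J, sg (decide (0 ≤ g n (w m))) • w m)
    rw [Real.norm_eq_abs] at h2
    refine h2.trans ?_
    have h3 := hSB J fun m => decide (0 ≤ g n (w m))
    calc ‖g n‖ * ‖∑ m ∈ J, sg (decide (0 ≤ g n (w m))) • w m‖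
        ≤ 1 * ‖∑ m ∈ J, sg (decide (0 ≤ g n (w m))) • w m‖ :=
          mul_le_mul_of_nonneg_right (hg1 n) (norm_nonneg _)
      _ ≤ C := by rw [one_mul]; exact h3
  obtain ⟨φ, hφ, h⟩ := BPB.rosenthal (fun n m => |g n (w m)|) (fun _ _ => abs_nonneg _) C hrow
    (c / 6) (by linarith)
  refine ⟨φ, fun n => g (φ n), hφ, fun n => ⟨hg1 _, ?_, fun J hJ => ?_⟩⟩
  · rw [hg2]; exact hw _
  · have := h n J hJ
    linarith

end MPbb13ef

end

section

namespace MPbb13ef

theorem prf_CAU : S_CAU := by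
  intro X _ y hy
  rw [Metric.cauchySeq_iff] at hy
  push Not at hy
  obtain ⟨δ, hδ, h⟩ := hy
  have h2 : ∀ N, ∃ p : ℕ × ℕ, N ≤ p.1 ∧ p.1 < p.2 ∧ δ ≤ ‖y p.2 - y p.1‖ := by
    intro N
    obtain ⟨m, hm, n, hn, hd⟩ := h N
    rcases lt_trichotomy m n with hlt | heq | hgt
    · refine ⟨(m, n), hm, hlt, ?_⟩
      rw [dist_comm, dist_eq_norm] at hd
      exact hd
    · subst heq
      rw [dist_self] at hd
      exact absurd hd (not_le.mpr hδ)
    · refine ⟨(n, m), hn, hgt, ?_⟩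
      rw [dist_eq_norm] at hd
      exact hd
  choose p hp using h2
  let F : ℕ → ℕ × ℕ := fun n => Nat.rec (p 0) (fun _ q => p q.2) n
  have hF : ∀ n, (F n).1 < (F n).2 ∧ δ ≤ ‖y (F n).2 - y (F n).1‖ := by
    intro n
    cases n with
    | zero => exact (hp 0).2
    | succ n => exact (hp (F n).2).2
  have hS : ∀ n, (F n).2 ≤ (F (n + 1)).1 := fun n => (hp (F n).2).1
  exact ⟨δ, fun n => (F n).1, fun n => (F n).2, hδ, fun n => (hF n).1, hS, fun n => (hF n).2⟩

end MPbb13ef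

end

section

/-!
# CPT: the sign sums are contained in a compact set
-/

set_option autoImplicit false

open scoped ZeroAtInfty

namespace MPbb13ef

namespace CPT

theorem totallyBounded_sums (hBLK : S_BLK) (X : Type) [NormedAddCommGroup X] [NormedSpace ℝ X]
    [CompleteSpace X] (w : ℕ → X) (C : ℝ) (hw : SB w C) (hc : ¬ HasC0 X) :
    TotallyBounded {x : X | ∃ (J : Finset ℕ) (s : ℕ → Bool), x = ∑ i ∈ J, sg (s i) • w i} := by
  classical
  rw [Metric.totallyBounded_iff]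
  intro ε hε
  obtain ⟨N, hN⟩ := hBLK X w C hw hc (ε / 2) (by linarith)
  let g : Finset ℕ × Finset ℕ → X := fun p => ∑ i ∈ p.1, sg (decide (i ∈ p.2)) • w i
  refine ⟨g '' (((Finset.range N).powerset ×ˢ (Finset.range N).powerset : Finset _) : Set _),
    (Finset.finite_toSet _).image g, ?_⟩
  rintro x ⟨J, s, rfl⟩
  rw [Set.mem_iUnion₂]
  refine ⟨g (J.filter (fun i => i < N), (Finset.range N).filter (fun i => s i = true)), ?_, ?_⟩
  · refine ⟨_, ?_, rfl⟩
    rw [Finset.mem_coe, Finset.mem_product, Finset.mem_powerset, Finset.mem_powerset]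
    refine ⟨?_, Finset.filter_subset _ _⟩
    intro i hi
    exact Finset.mem_range.2 (Finset.mem_filter.1 hi).2
  · rw [Metric.mem_ball, dist_eq_norm]
    have h1 : g (J.filter (fun i => i < N), (Finset.range N).filter (fun i => s i = true)) =
        ∑ i ∈ J.filter (fun i => i < N), sg (s i) • w i := by
      show ∑ i ∈ J.filter (fun i => i < N),
        sg (decide (i ∈ (Finset.range N).filter (fun i => s i = true))) • w i = _
      refine Finset.sum_congr rfl fun i hi => ?_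
      have hiN : i < N := (Finset.mem_filter.1 hi).2
      congr 2
      by_cases hs : s i = true
      · rw [hs]
        apply decide_eq_true
        exact Finset.mem_filter.2 ⟨Finset.mem_range.2 hiN, hs⟩
      · rw [Bool.not_eq_true] at hs
        rw [hs]
        apply decide_eq_false
        intro h2
        have h3 := (Finset.mem_filter.1 h2).2
        rw [hs] at h3
        exact absurd h3 (by decide)
    have h2 : ∑ i ∈ J, sg (s i) • w i = ∑ i ∈ J.filter (fun i => i < N), sg (s i) • w i +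
        ∑ i ∈ J.filter (fun i => ¬ i < N), sg (s i) • w i :=
      (Finset.sum_filter_add_sum_filter_not J (fun i => i < N) _).symm
    rw [h1, h2, add_sub_cancel_left]
    have h3 := hN (J.filter (fun i => ¬ i < N))
      (fun i hi => not_lt.1 (Finset.mem_filter.1 hi).2) s
    linarith

end CPT

theorem prf_CPT (hBLK : S_BLK) : S_CPT := by
  intro X _ _ _ w C hw hc
  have h := CPT.totallyBounded_sums hBLK X w C hw hc
  refine ⟨_, h.closure.isCompact_of_isClosed isClosed_closure, ?_⟩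
  intro J s
  exact subset_closure ⟨J, s, rfl⟩

end MPbb13ef

end

section

/-!
# Determined spears
-/

set_option autoImplicit false

namespace MPbb13ef

namespace DET

variable {X : Type} [NormedAddCommGroup X] [NormedSpace ℝ X]

lemma le_one (t : X →L[ℝ] ℝ) (ht : ‖t‖ ≤ 1) (x : X) (hx : ‖x‖ ≤ 1) : |t x| ≤ 1 := by
  have h1 : |t x| ≤ ‖t‖ * ‖x‖ := by
    have h := t.le_opNorm x
    rwa [Real.norm_eq_abs] at h
  have h2 : ‖t‖ * ‖x‖ ≤ 1 * 1 := mul_le_mul ht hx (norm_nonneg _) (by norm_num)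
  linarith

lemma near (t : X →L[ℝ] ℝ) (ht : ‖t‖ ≤ 1) (x u : X) (η : ℝ) (h : ‖x - u‖ < η) :
    |t x - t u| ≤ η := by
  have h1 : |t (x - u)| ≤ ‖t‖ * ‖x - u‖ := by
    have h := t.le_opNorm (x - u)
    rwa [Real.norm_eq_abs] at h
  have h2 : ‖t‖ * ‖x - u‖ ≤ 1 * ‖x - u‖ := mul_le_mul_of_nonneg_right ht (norm_nonneg _)
  rw [map_sub] at h1
  linarith

end DET

open DET in
theorem prf_DET : S_DET := by
  classical
  intro X _ _ P e hP hSp hC
  unfold Cons at hC
  push Not at hC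
  obtain ⟨T', hT', ε₀, hε₀, hbad⟩ := hC
  set ε : ℝ := min ε₀ 1 with hεdef
  have hε : 0 < ε := lt_min hε₀ one_pos
  have hεε : ε ≤ ε₀ := min_le_left _ _
  have hsub : ((T'.erase (-e) : Finset (X →L[ℝ] ℝ)) : Set (X →L[ℝ] ℝ)) ⊆ P := by
    intro t ht
    rw [Finset.mem_coe, Finset.mem_erase] at ht
    rcases hT' (Finset.mem_coe.2 ht.2) with h | h
    · exact absurd h ht.1
    · exact h
  refine ⟨T'.erase (-e), 2 / ε, hsub, by positivity, ?_⟩
  intro x hx
  set T := T'.erase (-e) with hTdef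
  set S : ℝ := ∑ t ∈ T, (1 - t x) with hSdef
  set n : ℝ := (T.card : ℝ) with hndef
  have hn0 : 0 ≤ n := Nat.cast_nonneg _
  have key : ∀ η : ℝ, 0 < η → η < ε → 1 - e x ≤ 2 / ε * (S + n * η) + 2 * η := by
    intro η hη hηε
    obtain ⟨y, z, l, hy, hz, hey, hez, hl0, hl1, hxy⟩ := hSp.2 x hx η hη
    have hmz : ‖-z‖ ≤ 1 := by rwa [norm_neg]
    obtain ⟨t0, ht0, ht0z⟩ := hbad (-z) hmz
    have ht0e : t0 ≠ -e := by
      rintro rfl
      have h1 : (-e : X →L[ℝ] ℝ) (-z) = e z := by simp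
      rw [h1] at ht0z
      linarith
    have ht0T : t0 ∈ T := Finset.mem_erase.2 ⟨ht0e, ht0⟩
    have hpt : ∀ t ∈ T, (1 - l) * (1 + t z) - η ≤ 1 - t x := by
      intro t ht
      have htP : t ∈ P := hsub (Finset.mem_coe.2 ht)
      have h1 := near t (hP t htP) x _ η hxy
      have h2 : t (l • y - (1 - l) • z) = l * t y - (1 - l) * t z := by
        simp [map_sub]
      rw [h2] at h1
      have h3 := (abs_le.1 h1).2
      have h4 := (abs_le.1 (le_one t (hP t htP) y hy)).2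
      nlinarith [mul_nonneg hl0 (sub_nonneg.2 h4)]
    have hnn : ∀ t ∈ T, 0 ≤ 1 + t z := by
      intro t ht
      have htP : t ∈ P := hsub (Finset.mem_coe.2 ht)
      have h4 := (abs_le.1 (le_one t (hP t htP) z hz)).1
      linarith
    have hsum : (1 - l) * ∑ t ∈ T, (1 + t z) - n * η ≤ S := by
      have h := Finset.sum_le_sum hpt
      rw [Finset.sum_sub_distrib, ← Finset.mul_sum, Finset.sum_const, nsmul_eq_mul] at h
      exact h
    have hbig : ε ≤ ∑ t ∈ T, (1 + t z) := by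
      have h1 : 1 + t0 z ≤ ∑ t ∈ T, (1 + t z) :=
        Finset.single_le_sum (f := fun t : X →L[ℝ] ℝ => 1 + t z) hnn ht0T
      have h2 : t0 (-z) = -(t0 z) := map_neg _ _
      rw [h2] at ht0z
      linarith
    have hl : (1 - l) * ε ≤ S + n * η := by
      have h1 : (1 - l) * ε ≤ (1 - l) * ∑ t ∈ T, (1 + t z) :=
        mul_le_mul_of_nonneg_left hbig (by linarith)
      linarith
    have hl2 : 1 - l ≤ (S + n * η) / ε := by
      rw [le_div_iff₀ hε]
      exact hl
    have hex : 1 - e x ≤ 2 * (1 - l) + 2 * η := by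
      have h1 := near e hSp.1 x _ η hxy
      have h2 : e (l • y - (1 - l) • z) = l * e y - (1 - l) * e z := by
        simp [map_sub]
      rw [h2] at h1
      have h3 := (abs_le.1 h1).1
      have h4 := (abs_le.1 (le_one e hSp.1 z hz)).2
      nlinarith [mul_nonneg hl0 (sub_nonneg.2 hey.le), mul_nonneg (sub_nonneg.2 hl1) (sub_nonneg.2 h4)]
    have h5 : 2 / ε * (S + n * η) = 2 * ((S + n * η) / ε) := by ring
    rw [h5]
    linarith
  refine le_of_forall_pos_le_add fun δ hδ => ?_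
  have hK : 0 < 2 / ε * n + 2 := by positivity
  set η : ℝ := min (ε / 2) (δ / (2 / ε * n + 2)) with hηdef
  have hη : 0 < η := lt_min (by positivity) (by positivity)
  have hη1 : η < ε := lt_of_le_of_lt (min_le_left _ _) (by linarith)
  have hη2 : η ≤ δ / (2 / ε * n + 2) := min_le_right _ _
  have h1 := key η hη hη1
  have h2 : (2 / ε * n + 2) * η ≤ δ := by
    rw [le_div_iff₀ hK] at hη2
    linarith
  have h3 : 2 / ε * (S + n * η) + 2 * η = 2 / ε * S + (2 / ε * n + 2) * η := by ring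
  linarith

end MPbb13ef

end

section

/-!
# DNS: a dense sequence of the unit ball
-/

set_option autoImplicit false

namespace MPbb13ef

theorem prf_DNS : S_DNS := by
  intro X _ _ _
  have : Nonempty (Metric.closedBall (0 : X) 1) := ⟨⟨0, Metric.mem_closedBall_self zero_le_one⟩⟩
  have : SecondCountableTopology X := UniformSpace.secondCountable_of_separable X
  have : TopologicalSpace.SeparableSpace (Metric.closedBall (0 : X) 1) := inferInstance
  obtain ⟨u, hu⟩ := TopologicalSpace.exists_dense_seq (Metric.closedBall (0 : X) 1)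
  refine ⟨fun n => (u n : X), fun n => mem_closedBall_zero_iff.mp (u n).2, ?_⟩
  intro x hx ε hε
  obtain ⟨n, hn⟩ := hu.exists_dist_lt (⟨x, by simpa using hx⟩ : Metric.closedBall (0 : X) 1) hε
  exact ⟨n, by simpa [Subtype.dist_eq, dist_eq_norm] using hn⟩

end MPbb13ef

end

section

set_option autoImplicit false

namespace MPbb13ef

namespace E

/-- the vertices which are one on `P` -/
def V {X : Type} [NormedAddCommGroup X] [NormedSpace ℝ X] (D P : Set (X →L[ℝ] ℝ)) : Set X :=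
  {y | y ∈ Vtx D ∧ ∀ e ∈ P, e y = 1}

theorem claim (hF : S_F) (hSUB : S_SUB) (X : Type) [NormedAddCommGroup X] [NormedSpace ℝ X]
    [CompleteSpace X] (D Q : Set (X →L[ℝ] ℝ)) (hS : Setting D Q) (hC : ¬ HasC0 X)
    (hsep : ∀ y ∈ Vtx D, ∀ y' ∈ Vtx D, y ≠ y' → 2 ≤ ‖y - y'‖)
    (P : Set (X →L[ℝ] ℝ)) (hinf : (V D P).Infinite) (u : X) (hu : u ∈ Vtx D) :
    ∃ e ∈ D, e u = 1 ∧ (V D (insert (-e) P)).Infinite := by
  by_contra hcon
  push Not at hcon
  have hfin : ∀ e ∈ D, e u = 1 → (V D (insert (-e) P)).Finite := hcon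
  obtain ⟨y, hy⟩ : ∃ y : ℕ ↪ V D P, True := ⟨hinf.natEmbedding _, trivial⟩
  have hyV : ∀ k, (y k : X) ∈ Vtx D := fun k => (y k).2.1
  have hyinj : Function.Injective (fun k => (y k : X)) := fun a b h =>
    y.injective (Subtype.ext h)
  have hal : ∀ e ∈ D, {k | e (y k : X) ≠ e u}.Finite := by
    have key : ∀ e ∈ D, e u = 1 → {k | e (y k : X) ≠ 1}.Finite := by
      intro e he h1
      have h2 := (hfin e he h1).preimage (hyinj.injOn (s := (fun k => (y k : X)) ⁻¹' _))
      refine h2.subset ?_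
      intro k hk
      have h3 := (hyV k).2 e he
      have h4 : e (y k : X) = -1 := by
        rcases (abs_eq (zero_le_one' ℝ)).1 h3 with h | h
        · exact absurd h hk
        · exact h
      refine ⟨hyV k, ?_⟩
      intro t ht
      rcases ht with rfl | ht
      · show -(e (y k : X)) = 1
        rw [h4]
        norm_num
      · exact (y k).2.2 t ht
    intro e he
    rcases (abs_eq (zero_le_one' ℝ)).1 (hu.2 e he) with h | h
    · rw [h]
      exact key e he h
    · have h5 : (-e) u = 1 := by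
        show -(e u) = 1
        rw [h]
        norm_num
      refine (key (-e) (hS.neg e he) h5).subset ?_
      intro k hk hk'
      apply hk
      have h6 : -(e (y k : X)) = 1 := hk'
      rw [h]
      linarith
  -- enumeration of `Q`
  obtain ⟨q, hq⟩ : ∃ q : ℕ → (X →L[ℝ] ℝ), insert 0 Q = Set.range q :=
    (hS.count.insert 0).exists_eq_range (Set.insert_nonempty _ _)
  obtain ⟨φ, hφ, hsum⟩ := hSUB X q (fun k => (y k : X)) (fun k => (hyV k).1)
  refine hC (hF X (D ∪ Q) (fun k => (y (φ (k + 1)) : X) - (y (φ k) : X)) 2 hS.bdry two_pos ?_ ?_)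
  · intro n
    refine hsep _ (hyV _) _ (hyV _) ?_
    intro h
    have h1 : φ (n + 1) = φ n := hyinj h
    exact absurd h1 (hφ (Nat.lt_succ_self n)).ne'
  · intro b hb
    rcases hb with hb | hb
    · apply summable_of_hasFiniteSupport
      have h1 := (hal b hb).preimage (hφ.injective.injOn (s := φ ⁻¹' _))
      have hinj2 : Function.Injective (fun k => φ (k + 1)) := fun a c h =>
        Nat.succ_injective (hφ.injective h)
      have h2 := (hal b hb).preimage (hinj2.injOn (s := (fun k => φ (k + 1)) ⁻¹' _))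
      refine (h1.union h2).subset ?_
      intro k hk
      by_contra hcon2
      rw [Set.mem_union, not_or] at hcon2
      obtain ⟨h3, h4⟩ := hcon2
      have h5 : b (y (φ k) : X) = b u := by
        by_contra h
        exact h3 h
      have h6 : b (y (φ (k + 1)) : X) = b u := by
        by_contra h
        exact h4 h
      apply hk
      show |b ((y (φ (k + 1)) : X) - (y (φ k) : X))| = 0
      rw [map_sub, h5, h6, sub_self, abs_zero]
    · obtain ⟨j, rfl⟩ : b ∈ Set.range q := by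
        rw [← hq]
        exact Set.mem_insert_of_mem _ hb
      exact hsum j

end E

theorem prf_E (hF : S_F) (hSUB : S_SUB) : S_E := by
  intro X _ _ _ D Q hS hdet hsep hcount hinf
  by_contra hC
  obtain ⟨u, hu⟩ := hcount.exists_eq_range hinf.nonempty
  have huV : ∀ n, u n ∈ Vtx D := fun n => by
    rw [hu]
    exact Set.mem_range_self n
  obtain ⟨St, hSt⟩ : ∃ St : Set (Set (X →L[ℝ] ℝ)), St =
      {P | P.Countable ∧ P ⊆ D ∧ (E.V D P).Infinite} := ⟨_, rfl⟩
  have step : ∀ (n : ℕ) (P : St), ∃ P' : St, P.1 ⊆ P'.1 ∧ ∃ e ∈ D, e (u n) = 1 ∧ -e ∈ P'.1 := by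
    rintro n ⟨P, hP⟩
    have hP' := hP
    rw [hSt] at hP'
    obtain ⟨h1, h2, h3⟩ := hP'
    obtain ⟨e, he, heu, hi⟩ := E.claim hF hSUB X D Q hS hC hsep P h3 (u n) (huV n)
    refine ⟨⟨insert (-e) P, ?_⟩, Set.subset_insert _ _, e, he, heu, Set.mem_insert _ _⟩
    rw [hSt]
    exact ⟨h1.insert _, Set.insert_subset (hS.neg e he) h2, hi⟩
  choose f hf using step
  have h0 : (∅ : Set (X →L[ℝ] ℝ)) ∈ St := by
    rw [hSt]
    refine ⟨Set.countable_empty, Set.empty_subset _, ?_⟩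
    have : E.V D (∅ : Set (X →L[ℝ] ℝ)) = Vtx D := by
      ext y
      constructor
      · intro h
        exact h.1
      · intro h
        exact ⟨h, fun e he => absurd he (Set.notMem_empty e)⟩
    rw [this]
    exact hinf
  obtain ⟨P, hP0, hPs⟩ : ∃ P : ℕ → St, P 0 = ⟨∅, h0⟩ ∧ ∀ n, P (n + 1) = f n (P n) :=
    ⟨fun n => Nat.rec ⟨∅, h0⟩ (fun n p => f n p) n, rfl, fun n => rfl⟩
  have hmono : Monotone (fun n => (P n).1) := by
    refine monotone_nat_of_le_succ fun n => ?_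
    rw [hPs n]
    exact (hf n (P n)).1
  have hprop : ∀ n, (P n).1.Countable ∧ (P n).1 ⊆ D ∧ (E.V D (P n).1).Infinite := by
    intro n
    have hsub : ∀ R ∈ St, R.Countable ∧ R ⊆ D ∧ (E.V D R).Infinite := by
      intro R hR
      rw [hSt] at hR
      exact hR
    exact hsub _ (P n).2
  have hcons : Cons (⋃ n, (P n).1) := by
    intro T hT ε hε
    obtain ⟨N, hN⟩ : ∃ N, (T : Set (X →L[ℝ] ℝ)) ⊆ (P N).1 := by
      classical
      have h1 : ∀ t ∈ T, ∃ n, t ∈ (P n).1 := fun t ht => Set.mem_iUnion.1 (hT ht)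
      choose! g hg using h1
      refine ⟨T.sup g, fun t ht => ?_⟩
      exact hmono (Finset.le_sup ht) (hg t ht)
    obtain ⟨y, hy⟩ := (hprop N).2.2.nonempty
    refine ⟨y, hy.1.1, fun t ht => ?_⟩
    rw [hy.2 t (hN ht)]
    linarith
  have hext : Ext D (⋃ n, (P n).1) (⋃ n, (P n).1) :=
    ⟨le_rfl, Set.iUnion_subset fun n => (hprop n).2.1,
      Set.countable_iUnion fun n => (hprop n).1, hcons⟩
  obtain ⟨y, hyV, hy⟩ := hdet _ hext
  rw [hu] at hyV
  obtain ⟨n, rfl⟩ := hyV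
  obtain ⟨-, e, he, heu, hmem⟩ := hf n (P n)
  rw [← hPs n] at hmem
  have h7 := hy (-e) (Set.mem_iUnion.2 ⟨n + 1, hmem⟩)
  have h8 : -(e (u n)) = 1 := h7
  rw [heu] at h8
  norm_num at h8

end MPbb13ef

end

section

/-!
# EXT: simultaneous extension by finitely many undetermined functionals
-/

set_option autoImplicit false

namespace MPbb13ef

namespace EXT

variable {X : Type} [NormedAddCommGroup X] [NormedSpace ℝ X]

theorem cons_mono {P P' : Set (X →L[ℝ] ℝ)} (h : P ⊆ P') (hc : Cons P') : Cons P := by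
  intro T hT ε hε
  exact hc T (hT.trans h) ε hε

theorem und_anti {D P P' : Set (X →L[ℝ] ℝ)} (h : P ⊆ P') : Und D P' ⊆ Und D P := by
  intro e he
  exact ⟨he.1, cons_mono (Set.insert_subset_insert h) he.2.1,
    cons_mono (Set.insert_subset_insert h) he.2.2⟩

theorem ext_insert {D P P' : Set (X →L[ℝ] ℝ)} {e : X →L[ℝ] ℝ} (h : Ext D P P') (he : e ∈ D)
    (hc : Cons (insert e P')) : Ext D P (insert e P') := by
  refine ⟨h.1.trans (Set.subset_insert _ _), ?_, h.2.2.1.insert _, hc⟩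
  exact Set.insert_subset he h.2.1

/-- one step of the extension -/
theorem step {D P P' : Set (X →L[ℝ] ℝ)} (hneg : ∀ f ∈ D, -f ∈ D) {W : Set (X →L[ℝ] ℝ)}
    (hW : ∀ P', Ext D P P' → (W ∩ Und D P').Nonempty) (h : Ext D P P') :
    ∃ a b : X →L[ℝ] ℝ, a ∈ W ∩ Und D P ∧ b ∈ W ∩ Und D P ∧
      Ext D P (insert (-b) (insert a P')) := by
  obtain ⟨a, haW, ha⟩ := hW P' h
  have h1 : Ext D P (insert a P') := ext_insert h ha.1 ha.2.1
  obtain ⟨b, hbW, hb⟩ := hW _ h1
  have h2 : Ext D P (insert (-b) (insert a P')) := ext_insert h1 (hneg _ hb.1) hb.2.2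
  exact ⟨a, b, ⟨haW, und_anti h.1 ha⟩, ⟨hbW, und_anti h1.1 hb⟩, h2⟩

theorem main {D P : Set (X →L[ℝ] ℝ)} (hneg : ∀ f ∈ D, -f ∈ D) (h0 : Ext D P P) (J : Type)
    (W : J → Set (X →L[ℝ] ℝ)) (hW : ∀ j P', Ext D P P' → (W j ∩ Und D P').Nonempty)
    (A : Finset J) :
    ∃ a b : J → (X →L[ℝ] ℝ), (∀ j ∈ A, a j ∈ W j ∩ Und D P) ∧ (∀ j ∈ A, b j ∈ W j ∩ Und D P) ∧
      Ext D P (P ∪ (a '' (A : Set J) ∪ (fun j => -b j) '' (A : Set J))) := by
  classical
  induction A using Finset.induction_on with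
  | empty =>
    refine ⟨fun _ => 0, fun _ => 0, by simp, by simp, ?_⟩
    simpa using h0
  | insert j A hj ih =>
    obtain ⟨a, b, ha, hb, hE⟩ := ih
    obtain ⟨a', b', ha', hb', hE'⟩ := step hneg (hW j) hE
    refine ⟨Function.update a j a', Function.update b j b', ?_, ?_, ?_⟩
    · intro i hi
      rcases Finset.mem_insert.1 hi with rfl | hi
      · simpa using ha'
      · have hij : i ≠ j := fun h => hj (h ▸ hi)
        rw [Function.update_of_ne hij]
        exact ha i hi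
    · intro i hi
      rcases Finset.mem_insert.1 hi with rfl | hi
      · simpa using hb'
      · have hij : i ≠ j := fun h => hj (h ▸ hi)
        rw [Function.update_of_ne hij]
        exact hb i hi
    · have e1 : Function.update a j a' '' (A : Set J) = a '' (A : Set J) := by
        refine Set.image_congr ?_
        intro i hi
        have hij : i ≠ j := fun h => hj (h ▸ (Finset.mem_coe.1 hi))
        rw [Function.update_of_ne hij]
      have e2 : (fun i => -Function.update b j b' i) '' (A : Set J)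
          = (fun i => -b i) '' (A : Set J) := by
        refine Set.image_congr ?_
        intro i hi
        have hij : i ≠ j := fun h => hj (h ▸ (Finset.mem_coe.1 hi))
        simp only [Function.update_of_ne hij]
      have e3 : P ∪ (Function.update a j a' '' ((insert j A : Finset J) : Set J) ∪
          (fun i => -Function.update b j b' i) '' ((insert j A : Finset J) : Set J))
          = insert (-b') (insert a' (P ∪ (a '' (A : Set J) ∪ (fun j => -b j) '' (A : Set J)))) := by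
        rw [Finset.coe_insert, Set.image_insert_eq, Set.image_insert_eq, e1, e2]
        simp only [Function.update_self]
        ext x
        simp only [Set.mem_union, Set.mem_insert_iff]
        tauto
      rw [e3]
      exact hE'

end EXT

theorem prf_EXT : S_EXT := by
  intro X _ _ D P hneg h0 J _ W hW
  classical
  haveI : Fintype J := Fintype.ofFinite J
  obtain ⟨a, b, ha, hb, hE⟩ := EXT.main hneg h0 J W hW Finset.univ
  refine ⟨a, b, fun j => ha j (Finset.mem_univ j), fun j => hb j (Finset.mem_univ j), ?_⟩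
  have := hE.2.2.2
  simpa only [Finset.coe_univ, Set.image_univ] using this

end MPbb13ef

end

section

set_option autoImplicit false

namespace MPbb13ef

namespace F1

lemma abs_sg (b : Bool) : |sg b| = 1 := by
  cases b <;> simp [sg]

end F1

theorem prf_F1 (hBP : S_BP) : S_F1 := by
  intro X _ _ _ B z δ hδ hz hB hC0
  have key : ∀ R : ℝ, ∃ (J : Finset ℕ) (s : ℕ → Bool), R < ‖∑ i ∈ J, sg (s i) • z i‖ := by
    intro R
    by_contra hcon
    push Not at hcon
    exact hC0 (hBP X z δ R hδ hz (fun J s => hcon J s))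
  choose J s hJ using fun i : ℕ => key ((2 : ℝ) ^ i)
  set v : ℕ → X := fun i => ∑ k ∈ J i, sg (s i k) • z k with hv
  have hvpos : ∀ i, 0 < ‖v i‖ := fun i => lt_trans (by positivity) (hJ i)
  refine ⟨fun i => (‖v i‖)⁻¹ • v i, fun i => ?_, fun b hb => ⟨∑' n, |b (z n)|, fun i => ?_⟩⟩
  · rw [norm_smul, norm_inv, norm_norm]
    exact inv_mul_cancel₀ (hvpos i).ne'
  · have h1 : |b (v i)| ≤ ∑' n, |b (z n)| := by
      have e1 : b (v i) = ∑ k ∈ J i, sg (s i k) * b (z k) := by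
        simp [hv, map_sum]
      rw [e1]
      calc |∑ k ∈ J i, sg (s i k) * b (z k)| ≤ ∑ k ∈ J i, |sg (s i k) * b (z k)| :=
            Finset.abs_sum_le_sum_abs _ _
        _ = ∑ k ∈ J i, |b (z k)| := by
            refine Finset.sum_congr rfl fun k _ => ?_
            rw [abs_mul, F1.abs_sg, one_mul]
        _ ≤ ∑' n, |b (z n)| := (hB b hb).sum_le_tsum _ (fun n _ => abs_nonneg _)
    have h2 : |b ((‖v i‖)⁻¹ • v i)| = (‖v i‖)⁻¹ * |b (v i)| := by
      rw [map_smul, smul_eq_mul, abs_mul, abs_of_pos (inv_pos.2 (hvpos i))]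
    show |b ((‖v i‖)⁻¹ • v i)| ≤ _
    rw [h2]
    have h3 : (‖v i‖)⁻¹ ≤ (1 / 2 : ℝ) ^ i := by
      have : (1 / 2 : ℝ) ^ i = ((2 : ℝ) ^ i)⁻¹ := by
        rw [one_div, inv_pow]
      rw [this]
      exact inv_anti₀ (by positivity) (hJ i).le
    calc (‖v i‖)⁻¹ * |b (v i)| ≤ (1 / 2 : ℝ) ^ i * ∑' n, |b (z n)| :=
          mul_le_mul h3 h1 (abs_nonneg _) (by positivity)
      _ = (∑' n, |b (z n)|) * (1 / 2 : ℝ) ^ i := mul_comm _ _

end MPbb13ef

end

section

namespace MPbb13ef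

theorem prf_FACE : S_FACE := by
  intro X _ _ f hf
  refine ⟨hf.1, fun ε hε => ?_⟩
  refine hf.2.trans (closure_mono (convexHull_mono ?_))
  rintro x (hx | hx)
  · left
    refine ⟨hx.1, ?_⟩
    have h := hx.2
    rw [h]
    linarith
  · right
    refine ⟨hx.1, ?_⟩
    have h := hx.2
    rw [h]
    linarith

end MPbb13ef

end

section

set_option autoImplicit false

open Filter

namespace MPbb13ef

namespace G1

lemma abs_sg (b : Bool) : |sg b| = 1 := by
  cases b <;> simp [sg]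

variable {X : Type} [NormedAddCommGroup X] [NormedSpace ℝ X]

lemma ev (u : ℕ → X) (N : X → ℝ) (hA : Aux u N) (n : ℕ) (s : X)
    (h : N s ≤ 2 - (1 / 2) ^ n) :
    ∀ᶠ j : ℕ in atTop, ∀ᶠ i : ℕ in atTop, ∀ b : Bool,
      N (s + (sg b * (1 / 2 : ℝ) ^ j) • u i) ≤ 2 - (1 / 2) ^ (n + 1) := by
  by_cases hs : s = 0
  · subst hs
    filter_upwards [eventually_ge_atTop 1] with j hj
    refine Eventually.of_forall fun i b => ?_
    have h1 := hA.upper ((0 : X) + (sg b * (1 / 2 : ℝ) ^ j) • u i)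
    rw [zero_add, norm_smul, hA.unit, mul_one, Real.norm_eq_abs, abs_mul, abs_sg, one_mul,
      abs_of_nonneg (by positivity)] at h1
    rw [zero_add]
    have h2 : (1 / 2 : ℝ) ^ j ≤ (1 / 2 : ℝ) ^ 1 :=
      pow_le_pow_of_le_one (by norm_num) (by norm_num) hj
    have h3 : (1 / 2 : ℝ) ^ (n + 1) ≤ 1 := pow_le_one₀ (by norm_num) (by norm_num)
    norm_num at h2 h3 h1 ⊢
    linarith
  · obtain ⟨δ, M, hδ, hl⟩ := hA.local' s hs
    have hlim : Tendsto (fun j : ℕ => (1 / 2 : ℝ) ^ j) atTop (nhds 0) :=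
      tendsto_pow_atTop_nhds_zero_of_lt_one (by norm_num) (by norm_num)
    filter_upwards [hlim.eventually (gt_mem_nhds hδ)] with j hj
    have hlim2 : Tendsto (fun i : ℕ => (1 / 2 : ℝ) ^ j * M * (1 / 2 : ℝ) ^ i) atTop
        (nhds ((1 / 2 : ℝ) ^ j * M * 0)) := hlim.const_mul _
    rw [mul_zero] at hlim2
    have hpos : (0 : ℝ) < (1 / 2) ^ (n + 1) := by positivity
    filter_upwards [hlim2.eventually (gt_mem_nhds hpos)] with i hi b
    have habs : |sg b * (1 / 2 : ℝ) ^ j| = (1 / 2 : ℝ) ^ j := by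
      rw [abs_mul, abs_sg, one_mul, abs_of_nonneg (by positivity)]
    have h1 := hl s (sg b * (1 / 2 : ℝ) ^ j) i (by simpa using hδ) (by rw [habs]; exact hj)
    rw [habs] at h1
    have h2 : (1 / 2 : ℝ) ^ n = 2 * (1 / 2) ^ (n + 1) := by rw [pow_succ]; ring
    linarith

lemma step (u : ℕ → X) (N : X → ℝ) (hA : Aux u N) (n : ℕ)
    (p : {p : Finset X × ℕ // ∀ s ∈ p.1, N s ≤ 2 - (1 / 2) ^ n}) :
    ∃ q : ℕ × ℕ, p.1.2 ≤ q.2 ∧
      (∀ s ∈ p.1.1, ∀ b : Bool, N (s + (sg b * (1 / 2 : ℝ) ^ q.1) • u q.2) ≤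
        2 - (1 / 2) ^ (n + 1)) ∧
      ∀ j' < q.1, ∀ i', p.1.2 ≤ i' → ∃ s ∈ p.1.1, ∃ b : Bool,
        2 - (1 / 2) ^ (n + 1) < N (s + (sg b * (1 / 2 : ℝ) ^ j') • u i') := by
  classical
  have hex : ∃ j : ℕ, ∃ i, p.1.2 ≤ i ∧ ∀ s ∈ p.1.1, ∀ b : Bool,
      N (s + (sg b * (1 / 2 : ℝ) ^ j) • u i) ≤ 2 - (1 / 2) ^ (n + 1) := by
    have h1 : ∀ᶠ j : ℕ in atTop, ∀ s ∈ p.1.1, ∀ᶠ i : ℕ in atTop, ∀ b : Bool,
        N (s + (sg b * (1 / 2 : ℝ) ^ j) • u i) ≤ 2 - (1 / 2) ^ (n + 1) :=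
      (Filter.eventually_all_finset _).2 fun s hs => ev u N hA n s (p.2 s hs)
    obtain ⟨j, hj⟩ := h1.exists
    have h2 : ∀ᶠ i : ℕ in atTop, ∀ s ∈ p.1.1, ∀ b : Bool,
        N (s + (sg b * (1 / 2 : ℝ) ^ j) • u i) ≤ 2 - (1 / 2) ^ (n + 1) :=
      (Filter.eventually_all_finset _).2 hj
    obtain ⟨i, hi, hi'⟩ := (h2.and (eventually_ge_atTop p.1.2)).exists
    exact ⟨j, i, hi', hi⟩
  obtain ⟨i, hi, hi'⟩ := Nat.find_spec hex
  refine ⟨(Nat.find hex, i), hi, hi', fun j' hj' i' hi'' => ?_⟩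
  have := Nat.find_min hex hj'
  push Not at this
  exact this i' hi''

end G1

open Classical in
theorem prf_G1 : S_G1 := by
  intro X _ _ u N hA
  choose q hq1 hq2 hq3 using G1.step u N hA
  let nx : Finset X → ℕ → ℕ → Finset X := fun S i j =>
    S ∪ (S.image (fun x => x + ((1 / 2 : ℝ) ^ j) • u i) ∪
      S.image (fun x => x - ((1 / 2 : ℝ) ^ j) • u i))
  have hnx : ∀ n (p : {p : Finset X × ℕ // ∀ s ∈ p.1, N s ≤ 2 - (1 / 2) ^ n}),
      ∀ s ∈ nx p.1.1 (q n p).2 (q n p).1, N s ≤ 2 - (1 / 2) ^ (n + 1) := by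
    intro n p s hs
    simp only [nx, Finset.mem_union, Finset.mem_image] at hs
    rcases hs with hs | ⟨a, ha, rfl⟩ | ⟨a, ha, rfl⟩
    · have h1 := p.2 s hs
      have h2 : (1 / 2 : ℝ) ^ (n + 1) ≤ (1 / 2) ^ n :=
        pow_le_pow_of_le_one (by norm_num) (by norm_num) (Nat.le_succ n)
      linarith
    · have := hq2 n p a ha true
      simpa [sg] using this
    · have := hq2 n p a ha false
      simpa [sg, sub_eq_add_neg] using this
  have hinit : ∀ s ∈ (({0} : Finset X), 0).1, N s ≤ 2 - (1 / 2 : ℝ) ^ 0 := by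
    intro s hs
    have : s = 0 := by simpa using hs
    subst this
    have := hA.upper 0
    rw [norm_zero, mul_zero] at this
    norm_num
    linarith
  let st : (n : ℕ) → {p : Finset X × ℕ // ∀ s ∈ p.1, N s ≤ 2 - (1 / 2 : ℝ) ^ n} := fun n =>
    Nat.rec (motive := fun n => {p : Finset X × ℕ // ∀ s ∈ p.1, N s ≤ 2 - (1 / 2 : ℝ) ^ n})
      ⟨(({0} : Finset X), 0), hinit⟩
      (fun n p => ⟨(nx p.1.1 (q n p).2 (q n p).1, (q n p).2 + 1), hnx n p⟩) n
  have hst : ∀ n, (st (n + 1)).1 =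
      (nx (st n).1.1 (q n (st n)).2 (q n (st n)).1, (q n (st n)).2 + 1) := fun n => rfl
  have hm : ∀ n, (st n).1.2 ≤ (q n (st n)).2 := fun n => hq1 n (st n)
  refine ⟨fun n => (st n).1.1, fun n => (q n (st n)).2, fun n => (q n (st n)).1, rfl, ?_, ?_, ?_, ?_⟩
  · refine strictMono_nat_of_lt_succ fun n => ?_
    have h1 := hm (n + 1)
    rw [hst n] at h1
    exact h1
  · intro n
    show (st (n + 1)).1.1 = _
    rw [hst n]
  · intro n s hs
    exact (st n).2 s hs
  · intro n j' hj' i' hi'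
    exact hq3 n (st n) j' hj' i' ((hm n).trans hi')

end MPbb13ef

end

section

set_option autoImplicit false

namespace MPbb13ef

namespace G2

open Filter Topology

theorem abs_sg (b : Bool) : |sg b| = 1 := by
  cases b <;> simp [sg]

section

variable {X : Type} [NormedAddCommGroup X] [NormedSpace ℝ X]

open Classical in
/-- elements of `S n` are sign sums -/
theorem isSum (u : ℕ → X) (S : ℕ → Finset X) (i j : ℕ → ℕ) (hS0 : S 0 = {0})
    (hSs : ∀ n, S (n + 1) = S n ∪ ((S n).image (fun x => x + ((1 / 2 : ℝ) ^ j n) • u (i n)) ∪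
      (S n).image (fun x => x - ((1 / 2 : ℝ) ^ j n) • u (i n)))) :
    ∀ n, ∀ x ∈ S n, ∃ (J : Finset ℕ) (s : ℕ → Bool), (∀ k ∈ J, k < n) ∧
      x = ∑ k ∈ J, sg (s k) • (((1 / 2 : ℝ) ^ j k) • u (i k)) := by
  intro n
  induction n with
  | zero =>
    intro x hx
    rw [hS0, Finset.mem_singleton] at hx
    exact ⟨∅, fun _ => true, by simp, by simp [hx]⟩
  | succ n ih =>
    intro x hx
    rw [hSs, Finset.mem_union, Finset.mem_union, Finset.mem_image, Finset.mem_image] at hx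
    rcases hx with hx | ⟨y, hy, rfl⟩ | ⟨y, hy, rfl⟩
    · obtain ⟨J, s, hJ, rfl⟩ := ih x hx
      exact ⟨J, s, fun k hk => Nat.lt_succ_of_lt (hJ k hk), rfl⟩
    · obtain ⟨J, s, hJ, rfl⟩ := ih y hy
      have hn : n ∉ J := fun h => lt_irrefl n (hJ n h)
      refine ⟨insert n J, Function.update s n true, ?_, ?_⟩
      · intro k hk
        rcases Finset.mem_insert.1 hk with rfl | hk
        · exact Nat.lt_succ_self _
        · exact Nat.lt_succ_of_lt (hJ k hk)
      · rw [Finset.sum_insert hn, Function.update_self, add_comm]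
        congr 1
        · simp [sg]
        · refine Finset.sum_congr rfl fun k hk => ?_
          rw [Function.update_of_ne]
          rintro rfl
          exact hn hk
    · obtain ⟨J, s, hJ, rfl⟩ := ih y hy
      have hn : n ∉ J := fun h => lt_irrefl n (hJ n h)
      refine ⟨insert n J, Function.update s n false, ?_, ?_⟩
      · intro k hk
        rcases Finset.mem_insert.1 hk with rfl | hk
        · exact Nat.lt_succ_self _
        · exact Nat.lt_succ_of_lt (hJ k hk)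
      · rw [Finset.sum_insert hn, Function.update_self, sub_eq_add_neg, add_comm]
        congr 1
        · simp [sg]
        · refine Finset.sum_congr rfl fun k hk => ?_
          rw [Function.update_of_ne]
          rintro rfl
          exact hn hk

open Classical in
/-- sign sums are in `S n` -/
theorem sum_mem (u : ℕ → X) (S : ℕ → Finset X) (i j : ℕ → ℕ) (hS0 : S 0 = {0})
    (hSs : ∀ n, S (n + 1) = S n ∪ ((S n).image (fun x => x + ((1 / 2 : ℝ) ^ j n) • u (i n)) ∪
      (S n).image (fun x => x - ((1 / 2 : ℝ) ^ j n) • u (i n)))) (s : ℕ → Bool) :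
    ∀ n, ∀ J : Finset ℕ, (∀ k ∈ J, k < n) →
      ∑ k ∈ J, sg (s k) • (((1 / 2 : ℝ) ^ j k) • u (i k)) ∈ S n := by
  intro n
  induction n with
  | zero =>
    intro J hJ
    have : J = ∅ := by
      rw [Finset.eq_empty_iff_forall_notMem]
      intro k hk
      exact absurd (hJ k hk) (Nat.not_lt_zero k)
    rw [this, Finset.sum_empty, hS0]
    exact Finset.mem_singleton_self _
  | succ n ih =>
    intro J hJ
    rw [hSs, Finset.mem_union, Finset.mem_union, Finset.mem_image, Finset.mem_image]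
    by_cases hn : n ∈ J
    · right
      have h1 : ∀ k ∈ J.erase n, k < n := by
        intro k hk
        have h2 := Finset.ne_of_mem_erase hk
        have h3 := hJ k (Finset.mem_of_mem_erase hk)
        omega
      have h2 := ih (J.erase n) h1
      cases hs : s n with
      | true =>
        left
        refine ⟨_, h2, ?_⟩
        rw [← Finset.sum_erase_add _ _ hn, hs]
        simp [sg]
      | false =>
        right
        refine ⟨_, h2, ?_⟩
        rw [← Finset.sum_erase_add _ _ hn, hs]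
        simp [sg, sub_eq_add_neg]
    · left
      apply ih
      intro k hk
      have h3 := hJ k hk
      have : k ≠ n := by
        rintro rfl
        exact hn hk
      omega

end

end G2

open Filter Topology in
theorem prf_G2 (hG1 : S_G1) (hBP : S_BP) (hCPT : S_CPT) : S_G2 := by
  intro X _ _ _ u N hA
  obtain ⟨S, i, j, hS0, hi, hSs, hN, hG⟩ := hG1 X u N hA
  by_contra hc
  set w : ℕ → X := fun k => ((1 / 2 : ℝ) ^ j k) • u (i k) with hw
  have hwn : ∀ k, ‖w k‖ = (1 / 2 : ℝ) ^ j k := by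
    intro k
    rw [hw]
    simp only
    rw [norm_smul, hA.unit, mul_one, Real.norm_eq_abs, abs_of_nonneg (by positivity)]
  have hSB : SB w 2 := by
    intro J s
    have h1 : ∀ k ∈ J, k < J.sup id + 1 := by
      intro k hk
      have := Finset.le_sup (f := id) hk
      simp only [id] at this
      omega
    have h2 := G2.sum_mem u S i j hS0 hSs s _ J h1
    have h3 := hN _ _ h2
    have h4 := hA.lower (∑ k ∈ J, sg (s k) • (((1 / 2 : ℝ) ^ j k) • u (i k)))
    have h5 : (0 : ℝ) < (1 / 2) ^ (J.sup id + 1) := by positivity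
    calc ‖∑ k ∈ J, sg (s k) • w k‖ ≤ N (∑ k ∈ J, sg (s k) • (((1 / 2 : ℝ) ^ j k) • u (i k))) := h4
      _ ≤ 2 := by linarith
  obtain ⟨K, hK, hKm⟩ := hCPT X w 2 hSB hc
  have ha : ∀ j0 : ℕ, ∃ n0, ∀ n, n0 ≤ n → j0 < j n := by
    intro j0
    by_contra hcon
    push Not at hcon
    have h1 : ∀ n0, ∃ n, n > n0 ∧ j n ≤ j0 := by
      intro n0
      obtain ⟨n, hn, hn2⟩ := hcon (n0 + 1)
      exact ⟨n, by omega, hn2⟩
    obtain ⟨φ, hφ, hφj⟩ := Nat.exists_strictMono_subsequence h1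
    apply hc
    refine hBP X (fun k => w (φ k)) ((1 / 2) ^ j0) 2 (by positivity) ?_ ?_
    · intro n
      rw [hwn]
      exact pow_le_pow_of_le_one (by norm_num) (by norm_num) (hφj n)
    · intro J s
      have h2 := hSB (J.image φ) (fun l => s (Function.invFun φ l))
      rw [Finset.sum_image (fun a _ b _ h => hφ.injective h)] at h2
      have h3 : ∀ k, Function.invFun φ (φ k) = k := Function.leftInverse_invFun hφ.injective
      simp only [h3] at h2
      exact h2
  have hb : ∀ k : ℕ, ∃ (x : X) (n i' : ℕ) (b : Bool), x ∈ K ∧ N x ≤ 2 - (1 / 2) ^ n ∧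
      n + 1 ≤ i' ∧ 2 - (1 / 2 : ℝ) ^ (n + 1) < N (x + (sg b * (1 / 2) ^ k) • u i') := by
    intro k
    obtain ⟨n0, hn0⟩ := ha k
    obtain ⟨s, hs, b, hb⟩ := hG n0 k (hn0 n0 le_rfl) (max (i n0) (n0 + 1)) (le_max_left _ _)
    refine ⟨s, n0, max (i n0) (n0 + 1), b, ?_, hN _ _ hs, le_max_right _ _, hb⟩
    obtain ⟨J, s', -, rfl⟩ := G2.isSum u S i j hS0 hSs _ _ hs
    exact hKm J s'
  choose x n i' b hxK hxN hni hbig using hb
  obtain ⟨a, -, φ, hφ, hlim⟩ := hK.tendsto_subseq hxK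
  have habs : ∀ k, |sg (b k) * (1 / 2 : ℝ) ^ k| = (1 / 2) ^ k := by
    intro k
    rw [abs_mul, G2.abs_sg, one_mul, abs_of_nonneg (by positivity)]
  have hpow : Tendsto (fun k => (1 / 2 : ℝ) ^ φ k) atTop (𝓝 0) :=
    (tendsto_pow_atTop_nhds_zero_of_lt_one (by norm_num) (by norm_num)).comp hφ.tendsto_atTop
  by_cases h0 : a = 0
  · subst h0
    have h1 : Tendsto (fun k => ‖x (φ k)‖ + (1 / 2 : ℝ) ^ φ k) atTop (𝓝 0) := by
      have := hlim.norm.add hpow
      simpa using this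
    have h2 : ∀ k, (1 / 2 : ℝ) ≤ ‖x (φ k)‖ + (1 / 2 : ℝ) ^ φ k := by
      intro k
      have h3 := hbig (φ k)
      have h4 := hA.upper (x (φ k) + (sg (b (φ k)) * (1 / 2) ^ φ k) • u (i' (φ k)))
      have h5 := norm_add_le (x (φ k)) ((sg (b (φ k)) * (1 / 2) ^ φ k) • u (i' (φ k)))
      rw [norm_smul, hA.unit, mul_one, Real.norm_eq_abs, habs] at h5
      have h6 : (1 / 2 : ℝ) ^ (n (φ k) + 1) ≤ 1 / 2 := by
        rw [pow_succ]
        have : (1 / 2 : ℝ) ^ n (φ k) ≤ 1 := pow_le_one₀ (by norm_num) (by norm_num)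
        linarith
      linarith
    have h3 := ge_of_tendsto' h1 h2
    norm_num at h3
  · obtain ⟨δ, M, hδ, hloc⟩ := hA.local' a h0
    have e1 : ∀ᶠ k in atTop, ‖x (φ k) - a‖ < δ := by
      have := (tendsto_iff_norm_sub_tendsto_zero.1 hlim).eventually (gt_mem_nhds hδ)
      exact this
    have e2 : ∀ᶠ k in atTop, (1 / 2 : ℝ) ^ φ k < δ := hpow.eventually (gt_mem_nhds hδ)
    have e3 : ∀ᶠ k in atTop, (1 / 2 : ℝ) ^ φ k * M < 1 := by
      have : Tendsto (fun k => (1 / 2 : ℝ) ^ φ k * M) atTop (𝓝 (0 * M)) := hpow.mul_const M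
      rw [zero_mul] at this
      exact this.eventually (gt_mem_nhds one_pos)
    obtain ⟨k, hk1, hk2, hk3⟩ := (e1.and (e2.and e3)).exists
    have h1 := hloc (x (φ k)) (sg (b (φ k)) * (1 / 2) ^ φ k) (i' (φ k)) hk1
      (by rw [habs]; exact hk2)
    rw [habs] at h1
    have h2 := hbig (φ k)
    have h3 := hxN (φ k)
    have h4 : (1 / 2 : ℝ) ^ i' (φ k) ≤ (1 / 2) ^ (n (φ k) + 1) :=
      pow_le_pow_of_le_one (by norm_num) (by norm_num) (hni (φ k))
    have h5 : (1 / 2 : ℝ) ^ φ k * M * (1 / 2) ^ i' (φ k) ≤ (1 / 2) ^ i' (φ k) := by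
      have h6 : (0 : ℝ) < (1 / 2) ^ i' (φ k) := by positivity
      nlinarith
    have h6 : (1 / 2 : ℝ) ^ n (φ k) = 2 * (1 / 2) ^ (n (φ k) + 1) := by
      rw [pow_succ]; ring
    linarith

end MPbb13ef

end
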