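import Mathlib
import Pool.Agent.Work.MP_bb13ef_an.SR.Stmts

/-! Bundle of small proof modules (one section per former module). -/

section

/-!
# Dual spaces with numerical index one contain `ℓ₁`: definitions and statements

If `Y` does not contain `ℓ₁` then `Y*` and all its subspaces are strongly regular.
-/

set_option autoImplicit false

open Filter Topology

namespace MPbb13ef

/-! ### Averages over the nodes of the dyadic tree

A node is a list of Booleans, the most recent bit is the head; the children of `F` are `true :: F`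
and `false :: F`. -/

/-- The average of `Φ` over the `2 ^ n` nodes of length `F.length + n` above `F`. -/
noncomputable def Av : ℕ → List Bool → (List Bool → ℝ) → ℝ
  | 0, F, Φ => Φ F
  | n + 1, F, Φ => (Av n (true :: F) Φ + Av n (false :: F) Φ) / 2

/-- the indicator function of a set of nodes -/
noncomputable def ind (G : Set (List Bool)) : List Bool → ℝ := G.indicator 1

/-- a nonnegative martingale bounded by one on the tree -/
structure Mart (a : List Bool → ℝ) : Prop where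
  avg : ∀ F, a F = (a (true :: F) + a (false :: F)) / 2
  nonneg : ∀ F, 0 ≤ a F
  le_one : ∀ F, a F ≤ 1

/-- `a F` is the limit along `U` of the density of `G` above `F`, at level `n` -/
def Dens (G : Set (List Bool)) (U : Filter ℕ) (a : List Bool → ℝ) : Prop :=
  ∀ F, Tendsto (fun n => Av (n - F.length) F (ind G)) U (𝓝 (a F))

/-- AVV: averages as sums -/
def S_AVV : Prop := ∀ (n : ℕ) (Φ : List Bool → ℝ),
  Av n [] Φ = (1 / 2) ^ n * ∑ v : List.Vector Bool n, Φ v.toList

/-- EN0: densities are martingales -/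
def S_EN0 : Prop := ∀ (G : Set (List Bool)) (U : Filter ℕ) (a : List Bool → ℝ), U.NeBot →
  U ≤ atTop → Dens G U a → Mart a

/-- EN1: nodes of small energy increment -/
def S_EN1 : Prop := ∀ a : List Bool → ℝ, Mart a → ∀ F, 0 < a F → ∀ θ : ℝ, 0 < θ →
  ∃ J, F <:+ J ∧ a F / 2 ≤ a J ∧ ∀ k, Av k J (fun I => a I ^ 2) ≤ (1 + θ) * a J ^ 2

/-- EN2: splitting at a node of small energy increment -/
def S_EN2 : Prop := ∀ (G : Set (List Bool)) (U : Filter ℕ) (a : List Bool → ℝ), U ≤ atTop →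
  Dens G U a → Mart a → ∀ (J : List Bool) (θ : ℝ), 0 < a J → 0 < θ → 4 * θ < a J ^ 2 →
  (∀ k, Av k J (fun I => a I ^ 2) ≤ (1 + θ) * a J ^ 2) →
  ∀ᶠ n in U, ∃ I ∈ G, I.length = n ∧ J <:+ I ∧ 0 < a (true :: I) ∧ 0 < a (false :: I)

/-- COMB: sets of nodes with positive density at infinitely many levels -/
def S_COMB : Prop := ∀ (G : Set (List Bool)) (κ : ℝ), 0 < κ →
  (∀ N : ℕ, ∃ n, N ≤ n ∧ κ ≤ Av n [] (ind G)) →
  ∃ ν : ℕ → ℕ, StrictMono ν ∧ ∀ (k : ℕ) (s : ℕ → Bool), ∃ L : List Bool, ∀ i < k,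
    ∃ I ∈ G, I.length = ν i ∧ (s i :: I) <:+ L

/-- PIG: pigeonhole -/
def S_PIG : Prop := ∀ (α : List Bool → ℝ) (κ : ℝ), 0 < κ → (∀ L, |α L| ≤ 1) →
  (∀ n, 4 * κ < Av n [] (fun I => α (true :: I) - α (false :: I))) →
  ∃ (a₀ κ' : ℝ), 0 < κ' ∧ ∀ N : ℕ, ∃ n, N ≤ n ∧
    κ' ≤ Av n [] (ind {I | α (false :: I) < a₀ ∧ a₀ + κ < α (true :: I)})

/-! ### Weakly open sets -/

section

variable {X : Type} [NormedAddCommGroup X] [NormedSpace ℝ X]

/-- the relatively weakly open subset of `C` given by finitely many conditions `a < h x` -/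
def WO (C : Set X) (Γ : List ((X →L[ℝ] ℝ) × ℝ)) : Set X := {x | x ∈ C ∧ ∀ p ∈ Γ, p.2 < p.1 x}

/-- all convex combinations of slices of `C` have diameter larger than `δ` -/
def BigS (C : Set X) (δ : ℝ) : Prop :=
  ∀ (n : ℕ) (l : Fin n → ℝ) (g : Fin n → (X →L[ℝ] ℝ)) (a : Fin n → ℝ),
    (∀ i, 0 ≤ l i) → ∑ i, l i = 1 → (∀ i, ∃ x ∈ C, a i < g i x) →
    ∃ x y : Fin n → X, (∀ i, x i ∈ C ∧ a i < g i (x i)) ∧ (∀ i, y i ∈ C ∧ a i < g i (y i)) ∧
      δ < ‖∑ i, l i • (x i - y i)‖

/-- all convex combinations of weakly open subsets of `C` have diameter larger than `δ` -/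
def BigW (C : Set X) (δ : ℝ) : Prop :=
  ∀ (ι : Type) [Fintype ι] (l : ι → ℝ) (Γ : ι → List ((X →L[ℝ] ℝ) × ℝ)),
    (∀ i, 0 ≤ l i) → ∑ i, l i = 1 → (∀ i, (WO C (Γ i)).Nonempty) →
    ∃ x y : ι → X, (∀ i, x i ∈ WO C (Γ i)) ∧ (∀ i, y i ∈ WO C (Γ i)) ∧
      δ < ‖∑ i, l i • (x i - y i)‖

/-- the step of the construction of the tree -/
def StepP (C : Set X) (𝒴 : Set (X →L[ℝ] ℝ)) (κ : ℝ) : Prop :=
  ∀ (n : ℕ) (Γ : List Bool → List ((X →L[ℝ] ℝ) × ℝ)),
    (∀ L, L.length = n → (WO C (Γ L)).Nonempty) →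
    ∃ y ∈ 𝒴, ∃ x x' : List Bool → X,
      (∀ L, L.length = n → x L ∈ WO C (Γ L) ∧ x' L ∈ WO C (Γ L)) ∧
      4 * κ < Av n [] (fun L => y (x L - x' L))

end

/-- BOUN: Bourgain's lemma -/
def S_BOUN : Prop := ∀ (X : Type) [NormedAddCommGroup X] [NormedSpace ℝ X] (C : Set X),
  Convex ℝ C → Bornology.IsBounded C → ∀ (Γ : List ((X →L[ℝ] ℝ) × ℝ)), (WO C Γ).Nonempty →
  ∃ (n : ℕ) (l : Fin n → ℝ) (g : Fin n → (X →L[ℝ] ℝ)) (a : Fin n → ℝ),
    (∀ i, 0 ≤ l i) ∧ ∑ i, l i = 1 ∧ (∀ i, ∃ x ∈ C, a i < g i x) ∧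
    ∀ x : Fin n → X, (∀ i, x i ∈ C ∧ a i < g i (x i)) → ∑ i, l i • x i ∈ WO C Γ

/-- WOP: from slices to weakly open sets -/
def S_WOP : Prop := ∀ (X : Type) [NormedAddCommGroup X] [NormedSpace ℝ X] (C : Set X) (δ : ℝ),
  Convex ℝ C → Bornology.IsBounded C → BigS C δ → BigW C δ

/-- STEP -/
def S_STEP : Prop := ∀ (X : Type) [NormedAddCommGroup X] [NormedSpace ℝ X] (C : Set X) (δ c κ : ℝ)
  (𝒴 : Set (X →L[ℝ] ℝ)), 0 < c → 4 * κ ≤ c * δ → BigW C δ →
  (∀ (x : X) (r : ℝ), r < c * ‖x‖ → ∃ y ∈ 𝒴, r < y x) → StepP C 𝒴 κ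

/-- TREE: the tree -/
def S_TREE : Prop := ∀ (X : Type) [NormedAddCommGroup X] [NormedSpace ℝ X] (C : Set X)
  (𝒴 : Set (X →L[ℝ] ℝ)) (κ ρ : ℝ), C.Nonempty → StepP C 𝒴 κ → 0 < ρ →
  ∃ (y : ℕ → (X →L[ℝ] ℝ)) (α : List Bool → ℝ), (∀ n, y n ∈ 𝒴) ∧ α [] = 0 ∧
    (∀ b I, ∃ x ∈ C, α (b :: I) = y I.length x) ∧
    (∀ n, 4 * κ < Av n [] (fun I => α (true :: I) - α (false :: I))) ∧
    ∀ L, ∃ x ∈ C, ∀ b I, (b :: I) <:+ L → |y I.length x - α (b :: I)| < ρ

/-- IND: independent functionals -/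
def S_IND : Prop := ∀ (X : Type) [NormedAddCommGroup X] [NormedSpace ℝ X] (C : Set X)
  (𝒴 : Set (X →L[ℝ] ℝ)) (κ : ℝ), 0 < κ → C.Nonempty → (∀ y ∈ 𝒴, ∀ x ∈ C, |y x| ≤ 1) →
  StepP C 𝒴 κ →
  ∃ (z : ℕ → (X →L[ℝ] ℝ)) (a₀ γ : ℝ), (∀ n, z n ∈ 𝒴) ∧ 0 < γ ∧
    ∀ (k : ℕ) (s : ℕ → Bool), ∃ x ∈ C, ∀ i < k,
      (s i = true → a₀ + γ < z i x) ∧ (s i = false → z i x < a₀)

/-- L1C: an independent sequence gives a copy of `ℓ₁` -/
def S_L1C : Prop := ∀ (X : Type) [NormedAddCommGroup X] [NormedSpace ℝ X] [CompleteSpace X]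
  (x : ℕ → X) (M c : ℝ), 0 < c → (∀ n, ‖x n‖ ≤ M) →
  (∀ (n : ℕ) (s : ℕ → Bool), ∃ e : X →L[ℝ] ℝ, ‖e‖ ≤ 1 ∧ ∀ i < n, c < sg (s i) * e (x i)) →
  HasL1 X

/-- LD: copies of `ℓ₁` in the dual -/
def S_LD : Prop := ∀ (Y : Type) [NormedAddCommGroup Y] [NormedSpace ℝ Y], HasL1 Y →
  HasL1 (Y →L[ℝ] ℝ)

/-- SRD: subspaces of `Y*` are strongly regular if `Y` does not contain `ℓ₁` -/
def S_SRD : Prop := ∀ (X Y : Type) [NormedAddCommGroup X] [NormedSpace ℝ X]
  [NormedAddCommGroup Y] [NormedSpace ℝ Y] [CompleteSpace Y] (J : X →L[ℝ] (Y →L[ℝ] ℝ)) (c : ℝ),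
  0 < c → (∀ x, c * ‖x‖ ≤ ‖J x‖) → ¬ HasL1 Y → StronglyRegular X

/-- DUAL: spaces isomorphic to a dual space -/
def S_DUAL : Prop := ∀ (X Y : Type) [NormedAddCommGroup X] [NormedSpace ℝ X] [CompleteSpace X]
  [NormedAddCommGroup Y] [NormedSpace ℝ Y] [CompleteSpace Y], (X ≃L[ℝ] (Y →L[ℝ] ℝ)) →
  ¬ FiniteDimensional ℝ X → NI1 X → HasL1 X

end MPbb13ef

end

section

/-!
# Item AVV: averages over nodes as sums
-/

set_option autoImplicit false

open Filter Topology

namespace MPbb13ef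

namespace AVV

lemma av_succ (n : ℕ) : ∀ (F : List Bool) (Φ : List Bool → ℝ),
    Av (n + 1) F Φ = Av n F (fun I => (Φ (true :: I) + Φ (false :: I)) / 2) := by
  induction n with
  | zero =>
    intro F Φ
    rfl
  | succ n ih =>
    intro F Φ
    change (Av (n + 1) (true :: F) Φ + Av (n + 1) (false :: F) Φ) / 2 = _
    rw [ih, ih]
    rfl

/-- splitting off the head -/
def eqv (n : ℕ) : Bool × List.Vector Bool n ≃ List.Vector Bool (n + 1) where
  toFun p := List.Vector.cons p.1 p.2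
  invFun v := (v.head, v.tail)
  left_inv := by
    rintro ⟨b, w⟩
    simp
  right_inv := by
    intro v
    simp

lemma sum_succ (n : ℕ) (Φ : List Bool → ℝ) :
    ∑ v : List.Vector Bool (n + 1), Φ v.toList =
      ∑ w : List.Vector Bool n, (Φ (true :: w.toList) + Φ (false :: w.toList)) := by
  rw [← (eqv n).sum_comp (fun v : List.Vector Bool (n + 1) => Φ v.toList), Fintype.sum_prod_type,
    Fintype.sum_bool, ← Finset.sum_add_distrib]
  rfl

end AVV

theorem prf_AVV : S_AVV := by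
  intro n
  induction n with
  | zero =>
    intro Φ
    rw [Fintype.sum_subsingleton _ (List.Vector.nil : List.Vector Bool 0)]
    simp [Av]
  | succ n ih =>
    intro Φ
    rw [AVV.av_succ, ih, AVV.sum_succ, pow_succ, mul_assoc, Finset.mul_sum, Finset.mul_sum,
      Finset.mul_sum]
    refine Finset.sum_congr rfl fun w _ => ?_
    ring

end MPbb13ef

end

section

/-!
# Item BOUN: Bourgain's lemma for finitely many functionals and a bounded convex set
-/

set_option autoImplicit false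

open Filter Topology

namespace MPbb13ef

namespace BOUN

variable {X : Type} [NormedAddCommGroup X] [NormedSpace ℝ X]
  {E : Type} [NormedAddCommGroup E] [InnerProductSpace ℝ E] [CompleteSpace E]

/-- points of slices of `C` on which `T` has small oscillation -/
def DD (T : X →L[ℝ] E) (C : Set X) (η : ℝ) : Set X :=
  {e | e ∈ C ∧ ∃ (k : X →L[ℝ] ℝ) (a : ℝ), a < k e ∧ ∀ x ∈ C, a < k x → ‖T x - T e‖ < η / 2}

theorem claim (T : X →L[ℝ] E) (C : Set X) (R₀ : ℝ) (hR₀ : ∀ x ∈ C, ‖T x‖ ≤ R₀) (z : X)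
    (hz : z ∈ C) (η : ℝ) (hη : 0 < η) :
    T z ∈ closure (convexHull ℝ (T '' DD T C η)) := by
  by_contra hcon
  obtain ⟨φ, c, h1, h2⟩ := geometric_hahn_banach_closed_point
    (convex_convexHull ℝ (T '' DD T C η)).closure isClosed_closure hcon
  obtain ⟨u, hu⟩ : ∃ u : E, ∀ v, inner ℝ u v = φ v :=
    ⟨(InnerProductSpace.toDual ℝ E).symm φ, fun v => InnerProductSpace.toDual_symm_apply⟩
  have hR₀0 : 0 ≤ R₀ := (norm_nonneg _).trans (hR₀ z hz)
  have hd : 0 < φ (T z) - c := by linarith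
  obtain ⟨R, hR⟩ : ∃ R : ℝ, R = (R₀ ^ 2 + 1) / (2 * (φ (T z) - c)) := ⟨_, rfl⟩
  have hRpos : 0 < R := by rw [hR]; positivity
  have hR2 : 2 * R * (φ (T z) - c) = R₀ ^ 2 + 1 := by
    rw [hR]
    field_simp
  obtain ⟨Ψ, hΨ⟩ : ∃ Ψ : X → ℝ, ∀ x, Ψ x = ‖T x + R • u‖ ^ 2 := ⟨_, fun _ => rfl⟩
  have hΨ2 : ∀ x, Ψ x = ‖T x‖ ^ 2 + 2 * R * φ (T x) + ‖R • u‖ ^ 2 := by
    intro x
    rw [hΨ, norm_add_sq_real, real_inner_smul_right, real_inner_comm, hu]
    ring
  have hbdd : BddAbove (Ψ '' C) := by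
    refine ⟨(R₀ + ‖R • u‖) ^ 2, ?_⟩
    rintro _ ⟨x, hx, rfl⟩
    rw [hΨ]
    have e1 : ‖T x + R • u‖ ≤ R₀ + ‖R • u‖ := (norm_add_le _ _).trans (by
      have := hR₀ x hx
      linarith)
    gcongr
  obtain ⟨θ, hθ⟩ : ∃ θ : ℝ, θ = η ^ 2 / 16 := ⟨_, rfl⟩
  have hθ0 : 0 < θ := by rw [hθ]; positivity
  have hsup : ∀ x ∈ C, Ψ x ≤ sSup (Ψ '' C) := fun x hx => le_csSup hbdd ⟨x, hx, rfl⟩
  have hex : ∃ e ∈ C, sSup (Ψ '' C) - θ < Ψ e ∧ Ψ z ≤ Ψ e := by
    obtain ⟨_, ⟨e, he, rfl⟩, hlt⟩ := exists_lt_of_lt_csSup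
      (⟨Ψ z, z, hz, rfl⟩ : (Ψ '' C).Nonempty) (sub_lt_self (sSup (Ψ '' C)) hθ0)
    rcases le_or_gt (Ψ z) (Ψ e) with h3 | h3
    · exact ⟨e, he, hlt, h3⟩
    · exact ⟨z, hz, hlt.trans h3, le_refl _⟩
  obtain ⟨e, he, he1, he2⟩ := hex
  have hTe : ‖T e‖ ^ 2 ≤ R₀ ^ 2 := by
    have := hR₀ e he
    gcongr
  have hgt : c < φ (T e) := by
    rw [hΨ2, hΨ2] at he2
    have h3 : 2 * R * φ (T z) ≤ R₀ ^ 2 + 2 * R * φ (T e) := by
      nlinarith [sq_nonneg ‖T z‖]
    have h4 : 2 * R * c < 2 * R * φ (T e) := by nlinarith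
    exact lt_of_mul_lt_mul_left h4 (by positivity)
  have hD : e ∈ DD T C η := by
    refine ⟨he, (innerSL ℝ (T e + R • u)).comp T, inner ℝ (T e + R • u) (T e) - θ, ?_, ?_⟩
    · show inner ℝ (T e + R • u) (T e) - θ < inner ℝ (T e + R • u) (T e)
      linarith
    · intro x hx hx2
      have hx3 : inner ℝ (T e + R • u) (T e) - θ < inner ℝ (T e + R • u) (T x) := hx2
      have h5 := hsup x hx
      have h6 : ‖T x - T e‖ ^ 2 < 3 * θ := by
        have e1 : T x - T e = (T x + R • u) - (T e + R • u) := by abel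
        rw [e1, norm_sub_sq_real, ← hΨ, ← hΨ, real_inner_comm]
        have e2 : inner ℝ (T e + R • u) (T x + R • u) =
            inner ℝ (T e + R • u) (T x) + inner ℝ (T e + R • u) (R • u) := inner_add_right _ _ _
        have e3 : Ψ e = inner ℝ (T e + R • u) (T e) + inner ℝ (T e + R • u) (R • u) := by
          rw [hΨ, ← real_inner_self_eq_norm_sq, ← inner_add_right]
        rw [e2]
        linarith
      have h7 : 3 * θ < (η / 2) ^ 2 := by
        rw [hθ]
        nlinarith [mul_pos hη hη]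
      exact lt_of_pow_lt_pow_left₀ 2 (by positivity) (h6.trans h7)
  have h8 := h1 (T e) (subset_closure (subset_convexHull ℝ _ ⟨e, hD, rfl⟩))
  linarith

omit [CompleteSpace E] in
theorem comb {n : ℕ} (T : X →L[ℝ] E) (z : X) (η : ℝ) (l : Fin n → ℝ) (x e : Fin n → X)
    (hl : ∀ i, 0 ≤ l i) (hs : ∑ i, l i = 1) (h1 : ∀ i, ‖T (x i) - T (e i)‖ < η / 2)
    (h2 : ‖T z - ∑ i, l i • T (e i)‖ < η / 2) : ‖T (∑ i, l i • x i) - T z‖ < η := by
  have e1 : T (∑ i, l i • x i) - T z =
      ∑ i, l i • (T (x i) - T (e i)) - (T z - ∑ i, l i • T (e i)) := by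
    rw [map_sum]
    simp only [map_smul, smul_sub, Finset.sum_sub_distrib]
    abel
  have e2 : ‖∑ i, l i • (T (x i) - T (e i))‖ ≤ η / 2 := by
    calc ‖∑ i, l i • (T (x i) - T (e i))‖ ≤ ∑ i, ‖l i • (T (x i) - T (e i))‖ :=
          norm_sum_le _ _
      _ ≤ ∑ i, l i * (η / 2) := by
          apply Finset.sum_le_sum
          intro i _
          rw [norm_smul, Real.norm_of_nonneg (hl i)]
          exact mul_le_mul_of_nonneg_left (h1 i).le (hl i)
      _ = η / 2 := by rw [← Finset.sum_mul, hs, one_mul]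
  rw [e1]
  calc ‖∑ i, l i • (T (x i) - T (e i)) - (T z - ∑ i, l i • T (e i))‖
      ≤ ‖∑ i, l i • (T (x i) - T (e i))‖ + ‖T z - ∑ i, l i • T (e i)‖ := norm_sub_le _ _
    _ < η / 2 + η / 2 := by linarith
    _ = η := by ring

theorem slices (T : X →L[ℝ] E) (C : Set X) (R₀ : ℝ) (hR₀ : ∀ x ∈ C, ‖T x‖ ≤ R₀) (z : X)
    (hz : z ∈ C) (η : ℝ) (hη : 0 < η) :
    ∃ (n : ℕ) (l : Fin n → ℝ) (g : Fin n → (X →L[ℝ] ℝ)) (a : Fin n → ℝ),
    (∀ i, 0 ≤ l i) ∧ ∑ i, l i = 1 ∧ (∀ i, ∃ x ∈ C, a i < g i x) ∧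
    ∀ x : Fin n → X, (∀ i, x i ∈ C ∧ a i < g i (x i)) → ‖T (∑ i, l i • x i) - T z‖ < η := by
  have hcl := claim T C R₀ hR₀ z hz η hη
  rw [Metric.mem_closure_iff] at hcl
  obtain ⟨p, hp, hdist⟩ := hcl (η / 2) (by positivity)
  rw [mem_convexHull_iff_exists_fintype] at hp
  obtain ⟨ι, _, w, q, hw0, hw1, hq, hsum⟩ := hp
  choose e he heq using hq
  choose hen k a hin hosc using he
  let r : Fin (Fintype.card ι) ≃ ι := (Fintype.equivFin ι).symm
  have hs1 : ∑ i, w (r i) = 1 := by
    rw [← hw1]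
    exact Equiv.sum_comp r w
  refine ⟨Fintype.card ι, fun i => w (r i), fun i => k (r i), fun i => a (r i), fun i => hw0 _,
    hs1, fun i => ⟨_, hen (r i), hin (r i)⟩, ?_⟩
  intro x hx
  have hp1 : p = ∑ i, w (r i) • T (e (r i)) := by
    rw [← hsum, Equiv.sum_comp r (fun j => w j • T (e j))]
    exact Finset.sum_congr rfl fun i _ => by rw [heq i]
  rw [hp1, dist_eq_norm] at hdist
  exact comb T z η _ x (fun i => e (r i)) (fun i => hw0 _) hs1
    (fun i => hosc (r i) (x i) (hx i).1 (hx i).2) hdist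

theorem gap (z : X) : ∀ Γ : List ((X →L[ℝ] ℝ) × ℝ), (∀ p ∈ Γ, p.2 < p.1 z) →
    ∃ η : ℝ, 0 < η ∧ ∀ p ∈ Γ, p.2 + η ≤ p.1 z := by
  intro Γ
  induction Γ with
  | nil => intro _; exact ⟨1, one_pos, by simp⟩
  | cons q Γ ih =>
    intro h
    obtain ⟨η, hη, hη2⟩ := ih fun p hp => h p (List.mem_cons_of_mem _ hp)
    have hq := h q List.mem_cons_self
    refine ⟨min η (q.1 z - q.2), lt_min hη (by linarith), ?_⟩
    intro p hp
    rcases List.mem_cons.1 hp with rfl | hp'
    · have := min_le_right η (p.1 z - p.2)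
      linarith
    · have h1 := hη2 p hp'
      have := min_le_left η (q.1 z - q.2)
      linarith

end BOUN

theorem prf_BOUN : S_BOUN := by
  intro X _ _ C hconv hbd Γ hne
  obtain ⟨z, hzC, hz⟩ := hne
  obtain ⟨η, hη, hη2⟩ := BOUN.gap z Γ hz
  obtain ⟨K, hK⟩ := hbd.exists_norm_le
  let T : X →L[ℝ] EuclideanSpace ℝ (Fin Γ.length) :=
    ((EuclideanSpace.equiv (Fin Γ.length) ℝ).symm : (Fin Γ.length → ℝ) →L[ℝ]
      EuclideanSpace ℝ (Fin Γ.length)).comp (ContinuousLinearMap.pi fun i => (Γ.get i).1)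
  have hT : ∀ x i, T x i = (Γ.get i).1 x := fun x i => rfl
  obtain ⟨n, l, g, a, h1, h2, h3, h4⟩ := BOUN.slices T C (‖T‖ * K) (fun x hx => by
    refine (T.le_opNorm x).trans ?_
    exact mul_le_mul_of_nonneg_left (hK x hx) (norm_nonneg _)) z hzC η hη
  refine ⟨n, l, g, a, h1, h2, h3, fun x hx => ⟨?_, ?_⟩⟩
  · exact hconv.sum_mem (fun i _ => h1 i) h2 (fun i _ => (hx i).1)
  · intro p hp
    obtain ⟨i, rfl⟩ := List.get_of_mem hp
    have h5 := h4 x hx
    have h6 : ‖(T (∑ i, l i • x i) - T z) i‖ ≤ ‖T (∑ i, l i • x i) - T z‖ :=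
      PiLp.norm_apply_le _ i
    have h7 : (T (∑ i, l i • x i) - T z) i = (Γ.get i).1 (∑ i, l i • x i) - (Γ.get i).1 z := rfl
    rw [h7, Real.norm_eq_abs] at h6
    have h8 := neg_abs_le ((Γ.get i).1 (∑ i, l i • x i) - (Γ.get i).1 z)
    have h9 := hη2 _ (List.get_mem Γ i)
    linarith

end MPbb13ef

end

section

/-!
# COMB: sets of nodes with positive density at infinitely many levels (helper19)
-/

set_option autoImplicit false

open Filter Topology

namespace MPbb13ef

namespace COMB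

theorem av_mem (G : Set (List Bool)) : ∀ (n : ℕ) (F : List Bool),
    Av n F (ind G) ∈ Set.Icc (0 : ℝ) 1
  | 0, F => by
    show ind G F ∈ Set.Icc (0 : ℝ) 1
    unfold ind
    by_cases h : F ∈ G
    · rw [Set.indicator_of_mem h]; simp
    · rw [Set.indicator_of_notMem h]; simp
  | n + 1, F => by
    have h1 := av_mem G n (true :: F)
    have h2 := av_mem G n (false :: F)
    show (Av n (true :: F) (ind G) + Av n (false :: F) (ind G)) / 2 ∈ Set.Icc (0 : ℝ) 1
    rw [Set.mem_Icc] at h1 h2 ⊢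
    constructor <;> linarith

theorem step (G : Set (List Bool)) (U : Ultrafilter ℕ) (a : List Bool → ℝ)
    (hU : (U : Filter ℕ) ≤ atTop)
    (hc : ∀ F, 0 < a F → ∀ᶠ n in (U : Filter ℕ),
      ∃ I ∈ G, I.length = n ∧ F <:+ I ∧ 0 < a (true :: I) ∧ 0 < a (false :: I))
    (k N : ℕ) (F : List Bool → List Bool) (hF : ∀ p, p.length = k → 0 < a (F p)) :
    ∃ (n : ℕ) (I : List Bool → List Bool), N ≤ n ∧ ∀ p, p.length = k →
      (I p ∈ G ∧ (I p).length = n ∧ F p <:+ I p ∧ 0 < a (true :: I p) ∧ 0 < a (false :: I p)) := by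
  classical
  have h1 : ∀ᶠ n in (U : Filter ℕ), ∀ p ∈ {l : List Bool | l.length = k},
      ∃ I ∈ G, I.length = n ∧ F p <:+ I ∧ 0 < a (true :: I) ∧ 0 < a (false :: I) :=
    (Filter.eventually_all_finite (List.finite_length_eq Bool k)).2 fun p hp => hc _ (hF p hp)
  have h2 : ∀ᶠ n in (U : Filter ℕ), N ≤ n := hU (eventually_ge_atTop N)
  obtain ⟨n, h3, h4⟩ := (h1.and h2).exists
  refine ⟨n, fun p => if h : p.length = k then (h3 p h).choose else [], h4, fun p hp => ?_⟩
  have h5 : (if h : p.length = k then (h3 p h).choose else []) = (h3 p hp).choose := dif_pos hp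
  simp only [h5]
  exact (h3 p hp).choose_spec

end COMB

theorem prf_COMB (h0 : S_EN0) (h1 : S_EN1) (h2 : S_EN2) : S_COMB := by
  intro G κ hκ hG
  -- the ultrafilter
  set T : Set ℕ := {n | κ ≤ Av n [] (ind G)} with hT
  have hfr : ∃ᶠ n in atTop, n ∈ T := frequently_atTop.2 fun N => hG N
  have hne : NeBot (atTop ⊓ 𝓟 T) := frequently_mem_iff_neBot.1 hfr
  set U : Ultrafilter ℕ := Ultrafilter.of (atTop ⊓ 𝓟 T) with hUd
  have hUle : (U : Filter ℕ) ≤ atTop ⊓ 𝓟 T := Ultrafilter.of_le _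
  have hU : (U : Filter ℕ) ≤ atTop := hUle.trans inf_le_left
  have hUT : T ∈ (U : Filter ℕ) := (hUle.trans inf_le_right) (mem_principal_self T)
  -- the limits
  have hlim : ∀ F : List Bool, ∃ x, Tendsto (fun n => Av (n - F.length) F (ind G)) U (𝓝 x) := by
    intro F
    have hc : IsCompact (Set.Icc (0 : ℝ) 1) := isCompact_Icc
    obtain ⟨x, -, hx⟩ := hc.ultrafilter_le_nhds
      (U.map fun n => Av (n - F.length) F (ind G)) (by
        rw [le_principal_iff]
        exact Ultrafilter.mem_map.2 (Filter.mem_of_superset univ_mem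
          fun n _ => COMB.av_mem G (n - F.length) F))
    exact ⟨x, hx⟩
  choose a ha using hlim
  have hD : Dens G U a := ha
  have hM : Mart a := h0 G U a U.neBot' hU hD
  have ha0 : 0 < a [] := by
    have : κ ≤ a [] := by
      refine ge_of_tendsto (ha []) ?_
      refine Filter.mem_of_superset hUT fun n hn => ?_
      have h3 : κ ≤ Av n [] (ind G) := hn
      exact h3
    linarith
  have hc : ∀ F, 0 < a F → ∀ᶠ n in (U : Filter ℕ),
      ∃ I ∈ G, I.length = n ∧ F <:+ I ∧ 0 < a (true :: I) ∧ 0 < a (false :: I) := by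
    intro F hF
    obtain ⟨J, hJ1, hJ2, hJ3⟩ := h1 a hM F hF (a F ^ 2 / 32) (by positivity)
    have hJ0 : 0 < a J := by linarith
    refine (h2 G U a hU hD hM J (a F ^ 2 / 32) hJ0 (by positivity) (by nlinarith) hJ3).mono ?_
    rintro n ⟨I, hI, hI1, hI2, hI3⟩
    exact ⟨I, hI, hI1, hJ1.trans hI2, hI3⟩
  choose n I hn hI using fun k N F hF => COMB.step G U a hU hc k N F hF
  -- the recursion
  let St : ℕ → Type := fun k => {x : ℕ × (List Bool → List Bool) //
    ∀ p, p.length = k → 0 < a (x.2 p)}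
  let nxt : ∀ k, St k → St (k + 1) := fun k x =>
    ⟨(n k x.1.1 x.1.2 x.2 + 1, fun q => match q with
      | [] => []
      | b :: p => b :: I k x.1.1 x.1.2 x.2 p), by
      intro q hq
      cases q with
      | nil => exact absurd hq (by simp)
      | cons b p =>
        have hp : p.length = k := by
          rw [List.length_cons] at hq
          omega
        have h := hI k x.1.1 x.1.2 x.2 p hp
        show 0 < a (b :: I k x.1.1 x.1.2 x.2 p)
        cases b
        · exact h.2.2.2.2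
        · exact h.2.2.2.1⟩
  let sq : ∀ k, St k := fun k => Nat.rec (motive := St) ⟨(0, fun _ => []), fun _ _ => ha0⟩ nxt k
  let ν : ℕ → ℕ := fun k => n k (sq k).1.1 (sq k).1.2 (sq k).2
  let Ik : ℕ → List Bool → List Bool := fun k => I k (sq k).1.1 (sq k).1.2 (sq k).2
  have hs1 : ∀ k, (sq (k + 1)).1.1 = ν k + 1 := fun _ => rfl
  have hs2 : ∀ k b p, (sq (k + 1)).1.2 (b :: p) = b :: Ik k p := fun _ _ _ => rfl
  have hs3 : ∀ k, (sq k).1.1 ≤ ν k := fun k => hn k _ _ _
  have hs4 : ∀ k p, p.length = k → (Ik k p ∈ G ∧ (Ik k p).length = ν k ∧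
      (sq k).1.2 p <:+ Ik k p) := fun k p hp => by
    have h := hI k (sq k).1.1 (sq k).1.2 (sq k).2 p hp
    exact ⟨h.1, h.2.1, h.2.2.1⟩
  refine ⟨ν, strictMono_nat_of_lt_succ fun k => ?_, fun k s => ?_⟩
  · have h3 := hs3 (k + 1)
    rw [hs1] at h3
    omega
  · let p : ℕ → List Bool := fun i => Nat.rec (motive := fun _ => List Bool) []
      (fun j q => s j :: q) i
    have hp1 : ∀ i, p (i + 1) = s i :: p i := fun _ => rfl
    have hp2 : ∀ i, (p i).length = i := fun i => by
      induction i with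
      | zero => rfl
      | succ i ih => rw [hp1, List.length_cons, ih]
    have hstep : ∀ i, (sq (i + 1)).1.2 (p (i + 1)) = s i :: Ik i (p i) := fun i => by
      rw [hp1, hs2]
    have hmono : ∀ i j, i ≤ j → (sq i).1.2 (p i) <:+ (sq j).1.2 (p j) := by
      intro i j hij
      induction hij with
      | refl => exact List.suffix_refl _
      | step _ ih =>
        refine ih.trans ?_
        rw [hstep]
        exact (hs4 _ _ (hp2 _)).2.2.trans (List.suffix_cons _ _)
    refine ⟨(sq k).1.2 (p k), fun i hi => ⟨Ik i (p i), (hs4 i _ (hp2 i)).1,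
      (hs4 i _ (hp2 i)).2.1, ?_⟩⟩
    have h := hmono (i + 1) k hi
    rwa [hstep] at h

end MPbb13ef

end

section

/-!
# Item EN0: densities are martingales
-/

set_option autoImplicit false

open Filter Topology

namespace MPbb13ef

namespace EN0

lemma av_nonneg (Φ : List Bool → ℝ) (h : ∀ I, 0 ≤ Φ I) (n : ℕ) : ∀ F, 0 ≤ Av n F Φ := by
  induction n with
  | zero => exact h
  | succ n ih =>
    intro F
    have h1 := ih (true :: F)
    have h2 := ih (false :: F)
    change 0 ≤ (Av n (true :: F) Φ + Av n (false :: F) Φ) / 2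
    linarith

lemma av_le_one (Φ : List Bool → ℝ) (h : ∀ I, Φ I ≤ 1) (n : ℕ) : ∀ F, Av n F Φ ≤ 1 := by
  induction n with
  | zero => exact h
  | succ n ih =>
    intro F
    have h1 := ih (true :: F)
    have h2 := ih (false :: F)
    change (Av n (true :: F) Φ + Av n (false :: F) Φ) / 2 ≤ 1
    linarith

lemma ind_nonneg (G : Set (List Bool)) (I : List Bool) : 0 ≤ ind G I :=
  Set.indicator_nonneg (fun _ _ => zero_le_one) I

lemma ind_le_one (G : Set (List Bool)) (I : List Bool) : ind G I ≤ 1 :=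
  Set.indicator_le_self' (fun _ _ => zero_le_one) I

end EN0

theorem prf_EN0 : S_EN0 := by
  intro G U a hU hle hD
  have := hU
  refine ⟨?_, ?_, ?_⟩
  · intro F
    have h1 := hD (true :: F)
    have h2 := hD (false :: F)
    have h3 := (h1.add h2).div_const 2
    have h4 : ∀ᶠ n in U, (Av (n - (true :: F).length) (true :: F) (ind G) +
        Av (n - (false :: F).length) (false :: F) (ind G)) / 2 =
        Av (n - F.length) F (ind G) := by
      have h5 : ∀ᶠ n in (atTop : Filter ℕ), F.length + 1 ≤ n := eventually_ge_atTop _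
      filter_upwards [hle h5] with n hn
      have e1 : n - F.length = (n - (F.length + 1)) + 1 := by omega
      rw [e1]
      rfl
    exact tendsto_nhds_unique (hD F) (h3.congr' h4)
  · intro F
    exact ge_of_tendsto' (hD F) fun n => EN0.av_nonneg _ (EN0.ind_nonneg G) _ _
  · intro F
    exact le_of_tendsto' (hD F) fun n => EN0.av_le_one _ (EN0.ind_le_one G) _ _

end MPbb13ef

end

section

/-!
# Nodes of small energy increment
-/

set_option autoImplicit false

namespace MPbb13ef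

namespace EN1

theorem step {a : List Bool → ℝ} (ha : Mart a) (k : ℕ) : ∀ J : List Bool,
    Av k J (fun I => a I ^ 2) ≤ Av (k + 1) J (fun I => a I ^ 2) := by
  induction k with
  | zero =>
    intro J
    simp only [Av]
    rw [ha.avg J]
    nlinarith [sq_nonneg (a (true :: J) - a (false :: J))]
  | succ k ih =>
    intro J
    have h1 := ih (true :: J)
    have h2 := ih (false :: J)
    rw [Av, Av]
    linarith

theorem mono {a : List Bool → ℝ} (ha : Mart a) (J : List Bool) :
    Monotone (fun k => Av k J (fun I => a I ^ 2)) :=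
  monotone_nat_of_le_succ fun k => step ha k J

theorem lin {a : List Bool → ℝ} (ha : Mart a) (t c : ℝ) (m : ℕ) : ∀ F : List Bool,
    Av m F (fun I => a I ^ 2 + t * (a I - c)) = Av m F (fun I => a I ^ 2) + t * (a F - c) := by
  induction m with
  | zero =>
    intro F
    rfl
  | succ m ih =>
    intro F
    rw [Av, Av, ih, ih, ha.avg F]
    ring

theorem le_one {a : List Bool → ℝ} (ha : Mart a) (m : ℕ) : ∀ F : List Bool,
    Av m F (fun I => a I ^ 2) ≤ 1 := by
  induction m with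
  | zero =>
    intro F
    simp only [Av]
    have h1 := ha.nonneg F
    have h2 := ha.le_one F
    nlinarith
  | succ m ih =>
    intro F
    have h1 := ih (true :: F)
    have h2 := ih (false :: F)
    rw [Av]
    linarith

theorem claim {a : List Bool → ℝ} (ha : Mart a) (F : List Bool) (g : List Bool → ℝ)
    (h : ∀ J, F <:+ J → ∃ k, g J ≤ Av k J (fun I => a I ^ 2)) (m : ℕ) : ∀ F', F <:+ F' →
    ∃ K, Av m F' g ≤ Av (m + K) F' (fun I => a I ^ 2) := by
  induction m with
  | zero =>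
    intro F' hF'
    obtain ⟨k, hk⟩ := h F' hF'
    refine ⟨k, ?_⟩
    rw [Nat.zero_add]
    exact hk
  | succ m ih =>
    intro F' hF'
    obtain ⟨K1, h1⟩ := ih (true :: F') (hF'.trans (List.suffix_cons _ _))
    obtain ⟨K2, h2⟩ := ih (false :: F') (hF'.trans (List.suffix_cons _ _))
    refine ⟨max K1 K2, ?_⟩
    have h3 : Av (m + K1) (true :: F') (fun I => a I ^ 2) ≤
        Av (m + max K1 K2) (true :: F') (fun I => a I ^ 2) :=
      mono ha _ (by omega)
    have h4 : Av (m + K2) (false :: F') (fun I => a I ^ 2) ≤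
        Av (m + max K1 K2) (false :: F') (fun I => a I ^ 2) :=
      mono ha _ (by omega)
    have h5 : m + 1 + max K1 K2 = (m + max K1 K2) + 1 := by omega
    rw [h5, Av, Av]
    linarith

end EN1

theorem prf_EN1 : S_EN1 := by
  intro a ha F hF θ hθ
  by_contra hcon
  have hc : 0 < a F / 2 := by linarith
  have hno : ∀ J, F <:+ J → a F / 2 ≤ a J → ∃ k, (1 + θ) * a J ^ 2 <
      Av k J (fun I => a I ^ 2) := by
    intro J h1 h2
    by_contra h3
    rw [not_exists] at h3
    exact hcon ⟨J, h1, h2, fun k => not_lt.1 (h3 k)⟩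
  have hbase : ∀ J, F <:+ J → ∃ k, a J ^ 2 + θ * (a F / 2) * (a J - a F / 2) ≤
      Av k J (fun I => a I ^ 2) := by
    intro J hJ
    rcases lt_or_ge (a J) (a F / 2) with h | h
    · refine ⟨0, ?_⟩
      simp only [Av]
      have : θ * (a F / 2) * (a J - a F / 2) ≤ 0 :=
        mul_nonpos_of_nonneg_of_nonpos (mul_pos hθ hc).le (by linarith)
      linarith
    · obtain ⟨k, hk⟩ := hno J hJ h
      refine ⟨k, le_trans ?_ hk.le⟩
      have h1 : a F / 2 * (a J - a F / 2) ≤ a J ^ 2 := by nlinarith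
      have h2 : θ * (a F / 2 * (a J - a F / 2)) ≤ θ * a J ^ 2 :=
        mul_le_mul_of_nonneg_left h1 hθ.le
      nlinarith
  have hiter : ∀ t : ℕ, ∃ m, t * (θ * (a F / 2) * (a F / 2)) ≤ Av m F (fun I => a I ^ 2) := by
    intro t
    induction t with
    | zero =>
      refine ⟨0, ?_⟩
      simp only [Av]
      have := sq_nonneg (a F)
      simpa using this
    | succ t ih =>
      obtain ⟨m, hm⟩ := ih
      obtain ⟨K, hK⟩ := EN1.claim ha F _ hbase m F (List.suffix_refl F)
      refine ⟨m + K, le_trans ?_ hK⟩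
      have h1 := EN1.lin ha (θ * (a F / 2)) (a F / 2) m F
      rw [h1]
      push_cast
      have h2 : a F - a F / 2 = a F / 2 := by ring
      rw [h2]
      linarith
  have hpos : 0 < θ * (a F / 2) * (a F / 2) := mul_pos (mul_pos hθ hc) hc
  obtain ⟨t, ht⟩ := exists_nat_gt (1 / (θ * (a F / 2) * (a F / 2)))
  obtain ⟨m, hm⟩ := hiter t
  rw [div_lt_iff₀ hpos] at ht
  have := EN1.le_one ha m F
  linarith

end MPbb13ef

end

section

/-!
# EN2: splitting at a node of small energy increment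
-/

set_option autoImplicit false

open Filter Topology

namespace MPbb13ef

namespace EN2

theorem Av_add (n : ℕ) (F : List Bool) (Φ Ψ : List Bool → ℝ) :
    Av n F (fun I => Φ I + Ψ I) = Av n F Φ + Av n F Ψ := by
  induction n generalizing F with
  | zero => rfl
  | succ n ih =>
    show (Av n (true :: F) _ + Av n (false :: F) _) / 2 =
      (Av n (true :: F) Φ + Av n (false :: F) Φ) / 2 + (Av n (true :: F) Ψ + Av n (false :: F) Ψ) / 2
    rw [ih, ih]
    ring

theorem Av_smul (n : ℕ) (F : List Bool) (c : ℝ) (Φ : List Bool → ℝ) :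
    Av n F (fun I => c * Φ I) = c * Av n F Φ := by
  induction n generalizing F with
  | zero => rfl
  | succ n ih =>
    show (Av n (true :: F) _ + Av n (false :: F) _) / 2 =
      c * ((Av n (true :: F) Φ + Av n (false :: F) Φ) / 2)
    rw [ih, ih]
    ring

theorem Av_const (n : ℕ) (F : List Bool) (c : ℝ) : Av n F (fun _ => c) = c := by
  induction n generalizing F with
  | zero => rfl
  | succ n ih =>
    show (Av n (true :: F) _ + Av n (false :: F) _) / 2 = c
    rw [ih, ih]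
    ring

theorem Av_mono (n : ℕ) (F : List Bool) (Φ Ψ : List Bool → ℝ)
    (h : ∀ I, F <:+ I → I.length = F.length + n → Φ I ≤ Ψ I) : Av n F Φ ≤ Av n F Ψ := by
  induction n generalizing F with
  | zero => exact h F (List.suffix_refl F) rfl
  | succ n ih =>
    show (Av n (true :: F) Φ + Av n (false :: F) Φ) / 2 ≤
      (Av n (true :: F) Ψ + Av n (false :: F) Ψ) / 2
    have h1 := ih (true :: F) (fun I hI hl => h I ((List.suffix_cons true F).trans hI) (by
      rw [hl, List.length_cons]; omega))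
    have h2 := ih (false :: F) (fun I hI hl => h I ((List.suffix_cons false F).trans hI) (by
      rw [hl, List.length_cons]; omega))
    linarith

theorem Av_congr (n : ℕ) (F : List Bool) (Φ Ψ : List Bool → ℝ) (h : ∀ I, Φ I = Ψ I) :
    Av n F Φ = Av n F Ψ := by
  have : Φ = Ψ := funext h
  rw [this]

theorem Av_mart (n : ℕ) (F : List Bool) (a : List Bool → ℝ)
    (h : ∀ F, a F = (a (true :: F) + a (false :: F)) / 2) : Av n F a = a F := by
  induction n generalizing F with
  | zero => rfl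
  | succ n ih =>
    show (Av n (true :: F) a + Av n (false :: F) a) / 2 = a F
    rw [ih, ih, h F]

theorem Av_succ' (n : ℕ) (F : List Bool) (Φ : List Bool → ℝ) :
    Av (n + 1) F Φ = Av n F (fun I => (Φ (true :: I) + Φ (false :: I)) / 2) := by
  induction n generalizing F with
  | zero => rfl
  | succ n ih =>
    show (Av (n + 1) (true :: F) Φ + Av (n + 1) (false :: F) Φ) / 2 = _
    rw [ih, ih]
    rfl

/-- variance -/
theorem Av_var (n : ℕ) (F : List Bool) (Φ : List Bool → ℝ) (c : ℝ) :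
    Av n F (fun I => (Φ I - c) ^ 2) = Av n F (fun I => Φ I ^ 2) - 2 * c * Av n F Φ + c ^ 2 := by
  have h1 : Av n F (fun I => (Φ I - c) ^ 2) =
      Av n F (fun I => Φ I ^ 2 + ((-2 * c) * Φ I + c ^ 2)) :=
    Av_congr n F _ _ fun I => by ring
  rw [h1, Av_add n F (fun I => Φ I ^ 2) (fun I => (-2 * c) * Φ I + c ^ 2),
    Av_add n F (fun I => (-2 * c) * Φ I) (fun _ => c ^ 2), Av_smul, Av_const]
  ring

theorem Av_nonneg (n : ℕ) (F : List Bool) (Φ : List Bool → ℝ) (h : ∀ I, 0 ≤ Φ I) :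
    0 ≤ Av n F Φ := by
  have := Av_mono n F (fun _ => 0) Φ (fun I _ _ => h I)
  rwa [Av_const] at this

/-- Cauchy-Schwarz -/
theorem Av_cs (n : ℕ) (F : List Bool) (Φ : List Bool → ℝ) :
    (Av n F Φ) ^ 2 ≤ Av n F (fun I => Φ I ^ 2) := by
  have h1 := Av_nonneg n F (fun I => (Φ I - Av n F Φ) ^ 2) (fun I => sq_nonneg _)
  rw [Av_var] at h1
  nlinarith

theorem main (G : Set (List Bool)) (a : List Bool → ℝ) (ha : Mart a) (J : List Bool) (θ : ℝ)
    (h0 : 0 < a J) (hen : ∀ k, Av k J (fun I => a I ^ 2) ≤ (1 + θ) * a J ^ 2) (k : ℕ)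
    (hno : ¬ ∃ I ∈ G, I.length = J.length + k ∧ J <:+ I ∧ 0 < a (true :: I) ∧
      0 < a (false :: I)) : (Av k J (ind G)) ^ 2 ≤ 4 * θ := by
  have hind : ∀ I, ind G I = 0 ∨ ind G I = 1 := by
    intro I
    unfold ind
    by_cases h : I ∈ G
    · right
      rw [Set.indicator_of_mem h]; rfl
    · left
      rw [Set.indicator_of_notMem h]
  have hmart : Av k J a = a J := Av_mart k J a ha.avg
  have hJ2 : a J ^ 2 ≤ Av k J (fun I => a I ^ 2) := by
    have h := Av_nonneg k J (fun I => (a I - a J) ^ 2) (fun I => sq_nonneg _)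
    rw [Av_var, hmart] at h
    nlinarith
  have hstep : Av k J (fun I => ind G I * a I ^ 2) ≤ θ * a J ^ 2 := by
    have h1 : Av k J (fun I => ind G I * a I ^ 2) ≤
        Av k J (fun I => ((a (true :: I) - a (false :: I)) / 2) ^ 2) := by
      apply Av_mono
      intro I hI hl
      by_cases h : I ∈ G
      · have hz : a (true :: I) = 0 ∨ a (false :: I) = 0 := by
          by_contra hc
          rw [not_or] at hc
          exact hno ⟨I, h, hl, hI, lt_of_le_of_ne (ha.nonneg _) (Ne.symm hc.1),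
            lt_of_le_of_ne (ha.nonneg _) (Ne.symm hc.2)⟩
        have hi : ind G I = 1 := by
          unfold ind
          rw [Set.indicator_of_mem h]; rfl
        rw [hi, ha.avg I]
        rcases hz with hz | hz
        · rw [hz]
          apply le_of_eq
          ring
        · rw [hz]
          apply le_of_eq
          ring
      · have hi : ind G I = 0 := by
          unfold ind
          rw [Set.indicator_of_notMem h]
        rw [hi, zero_mul]
        exact sq_nonneg _
    have h2 : Av (k + 1) J (fun I => a I ^ 2) = Av k J (fun I => a I ^ 2) +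
        Av k J (fun I => ((a (true :: I) - a (false :: I)) / 2) ^ 2) := by
      rw [Av_succ', ← Av_add]
      apply Av_congr
      intro I
      rw [ha.avg I]
      ring
    have h3 := hen (k + 1)
    rw [h2] at h3
    nlinarith
  have hp : (Av k J (fun I => ind G I * a I)) ^ 2 ≤ θ * a J ^ 2 := by
    refine (Av_cs k J _).trans ?_
    have : Av k J (fun I => (ind G I * a I) ^ 2) = Av k J (fun I => ind G I * a I ^ 2) := by
      apply Av_congr
      intro I
      rcases hind I with h | h <;> rw [h] <;> ring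
    rw [this]
    exact hstep
  have hq : (Av k J (fun I => |a I - a J|)) ^ 2 ≤ θ * a J ^ 2 := by
    refine (Av_cs k J _).trans ?_
    have : Av k J (fun I => |a I - a J| ^ 2) = Av k J (fun I => (a I - a J) ^ 2) := by
      apply Av_congr
      intro I
      exact sq_abs _
    rw [this, Av_var, hmart]
    have := hen k
    nlinarith
  have hd : a J * Av k J (ind G) ≤
      Av k J (fun I => ind G I * a I) + Av k J (fun I => |a I - a J|) := by
    have h1 : a J * Av k J (ind G) = Av k J (fun I => a J * ind G I) := (Av_smul k J _ _).symm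
    rw [h1, ← Av_add]
    apply Av_mono
    intro I _ _
    have h2 : a J - a I ≤ |a I - a J| := by
      rw [abs_sub_comm]
      exact le_abs_self _
    have h3 := abs_nonneg (a I - a J)
    rcases hind I with h | h
    · rw [h]
      linarith
    · rw [h]
      linarith
  have hd0 : 0 ≤ Av k J (ind G) := by
    apply Av_nonneg
    intro I
    rcases hind I with h | h <;> rw [h]
    exact zero_le_one
  set d := Av k J (ind G)
  set p := Av k J (fun I => ind G I * a I)
  set q := Av k J (fun I => |a I - a J|)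
  have h5 : (a J * d) ^ 2 ≤ (p + q) ^ 2 := pow_le_pow_left₀ (mul_nonneg h0.le hd0) hd 2
  have h6 : a J ^ 2 * d ^ 2 ≤ a J ^ 2 * (4 * θ) := by
    nlinarith [sq_nonneg (p - q)]
  exact le_of_mul_le_mul_left h6 (by positivity)

end EN2

theorem prf_EN2 : S_EN2 := by
  intro G U a hU hD ha J θ h0 hθ h4 hen
  by_contra hc
  rw [Filter.not_eventually] at hc
  have h1 : ∀ᶠ n in U, J.length ≤ n := hU (Filter.eventually_ge_atTop _)
  have h2 : ∃ᶠ n in U, (Av (n - J.length) J (ind G)) ^ 2 ≤ 4 * θ := by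
    refine (hc.and_eventually h1).mono ?_
    rintro n ⟨hn, hl⟩
    apply EN2.main G a ha J θ h0 hen
    intro h
    apply hn
    have h3 : J.length + (n - J.length) = n := by omega
    rw [h3] at h
    exact h
  have h3 : a J ^ 2 ≤ 4 * θ := le_of_tendsto_of_frequently ((hD J).pow 2) h2
  linarith

end MPbb13ef

end

section

/-!
# Item IND: independent functionals
-/

set_option autoImplicit false

open Filter Topology

namespace MPbb13ef

theorem prf_IND (hT : S_TREE) (hP : S_PIG) (hC : S_COMB) : S_IND := by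
  intro X _ _ C 𝒴 κ hκ hne hb hS
  obtain ⟨y, α, hy, hα0, hαx, hαA, hαL⟩ := hT X C 𝒴 κ (κ / 4) hne hS (by positivity)
  have hα1 : ∀ L, |α L| ≤ 1 := by
    intro L
    cases L with
    | nil => rw [hα0]; simp
    | cons b I =>
      obtain ⟨x, hx, h⟩ := hαx b I
      rw [h]
      exact hb _ (hy _) x hx
  obtain ⟨a₀, κ', hκ', hG⟩ := hP α κ hκ hα1 hαA
  obtain ⟨ν, _, hL⟩ := hC {I | α (false :: I) < a₀ ∧ a₀ + κ < α (true :: I)} κ' hκ' hG
  refine ⟨fun i => y (ν i), a₀ + κ / 4, κ / 2, fun n => hy _, by positivity, fun k s => ?_⟩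
  obtain ⟨L, hLk⟩ := hL k s
  obtain ⟨x, hx, hxL⟩ := hαL L
  refine ⟨x, hx, fun i hi => ?_⟩
  obtain ⟨I, hI, hIl, hIs⟩ := hLk i hi
  have h := hxL (s i) I hIs
  rw [hIl] at h
  have h1 := hI.1
  have h2 := hI.2
  constructor
  · intro hs
    rw [hs] at h
    have h3 := (abs_lt.1 h).1
    show a₀ + κ / 4 + κ / 2 < y (ν i) x
    linarith
  · intro hs
    rw [hs] at h
    have h3 := (abs_lt.1 h).2
    show y (ν i) x < a₀ + κ / 4
    linarith

end MPbb13ef

end

section

/-! L1C: an independent sequence gives a copy of `ℓ₁` -/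

set_option autoImplicit false

namespace MPbb13ef

namespace L1C

theorem hasSum_abs (a : lp (fun _ : ℕ => ℝ) 1) : HasSum (fun n => |a n|) ‖a‖ := by
  have hp : 0 < (1 : ENNReal).toReal := by simp
  have hs := (lp.memℓp a).summable hp
  have hn := lp.norm_eq_tsum_rpow hp a
  simp only [ENNReal.toReal_one, Real.rpow_one, div_one, Real.norm_eq_abs] at hs hn
  rw [hn]
  exact hs.hasSum

theorem sg_mul (r : ℝ) : |r| * sg (decide (0 ≤ r)) = r := by
  unfold sg
  by_cases h : 0 ≤ r
  · simp [h, abs_of_nonneg h]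
  · have h' : r < 0 := not_le.mp h
    simp [h, abs_of_neg h']

end L1C

open L1C in
theorem prf_L1C : S_L1C := by
  intro X _ _ _ x M c hc hx hind
  have hnorm : ∀ a : lp (fun _ : ℕ => ℝ) 1, ∀ n, ‖a n • x n‖ ≤ M * |a n| := by
    intro a n
    rw [norm_smul, Real.norm_eq_abs, mul_comm]
    exact mul_le_mul_of_nonneg_right (hx n) (abs_nonneg _)
  have hsumM : ∀ a : lp (fun _ : ℕ => ℝ) 1, HasSum (fun n => M * |a n|) (M * ‖a‖) := fun a =>
    (hasSum_abs a).mul_left M
  have hsum : ∀ a : lp (fun _ : ℕ => ℝ) 1, Summable fun n => a n • x n := fun a =>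
    Summable.of_norm_bounded (hsumM a).summable (hnorm a)
  let L : lp (fun _ : ℕ => ℝ) 1 →ₗ[ℝ] X :=
    { toFun := fun a => ∑' n, a n • x n
      map_add' := by
        intro a b
        rw [← (hsum a).tsum_add (hsum b)]
        congr 1
        funext n
        simp [add_smul]
      map_smul' := by
        intro r a
        simp only [RingHom.id_apply]
        rw [← (hsum a).tsum_const_smul r]
        congr 1
        funext n
        simp [mul_smul] }
  have hL : ∀ a, ‖L a‖ ≤ M * ‖a‖ := by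
    intro a
    exact tsum_of_norm_bounded (hsumM a) (hnorm a)
  refine ⟨L.mkContinuous M hL, c, hc, ?_⟩
  intro a
  have h1 : Filter.Tendsto (fun n => ‖∑ i ∈ Finset.range n, a i • x i‖) Filter.atTop
      (nhds ‖L.mkContinuous M hL a‖) := by
    have := (hsum a).hasSum.tendsto_sum_nat
    exact this.norm
  have h2 : Filter.Tendsto (fun n => c * ∑ i ∈ Finset.range n, |a i|) Filter.atTop
      (nhds (c * ‖a‖)) := ((hasSum_abs a).tendsto_sum_nat).const_mul _
  refine le_of_tendsto_of_tendsto' h2 h1 ?_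
  intro n
  obtain ⟨e, he, hs⟩ := hind n (fun i => decide (0 ≤ a i))
  calc c * ∑ i ∈ Finset.range n, |a i|
      = ∑ i ∈ Finset.range n, |a i| * c := by rw [Finset.mul_sum]; congr 1; funext i; ring
    _ ≤ ∑ i ∈ Finset.range n, |a i| * (sg (decide (0 ≤ a i)) * e (x i)) := by
        refine Finset.sum_le_sum fun i hi => ?_
        exact mul_le_mul_of_nonneg_left (hs i (Finset.mem_range.mp hi)).le (abs_nonneg _)
    _ = e (∑ i ∈ Finset.range n, a i • x i) := by
        rw [map_sum]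
        refine Finset.sum_congr rfl fun i _ => ?_
        rw [map_smul, smul_eq_mul, ← mul_assoc, sg_mul]
    _ ≤ ‖e (∑ i ∈ Finset.range n, a i • x i)‖ := le_abs_self _
    _ ≤ ‖e‖ * ‖∑ i ∈ Finset.range n, a i • x i‖ := e.le_opNorm _
    _ ≤ ‖∑ i ∈ Finset.range n, a i • x i‖ :=
        mul_le_of_le_one_left (norm_nonneg _) he

end MPbb13ef

end

section

set_option autoImplicit false

open Filter Topology

namespace MPbb13ef

namespace LD

lemma sg_abs (b : Bool) : |sg b| = 1 := by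
  cases b <;> simp [sg]

lemma sg_mul_self (b : Bool) : sg b * sg b = 1 := by
  cases b <;> simp [sg]

lemma summable_abs (a : lp (fun _ : ℕ => ℝ) 1) : Summable (fun k => |a k|) := by
  have h := lp.memℓp a
  have := h.summable (by simp)
  simpa using this

lemma norm_eq (a : lp (fun _ : ℕ => ℝ) 1) : ‖a‖ = ∑' k, |a k| := by
  have := lp.norm_eq_tsum_rpow (p := 1) (by simp) a
  simpa using this

lemma summable_sg (r : ℕ → Bool) (a : lp (fun _ : ℕ => ℝ) 1) :
    Summable (fun k => sg (r k) * a k) := by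
  apply Summable.of_norm
  have := summable_abs a
  refine this.congr (fun k => ?_)
  rw [Real.norm_eq_abs, abs_mul, sg_abs, one_mul]

/-- the functional given by signs -/
noncomputable def phi (r : ℕ → Bool) : lp (fun _ : ℕ => ℝ) 1 →ₗ[ℝ] ℝ where
  toFun a := ∑' k, sg (r k) * a k
  map_add' a b := by
    rw [← (summable_sg r a).tsum_add (summable_sg r b)]
    congr 1; ext k
    simp [mul_add]
  map_smul' c a := by
    simp only [RingHom.id_apply, smul_eq_mul]
    rw [← tsum_mul_left]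
    congr 1; ext k
    simp; ring

lemma phi_le (r : ℕ → Bool) (a : lp (fun _ : ℕ => ℝ) 1) : |phi r a| ≤ ‖a‖ := by
  rw [norm_eq]
  show |∑' k, sg (r k) * a k| ≤ _
  have h1 : Summable (fun k => ‖sg (r k) * a k‖) := by
    refine (summable_abs a).congr (fun k => ?_)
    rw [Real.norm_eq_abs, abs_mul, sg_abs, one_mul]
  have h2 := norm_tsum_le_tsum_norm h1
  rw [Real.norm_eq_abs] at h2
  refine le_trans h2 (le_of_eq ?_)
  congr 1; ext k
  rw [Real.norm_eq_abs, abs_mul, sg_abs, one_mul]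

lemma phi_single (r : ℕ → Bool) (j : ℕ) : phi r (lp.single 1 j (1 : ℝ)) = sg (r j) := by
  show ∑' k, sg (r k) * (lp.single 1 j (1 : ℝ) : lp (fun _ : ℕ => ℝ) 1) k = sg (r j)
  rw [tsum_eq_single j]
  · simp
  · intro k hk
    simp [lp.single_apply, hk]

end LD

open LD in
theorem prf_LD (hL : S_L1C) : S_LD := by
  intro Y _ _ hY
  obtain ⟨S, c, hc, hS⟩ := hY
  have hinj : Function.Injective S := by
    intro a b hab
    have h := hS (a - b)
    rw [map_sub, hab, sub_self, norm_zero] at h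
    have : ‖a - b‖ ≤ 0 := by
      by_contra hcon
      push Not at hcon
      nlinarith
    rw [norm_le_zero_iff] at this
    exact sub_eq_zero.1 this
  obtain ⟨e, he⟩ := exists_surjective_nat (Finset ℕ)
  let r : ℕ → ℕ → Bool := fun i k => decide (i ∈ e k)
  -- the functionals
  have hg : ∀ n, ∃ g : Y →L[ℝ] ℝ, ‖g‖ ≤ c⁻¹ ∧ ∀ k, g (S (lp.single 1 k (1 : ℝ))) = sg (r n k) := by
    intro n
    let E := LinearEquiv.ofInjective (S : lp (fun _ : ℕ => ℝ) 1 →ₗ[ℝ] Y) hinj
    let f₀ : LinearMap.range (S : lp (fun _ : ℕ => ℝ) 1 →ₗ[ℝ] Y) →ₗ[ℝ] ℝ :=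
      (phi (r n)).comp (E.symm : _ →ₗ[ℝ] lp (fun _ : ℕ => ℝ) 1)
    have hf₀ : ∀ y, ‖f₀ y‖ ≤ c⁻¹ * ‖y‖ := by
      intro y
      obtain ⟨a, rfl⟩ := E.surjective y
      have e1 : f₀ (E a) = phi (r n) a := by simp [f₀]
      have e2 : ‖E a‖ = ‖S a‖ := rfl
      rw [e1, e2, Real.norm_eq_abs]
      have e3 := phi_le (r n) a
      have e4 := hS a
      rw [inv_mul_eq_div, le_div_iff₀ hc]
      nlinarith
    let f := f₀.mkContinuous c⁻¹ hf₀
    obtain ⟨g, hg1, hg2⟩ := exists_extension_norm_eq _ f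
    refine ⟨g, ?_, ?_⟩
    · rw [hg2]
      exact LinearMap.mkContinuous_norm_le _ (inv_nonneg.2 hc.le) _
    · intro k
      have e1 := hg1 (E (lp.single 1 k (1 : ℝ)))
      have e2 : ((E (lp.single 1 k (1 : ℝ)) : LinearMap.range (S : lp (fun _ : ℕ => ℝ) 1 →ₗ[ℝ] Y)) : Y)
        = S (lp.single 1 k (1 : ℝ)) := rfl
      rw [e2] at e1
      rw [e1]
      show f₀ (E (lp.single 1 k (1 : ℝ))) = _
      have e3 : f₀ (E (lp.single 1 k (1 : ℝ))) = phi (r n) (lp.single 1 k (1 : ℝ)) := by simp [f₀]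
      rw [e3, phi_single]
  choose g hg1 hg2 using hg
  have hS1 : 0 < ‖S‖ + 1 := by positivity
  refine hL (Y →L[ℝ] ℝ) g c⁻¹ (1 / (2 * (‖S‖ + 1))) (by positivity) hg1 ?_
  intro n s
  obtain ⟨k, hk⟩ := he ((Finset.range n).filter (fun i => s i = true))
  have hrk : ∀ i < n, r i k = s i := by
    intro i hi
    simp only [r, hk, Finset.mem_filter, Finset.mem_range, hi, true_and]
    cases s i <;> simp
  refine ⟨(‖S‖ + 1)⁻¹ • (ContinuousLinearMap.apply ℝ ℝ (S (lp.single 1 k (1 : ℝ)))), ?_, ?_⟩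
  · apply ContinuousLinearMap.opNorm_le_bound _ zero_le_one
    intro h
    rw [ContinuousLinearMap.smul_apply, ContinuousLinearMap.apply_apply, norm_smul, norm_inv,
      Real.norm_eq_abs, abs_of_pos hS1, one_mul, inv_mul_eq_div, div_le_iff₀ hS1]
    have e1 := h.le_opNorm (S (lp.single 1 k (1 : ℝ)))
    have e2 := S.le_opNorm (lp.single 1 k (1 : ℝ))
    have e3 : ‖(lp.single 1 k (1 : ℝ) : lp (fun _ : ℕ => ℝ) 1)‖ = 1 := by
      rw [lp.norm_single (by simp)]; simp
    rw [e3, mul_one] at e2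
    have e4 := norm_nonneg h
    nlinarith
  · intro i hi
    rw [ContinuousLinearMap.smul_apply, ContinuousLinearMap.apply_apply, hg2, hrk i hi, smul_eq_mul]
    have : sg (s i) * ((‖S‖ + 1)⁻¹ * sg (s i)) = (‖S‖ + 1)⁻¹ * (sg (s i) * sg (s i)) := by ring
    rw [this, sg_mul_self, mul_one, one_div]
    apply inv_strictAnti₀ hS1
    linarith

end MPbb13ef

end

section

/-!
# Pigeonhole on a grid
-/

set_option autoImplicit false

namespace MPbb13ef

namespace PIG

lemma Av_mono : ∀ (n : ℕ) (F : List Bool) (Φ Ψ : List Bool → ℝ), (∀ I, Φ I ≤ Ψ I) →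
    Av n F Φ ≤ Av n F Ψ
  | 0, F, Φ, Ψ, h => h F
  | n + 1, F, Φ, Ψ, h => by
    have h1 := Av_mono n (true :: F) Φ Ψ h
    have h2 := Av_mono n (false :: F) Φ Ψ h
    simp only [Av]
    linarith

lemma Av_add : ∀ (n : ℕ) (F : List Bool) (Φ Ψ : List Bool → ℝ),
    Av n F (fun I => Φ I + Ψ I) = Av n F Φ + Av n F Ψ
  | 0, _, _, _ => rfl
  | n + 1, F, Φ, Ψ => by
    have h1 := Av_add n (true :: F) Φ Ψ
    have h2 := Av_add n (false :: F) Φ Ψ
    simp only [Av]
    rw [h1, h2]
    ring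

lemma Av_const : ∀ (n : ℕ) (F : List Bool) (c : ℝ), Av n F (fun _ => c) = c
  | 0, _, _ => rfl
  | n + 1, F, c => by
    simp only [Av]
    rw [Av_const n (true :: F) c, Av_const n (false :: F) c]
    ring

lemma Av_smul : ∀ (n : ℕ) (F : List Bool) (c : ℝ) (Φ : List Bool → ℝ),
    Av n F (fun I => c * Φ I) = c * Av n F Φ
  | 0, _, _, _ => rfl
  | n + 1, F, c, Φ => by
    simp only [Av]
    rw [Av_smul n (true :: F) c Φ, Av_smul n (false :: F) c Φ]
    ring

lemma Av_sum {ι : Type} (s : Finset ι) (n : ℕ) (F : List Bool) (Φ : ι → List Bool → ℝ) :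
    Av n F (fun I => ∑ j ∈ s, Φ j I) = ∑ j ∈ s, Av n F (Φ j) := by
  classical
  induction s using Finset.induction_on with
  | empty => simpa using Av_const n F 0
  | insert a s ha ih =>
    simp only [Finset.sum_insert ha]
    rw [Av_add, ih]

end PIG

open PIG in
theorem prf_PIG : S_PIG := by
  classical
  intro α κ hκ hα hav
  by_contra hcon
  push Not at hcon
  set M : ℤ := ⌈2 / κ⌉ + 1 with hM
  set J : Finset ℤ := Finset.Icc (-M) M with hJ
  have hMpos : 0 < M := by
    have : 0 < ⌈2 / κ⌉ := Int.ceil_pos.mpr (by positivity)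
    omega
  have hJne : J.Nonempty := ⟨0, by rw [hJ, Finset.mem_Icc]; omega⟩
  have hcard : (0 : ℝ) < J.card := by exact_mod_cast hJne.card_pos
  let G : ℤ → Set (List Bool) := fun j =>
    {I | α (false :: I) < (j : ℝ) * (κ / 2) ∧ (j : ℝ) * (κ / 2) + κ < α (true :: I)}
  have hN : ∀ j : ℤ, ∃ N : ℕ, ∀ n, N ≤ n → Av n [] (ind (G j)) < κ / J.card := by
    intro j
    exact hcon ((j : ℝ) * (κ / 2)) (κ / J.card) (div_pos hκ hcard)
  choose N hN using hN
  set n : ℕ := J.sup N with hn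
  have h1 := hav n
  -- the pointwise bound
  have h2 : ∀ I : List Bool, α (true :: I) - α (false :: I) ≤
      2 * (∑ j ∈ J, ind (G j) I) + 2 * κ := by
    intro I
    have hnn : ∀ j ∈ J, 0 ≤ ind (G j) I := by
      intro j _
      unfold ind
      exact Set.indicator_nonneg (fun _ _ => zero_le_one) I
    by_cases hI : 2 * κ < α (true :: I) - α (false :: I)
    · have ha1 := abs_le.mp (hα (true :: I))
      have ha2 := abs_le.mp (hα (false :: I))
      set j : ℤ := ⌊α (false :: I) / (κ / 2)⌋ + 1 with hj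
      have hk2 : 0 < κ / 2 := by positivity
      have hf1 : (⌊α (false :: I) / (κ / 2)⌋ : ℝ) ≤ α (false :: I) / (κ / 2) := Int.floor_le _
      have hf2 : α (false :: I) / (κ / 2) < (⌊α (false :: I) / (κ / 2)⌋ : ℝ) + 1 :=
        Int.lt_floor_add_one _
      have hjr : (j : ℝ) = (⌊α (false :: I) / (κ / 2)⌋ : ℝ) + 1 := by rw [hj]; push_cast; ring
      have h3 : α (false :: I) < (j : ℝ) * (κ / 2) := by
        rw [hjr]
        exact (div_lt_iff₀ hk2).mp hf2
      have h4 : ((j : ℝ) - 1) * (κ / 2) ≤ α (false :: I) := by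
        rw [hjr, add_sub_cancel_right]
        exact (le_div_iff₀ hk2).mp hf1
      have hjG : I ∈ G j := by
        refine ⟨h3, ?_⟩
        nlinarith
      have hc1 : 2 / κ ≤ (⌈2 / κ⌉ : ℝ) := Int.le_ceil _
      have hkk : 2 / κ * (κ / 2) = 1 := by field_simp
      have hjJ : j ∈ J := by
        rw [hJ, Finset.mem_Icc]
        have hMr : (M : ℝ) = (⌈2 / κ⌉ : ℝ) + 1 := by rw [hM]; push_cast; ring
        constructor
        · have : (-(M : ℝ)) ≤ (j : ℝ) := by
            by_contra hlt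
            push Not at hlt
            have h5 : (j : ℝ) * (κ / 2) < (-(M : ℝ)) * (κ / 2) :=
              mul_lt_mul_of_pos_right hlt hk2
            have h6 : (M : ℝ) * (κ / 2) ≥ 1 := by
              rw [hMr]
              nlinarith
            nlinarith
          exact_mod_cast this
        · have : (j : ℝ) ≤ (M : ℝ) := by
            by_contra hlt
            push Not at hlt
            have h5 : ((M : ℝ) - 1) * (κ / 2) < ((j : ℝ) - 1) * (κ / 2) :=
              mul_lt_mul_of_pos_right (by linarith) hk2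
            have h6 : ((M : ℝ) - 1) * (κ / 2) ≥ 1 := by
              rw [hMr]
              nlinarith
            linarith
          exact_mod_cast this
      have h7 : (1 : ℝ) ≤ ∑ j ∈ J, ind (G j) I := by
        have h8 : ind (G j) I = 1 := by
          unfold ind
          rw [Set.indicator_of_mem hjG]
          rfl
        rw [← h8]
        exact Finset.single_le_sum hnn hjJ
      linarith
    · have h9 : 0 ≤ ∑ j ∈ J, ind (G j) I := Finset.sum_nonneg hnn
      push Not at hI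
      linarith
  have h3 := Av_mono n [] _ _ h2
  have h4 : Av n [] (fun I => 2 * (∑ j ∈ J, ind (G j) I) + 2 * κ) =
      2 * (∑ j ∈ J, Av n [] (ind (G j))) + 2 * κ := by
    rw [Av_add n [] (fun I => 2 * (∑ j ∈ J, ind (G j) I)) (fun _ => 2 * κ), Av_const,
      Av_smul n [] 2 (fun I => ∑ j ∈ J, ind (G j) I), Av_sum]
  rw [h4] at h3
  have h5 : ∑ j ∈ J, Av n [] (ind (G j)) < ∑ _j ∈ J, κ / J.card := by
    apply Finset.sum_lt_sum_of_nonempty hJne
    intro j hj
    exact hN j n (Finset.le_sup hj)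
  rw [Finset.sum_const, nsmul_eq_mul, mul_div_cancel₀ _ hcard.ne'] at h5
  linarith

end MPbb13ef

end

section

/-!
# Item SRD: subspaces of `Y*` are strongly regular if `Y` does not contain `ℓ₁`
-/

set_option autoImplicit false

open Filter Topology

namespace MPbb13ef

namespace SRD

variable {X Y : Type} [NormedAddCommGroup X] [NormedSpace ℝ X]
  [NormedAddCommGroup Y] [NormedSpace ℝ Y]

/-- the functional `x ↦ J x u / M` -/
noncomputable def ev (J : X →L[ℝ] (Y →L[ℝ] ℝ)) (M : ℝ) (u : Y) : X →L[ℝ] ℝ :=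
  (1 / M) • (ContinuousLinearMap.apply ℝ ℝ u).comp J

theorem ev_apply (J : X →L[ℝ] (Y →L[ℝ] ℝ)) (M : ℝ) (u : Y) (x : X) :
    ev J M u x = (1 / M) * J x u := by
  unfold ev
  simp

end SRD

open SRD in
theorem prf_SRD (hW : S_WOP) (hS : S_STEP) (hI : S_IND) (hL : S_L1C) : S_SRD := by
  intro X Y _ _ _ _ _ J c hc hJ hY
  by_contra hcon
  unfold StronglyRegular at hcon
  push Not at hcon
  obtain ⟨C, hCne, hCcl, hCb, hCc, δ, hδ, hbig⟩ := hcon
  have hBS : BigS C δ := by
    intro n l g a h1 h2 h3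
    obtain ⟨x, y, hx, hy, hxy⟩ := hbig n l g a h1 h2 h3
    exact ⟨x, y, hx, hy, hxy⟩
  have hBW : BigW C δ := hW X C δ hCc hCb hBS
  obtain ⟨R, hR0, hR⟩ : ∃ R : ℝ, 0 < R ∧ ∀ x ∈ C, ‖x‖ ≤ R := by
    obtain ⟨R, hR0, hR⟩ := hCb.exists_pos_norm_le
    exact ⟨R, hR0, hR⟩
  set M : ℝ := ‖J‖ * R + 1 with hM
  have hJ0 : 0 ≤ ‖J‖ := J.opNorm_nonneg
  have hJR : 0 ≤ ‖J‖ * R := mul_nonneg hJ0 hR0.le
  have hM0 : 0 < M := by linarith
  let 𝒴 : Set (X →L[ℝ] ℝ) := {y | ∃ u : Y, ‖u‖ ≤ 1 ∧ y = ev J M u}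
  have hJx : ∀ x ∈ C, ‖J x‖ ≤ ‖J‖ * R := fun x hx =>
    (J.le_opNorm x).trans (mul_le_mul_of_nonneg_left (hR x hx) hJ0)
  have hbd : ∀ y ∈ 𝒴, ∀ x ∈ C, |y x| ≤ 1 := by
    rintro y ⟨u, hu, rfl⟩ x hx
    rw [ev_apply, abs_mul, abs_of_pos (by positivity : (0 : ℝ) < 1 / M)]
    have h1 : |J x u| ≤ ‖J‖ * R := by
      have h2 : ‖J x u‖ ≤ ‖J x‖ * ‖u‖ := (J x).le_opNorm u
      rw [Real.norm_eq_abs] at h2
      have h3 : ‖J x‖ * ‖u‖ ≤ ‖J‖ * R * 1 :=
        mul_le_mul (hJx x hx) hu (norm_nonneg _) hJR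
      linarith
    rw [one_div, ← div_eq_inv_mul, div_le_one hM0]
    linarith
  have hc'0 : 0 < c / M := by positivity
  have hnorm : ∀ (x : X) (r : ℝ), r < c / M * ‖x‖ → ∃ y ∈ 𝒴, r < y x := by
    intro x r hr
    have h1 : M * r < ‖J x‖ := by
      have h2 : M * r < c * ‖x‖ := by
        have h3 : M * r < M * (c / M * ‖x‖) := mul_lt_mul_of_pos_left hr hM0
        have h4 : M * (c / M * ‖x‖) = c * ‖x‖ := by field_simp
        linarith
      exact lt_of_lt_of_le h2 (hJ x)
    obtain ⟨v, hv, hv2⟩ := ContinuousLinearMap.exists_lt_apply_of_lt_opNorm (J x) h1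
    rw [Real.norm_eq_abs] at hv2
    have key : ∀ w : Y, ‖w‖ ≤ 1 → M * r < J x w → ∃ y ∈ 𝒴, r < y x := by
      intro w hw hw2
      refine ⟨ev J M w, ⟨w, hw, rfl⟩, ?_⟩
      rw [ev_apply, one_div, ← div_eq_inv_mul, lt_div_iff₀ hM0, mul_comm]
      exact hw2
    rcases le_total 0 (J x v) with h0 | h0
    · rw [abs_of_nonneg h0] at hv2
      exact key v hv.le hv2
    · rw [abs_of_nonpos h0] at hv2
      refine key (-v) (by rw [norm_neg]; exact hv.le) ?_
      rw [map_neg]
      exact hv2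
  have hκ : 0 < c / M * δ / 4 := by positivity
  have hStep : StepP C 𝒴 (c / M * δ / 4) :=
    hS X C δ (c / M) (c / M * δ / 4) 𝒴 hc'0 (by linarith) hBW hnorm
  obtain ⟨z, a₀, γ, hz, hγ, hind⟩ := hI X C 𝒴 _ hκ hCne hbd hStep
  choose u hu hzu using hz
  apply hY
  refine hL Y u 1 (γ / 2) (by positivity) hu ?_
  intro n s
  obtain ⟨x, hx, hx2⟩ := hind n s
  obtain ⟨x', hx', hx2'⟩ := hind n (fun i => !s i)
  refine ⟨(1 / (2 * M)) • (J x - J x'), ?_, ?_⟩
  · rw [norm_smul, Real.norm_eq_abs, abs_of_pos (by positivity : (0 : ℝ) < 1 / (2 * M))]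
    have h1 : ‖J x - J x'‖ ≤ ‖J‖ * R + ‖J‖ * R :=
      (norm_sub_le _ _).trans (add_le_add (hJx x hx) (hJx x' hx'))
    rw [one_div, ← div_eq_inv_mul, div_le_one (by positivity)]
    linarith
  · intro i hi
    have h1 : ((1 / (2 * M)) • (J x - J x')) (u i) = (z i x - z i x') / 2 := by
      rw [hzu i, ev_apply, ev_apply]
      simp only [ContinuousLinearMap.smul_apply, ContinuousLinearMap.sub_apply, smul_eq_mul]
      field_simp
    rw [h1]
    have h2 := hx2 i hi
    have h3 := hx2' i hi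
    cases hs : s i with
    | true =>
      have h4 := h2.1 hs
      have h5 := h3.2 (by rw [hs]; rfl)
      simp only [sg, if_true, one_mul]
      linarith
    | false =>
      have h4 := h2.2 hs
      have h5 := h3.1 (by rw [hs]; rfl)
      simp only [sg, Bool.false_eq_true, if_false]
      linarith

end MPbb13ef

end

section

/-!
# Item STEP: one step of the construction of the tree
-/

set_option autoImplicit false

open Filter Topology

namespace MPbb13ef

theorem prf_STEP (hV : S_AVV) : S_STEP := by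
  classical
  intro X _ _ C δ c κ 𝒴 hc hκ hB hn n Γ hΓ
  obtain ⟨x, x', hx, hx', hd⟩ := hB (List.Vector Bool n) (fun _ => (1 / 2) ^ n)
    (fun v => Γ v.toList) (fun _ => by positivity) (by
      rw [Finset.sum_const, Finset.card_univ, card_vector, Fintype.card_bool, nsmul_eq_mul]
      push_cast
      rw [← mul_pow]
      norm_num)
    (fun v => hΓ _ v.toList_length)
  obtain ⟨y, hy, hy'⟩ := hn (∑ v : List.Vector Bool n, ((1 : ℝ) / 2) ^ n • (x v - x' v)) (4 * κ)
    (lt_of_le_of_lt hκ (mul_lt_mul_of_pos_left hd hc))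
  refine ⟨y, hy, fun L => if h : L.length = n then x ⟨L, h⟩ else 0,
    fun L => if h : L.length = n then x' ⟨L, h⟩ else 0, ?_, ?_⟩
  · intro L hL
    simp only [dif_pos hL]
    exact ⟨hx ⟨L, hL⟩, hx' ⟨L, hL⟩⟩
  · rw [hV]
    refine lt_of_lt_of_eq hy' ?_
    rw [map_sum, Finset.mul_sum]
    refine Finset.sum_congr rfl fun v _ => ?_
    have hv : v.toList.length = n := v.toList_length
    have hv' : (⟨v.toList, hv⟩ : List.Vector Bool n) = v := rfl
    simp only [dif_pos hv]
    rw [hv', map_smul, smul_eq_mul]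

end MPbb13ef

end

section

/-!
# The tree
-/

set_option autoImplicit false

open Filter Topology

namespace MPbb13ef

namespace TREE

theorem av_congr (Φ Ψ : List Bool → ℝ) : ∀ (n : ℕ) (F : List Bool),
    (∀ I, I.length = F.length + n → Φ I = Ψ I) → Av n F Φ = Av n F Ψ
  | 0, F, h => by
      simp only [Av]
      exact h F (by simp)
  | n + 1, F, h => by
      simp only [Av]
      rw [av_congr Φ Ψ n (true :: F) (fun I hI => h I (by rw [hI]; simp; omega)),
        av_congr Φ Ψ n (false :: F) (fun I hI => h I (by rw [hI]; simp; omega))]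

section

variable {X : Type} [NormedAddCommGroup X] [NormedSpace ℝ X]

/-- the next state -/
def nx (ρ : ℝ) (y : X →L[ℝ] ℝ) (x x' : List Bool → X)
    (Γ : List Bool → List ((X →L[ℝ] ℝ) × ℝ)) : List Bool → List ((X →L[ℝ] ℝ) × ℝ)
  | [] => []
  | b :: I => (y, y (if b = true then x I else x' I) - ρ) ::
      (-y, -(y (if b = true then x I else x' I)) - ρ) :: Γ I

/-- the sequence of states -/
def st (ρ : ℝ) (Y : ℕ → (List Bool → List ((X →L[ℝ] ℝ) × ℝ)) → (X →L[ℝ] ℝ))
    (x x' : ℕ → (List Bool → List ((X →L[ℝ] ℝ) × ℝ)) → List Bool → X) :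
    ℕ → List Bool → List ((X →L[ℝ] ℝ) × ℝ)
  | 0 => fun _ => []
  | n + 1 => nx ρ (Y n (st ρ Y x x' n)) (x n (st ρ Y x x' n)) (x' n (st ρ Y x x' n))
      (st ρ Y x x' n)

end

end TREE

open TREE

theorem prf_TREE : S_TREE := by
  intro X _ _ C 𝒴 κ ρ hC hstep hρ
  obtain ⟨c0, hc0⟩ := hC
  have h : ∀ (n : ℕ) (Γ : List Bool → List ((X →L[ℝ] ℝ) × ℝ)),
      ∃ (y : X →L[ℝ] ℝ) (x x' : List Bool → X),
        (∀ L, L.length = n → (WO C (Γ L)).Nonempty) → (y ∈ 𝒴 ∧
          (∀ L, L.length = n → x L ∈ WO C (Γ L) ∧ x' L ∈ WO C (Γ L)) ∧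
          4 * κ < Av n [] (fun L => y (x L - x' L))) := by
    intro n Γ
    by_cases hP : ∀ L, L.length = n → (WO C (Γ L)).Nonempty
    · obtain ⟨y, hy, x, x', hx, hav⟩ := hstep n Γ hP
      exact ⟨y, x, x', fun _ => ⟨hy, hx, hav⟩⟩
    · exact ⟨0, fun _ => c0, fun _ => c0, fun h => absurd h hP⟩
  choose Y Xf Xf' hs using h
  set G := st ρ Y Xf Xf' with hG
  have hG0 : G 0 = fun _ => [] := rfl
  have hGs : ∀ n b I, G (n + 1) (b :: I) =
      (Y n (G n), Y n (G n) (if b = true then Xf n (G n) I else Xf' n (G n) I) - ρ) ::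
      (-(Y n (G n)), -(Y n (G n) (if b = true then Xf n (G n) I else Xf' n (G n) I)) - ρ) ::
        G n I := fun n b I => rfl
  have hP : ∀ n L, L.length = n → (WO C (G n L)).Nonempty := by
    intro n
    induction n with
    | zero =>
        intro L _
        refine ⟨c0, hc0, ?_⟩
        intro p hp
        rw [hG0] at hp
        simp at hp
    | succ n ih =>
        intro L hL
        cases L with
        | nil => simp at hL
        | cons b I =>
            have hI : I.length = n := by simpa using hL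
            obtain ⟨-, hx, -⟩ := hs n (G n) ih
            obtain ⟨hx1, hx2⟩ := hx I hI
            have hp : (if b = true then Xf n (G n) I else Xf' n (G n) I) ∈ WO C (G n I) := by
              split_ifs
              · exact hx1
              · exact hx2
            refine ⟨(if b = true then Xf n (G n) I else Xf' n (G n) I), hp.1, ?_⟩
            intro q hq
            rw [hGs] at hq
            rcases List.mem_cons.1 hq with rfl | hq
            · simp only
              linarith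
            rcases List.mem_cons.1 hq with rfl | hq
            · simp only [neg_apply]
              linarith
            · exact hp.2 q hq
  refine ⟨fun n => Y n (G n), fun L => match L with
    | [] => 0
    | b :: I => Y I.length (G I.length)
        (if b = true then Xf I.length (G I.length) I else Xf' I.length (G I.length) I),
    fun n => (hs n (G n) (hP n)).1, rfl, ?_, ?_, ?_⟩
  · intro b I
    refine ⟨(if b = true then Xf I.length (G I.length) I else Xf' I.length (G I.length) I), ?_, rfl⟩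
    obtain ⟨hx1, hx2⟩ := (hs I.length (G I.length) (hP _)).2.1 I rfl
    split_ifs
    · exact hx1.1
    · exact hx2.1
  · intro n
    have h1 := (hs n (G n) (hP n)).2.2
    refine lt_of_lt_of_eq h1 (av_congr _ _ n [] ?_)
    intro I hI
    have hI' : I.length = n := by simpa using hI
    subst hI'
    simp
  · intro L
    have key : ∀ (m : ℕ) (L : List Bool), L.length = m → ∀ b I, (b :: I) <:+ L →
        (Y I.length (G I.length), Y I.length (G I.length)
          (if b = true then Xf I.length (G I.length) I else Xf' I.length (G I.length) I) - ρ)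
            ∈ G m L ∧
        (-(Y I.length (G I.length)), -(Y I.length (G I.length)
          (if b = true then Xf I.length (G I.length) I else Xf' I.length (G I.length) I)) - ρ)
            ∈ G m L := by
      intro m
      induction m with
      | zero =>
          intro L hL b I hs'
          have : L = [] := List.length_eq_zero_iff.1 hL
          subst this
          simp at hs'
      | succ m ih =>
          intro L hL b I hs'
          cases L with
          | nil => simp at hL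
          | cons a L' =>
              have hL' : L'.length = m := by simpa using hL
              rcases List.suffix_cons_iff.1 hs' with h1 | h1
              · obtain ⟨rfl, rfl⟩ := List.cons.inj h1
                subst hL'
                rw [hGs]
                exact ⟨List.mem_cons_self, List.mem_cons_of_mem _ List.mem_cons_self⟩
              · obtain ⟨h2, h3⟩ := ih L' hL' b I h1
                rw [hGs]
                exact ⟨List.mem_cons_of_mem _ (List.mem_cons_of_mem _ h2),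
                  List.mem_cons_of_mem _ (List.mem_cons_of_mem _ h3)⟩
    obtain ⟨x, hx⟩ := hP L.length L rfl
    refine ⟨x, hx.1, ?_⟩
    intro b I hbI
    obtain ⟨h1, h2⟩ := key L.length L rfl b I hbI
    have h3 := hx.2 _ h1
    have h4 := hx.2 _ h2
    simp only [neg_apply] at h3 h4
    rw [abs_lt]
    constructor
    · show -ρ < Y I.length (G I.length) x - Y I.length (G I.length)
        (if b = true then Xf I.length (G I.length) I else Xf' I.length (G I.length) I)
      linarith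
    · show Y I.length (G I.length) x - Y I.length (G I.length)
        (if b = true then Xf I.length (G I.length) I else Xf' I.length (G I.length) I) < ρ
      linarith

end MPbb13ef

end
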