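import Pool.Agent.Work.MP_bb13ef_an.SR.Stmts
import Pool.Agent.Work.MP_bb13ef_an.Bd.B02
import Pool.Agent.Work.MP_bb13ef_an.SR.I_SEPA
import Pool.Agent.Work.MP_bb13ef_an.SR.I_NC0

/-! Bundle of small proof modules (one section per former module). -/

section

/-!
# ADPC: two forms of the alternative Daugavet property
-/

set_option autoImplicit false

namespace MPbb13ef

namespace ADPC

theorem le_norm_of {X : Type} [NormedAddCommGroup X] [NormedSpace ℝ X] (f : X →L[ℝ] ℝ)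
    (hf : ‖f‖ ≤ 1) (x : X) : |f x| ≤ ‖x‖ := by
  have h := f.le_opNorm x
  rw [Real.norm_eq_abs] at h
  exact h.trans (mul_le_of_le_one_left (norm_nonneg x) hf)

end ADPC

theorem prf_ADPC : S_ADPC := by
  intro X _ _
  constructor
  · intro hA x y hx hy ε hε
    by_contra hne
    obtain ⟨h, b, hb1, hb2⟩ := geometric_hahn_banach_closed_point
      ((convex_convexHull ℝ _).closure) isClosed_closure hne
    obtain ⟨y', f, hy', hf, hfx, hfy⟩ := hA x h b ⟨y, hy, hb2⟩ (ε / 2) (by linarith)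
    have hmem : y' ∈ {z : X | ‖z‖ ≤ 1 ∧ ∃ s : Bool, 1 + ‖x‖ - ε < ‖x + sg s • z‖} := by
      refine ⟨hy'.1, ?_⟩
      rcases le_total 0 (f y') with h0 | h0
      · refine ⟨true, ?_⟩
        rw [abs_of_nonneg h0] at hfy
        have h1 := ADPC.le_norm_of f hf (x + sg true • y')
        have h2 : f (x + sg true • y') = f x + f y' := by simp [sg]
        have h3 := le_abs_self (f (x + sg true • y'))
        linarith
      · refine ⟨false, ?_⟩
        rw [abs_of_nonpos h0] at hfy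
        have h1 := ADPC.le_norm_of f hf (x + sg false • y')
        have h2 : f (x + sg false • y') = f x - f y' := by
          simp only [sg, map_add, map_smul, smul_eq_mul]
          simp only [Bool.false_eq_true, if_false]
          ring
        have h3 := le_abs_self (f (x + sg false • y'))
        linarith
    have h4 := hb1 y' (subset_closure (subset_convexHull ℝ _ hmem))
    exact absurd hy'.2 (not_lt.2 h4.le)
  · intro hA w g a hz ε hε
    obtain ⟨z, hz1, hz2⟩ := hz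
    have hw : 0 < 1 + ‖w‖ := by positivity
    set x : X := (1 + ‖w‖)⁻¹ • w with hx
    have hxn : ‖x‖ = (1 + ‖w‖)⁻¹ * ‖w‖ := by
      rw [hx, norm_smul, Real.norm_eq_abs, abs_of_pos (inv_pos.2 hw)]
    have hx1 : ‖x‖ ≤ 1 := by
      rw [hxn, inv_mul_le_iff₀ hw]
      linarith
    have he : 0 < ε / (1 + ‖w‖) := div_pos hε hw
    have hex : ∃ y ∈ {z : X | ‖z‖ ≤ 1 ∧ ∃ s : Bool,
        1 + ‖x‖ - ε / (1 + ‖w‖) < ‖x + sg s • z‖}, a < g y := by
      by_contra hno
      push Not at hno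
      have h1 : closure (convexHull ℝ {z : X | ‖z‖ ≤ 1 ∧ ∃ s : Bool,
          1 + ‖x‖ - ε / (1 + ‖w‖) < ‖x + sg s • z‖}) ⊆ {y | g y ≤ a} := by
        refine closure_minimal (convexHull_min (fun y hy => hno y hy) ?_) ?_
        · exact convex_halfSpace_le g.toLinearMap.isLinear a
        · exact isClosed_le g.continuous continuous_const
      have h2 := h1 (hA x z hx1 hz1 _ he)
      exact absurd hz2 (not_lt.2 h2)
    obtain ⟨y, ⟨hy1, s, hs⟩, hay⟩ := hex
    obtain ⟨f, hf, hfx⟩ := exists_dual_vector'' ℝ (x + sg s • y)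
    have hf1 : f (x + sg s • y) = f x + sg s * f y := by
      have h1 := map_add f x (sg s • y)
      have h2 := map_smul f (sg s) y
      rw [smul_eq_mul] at h2
      rw [h1, h2]
    have hfx' : f x + sg s * f y = ‖x + sg s • y‖ := by
      rw [← hf1, hfx]
      rfl
    have h1 : |f x| ≤ ‖x‖ := ADPC.le_norm_of f hf x
    have h2 : |f y| ≤ 1 := (ADPC.le_norm_of f hf y).trans hy1
    have h3 : sg s * f y ≤ |f y| := by
      cases s
      · simp only [sg, Bool.false_eq_true, if_false]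
        have := neg_abs_le (f y)
        linarith
      · simp only [sg, if_true]
        have := le_abs_self (f y)
        linarith
    have h4 := le_abs_self (f x)
    have h5 : ‖x‖ - ε / (1 + ‖w‖) < f x := by linarith
    have h6 : 1 - ε / (1 + ‖w‖) < |f y| := by linarith
    have h7 : ε / (1 + ‖w‖) ≤ ε := by
      apply div_le_self hε.le
      linarith [norm_nonneg w]
    refine ⟨y, f, ⟨hy1, hay⟩, hf, ?_, by linarith⟩
    have h8 : f w = (1 + ‖w‖) * f x := by
      rw [hx, map_smul, smul_eq_mul, ← mul_assoc, mul_inv_cancel₀ hw.ne', one_mul]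
    have h9 : (1 + ‖w‖) * (‖x‖ - ε / (1 + ‖w‖)) = ‖w‖ - ε := by
      rw [hxn]
      field_simp
    rw [h8, ← h9]
    exact mul_lt_mul_of_pos_left h5 hw

end MPbb13ef

end

section

/-!
# BD: the compactness argument in the dual ball
-/

set_option autoImplicit false

namespace MPbb13ef

namespace BD

/-- the constraints -/
structure Cn (X : Type) [NormedAddCommGroup X] [NormedSpace ℝ X] : Type where
  n : ℕ
  l : Fin n → ℝ
  g : Fin n → (X →L[ℝ] ℝ)
  a : Fin n → ℝ
  δ : ℝ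
  small : Small l g a δ
  x : Fin n → X
  hx : ∀ i, InS (g i) (a i) (x i)
  k : ℕ

variable {X : Type} [NormedAddCommGroup X] [NormedSpace ℝ X]

/-- the closed sets -/
def cset (x₀ : X) : Cn X ⊕ ℕ → Set (WeakDual ℝ X)
  | Sum.inl c => {f | ∑ i, c.l i * (1 - |f (c.x i)|) ≤ 2 * c.δ + 1 / ((c.k : ℝ) + 1)}
  | Sum.inr k => {f | ‖x₀‖ - 1 / ((k : ℝ) + 1) ≤ f x₀}

theorem cset_closed (x₀ : X) (j : Cn X ⊕ ℕ) : IsClosed (cset x₀ j) := by
  rcases j with c | k
  · refine isClosed_le ?_ continuous_const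
    refine continuous_finsetSum _ (fun i _ => ?_)
    exact continuous_const.mul (continuous_const.sub (WeakDual.eval_continuous (c.x i)).abs)
  · exact isClosed_le continuous_const (WeakDual.eval_continuous x₀)

/-- the index of a member of the family -/
def idx : Cn X ⊕ ℕ → ℕ
  | Sum.inl c => c.k
  | Sum.inr k => k

end BD

open BD in
theorem prf_BD (hI : S_ITER) (hM : S_MIX) : S_BD := by
  classical
  intro X _ _ hA x₀
  have hK := WeakDual.isCompact_closedBall (𝕜 := ℝ) (E := X) 0 1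
  obtain ⟨f, hf1, hf2⟩ := hK.inter_iInter_nonempty (cset x₀) (cset_closed x₀) (by
    intro u
    let ι : Type := Σ j : {c : Cn X // Sum.inl c ∈ u}, Fin j.1.n
    have hfin : Finite {c : Cn X // Sum.inl c ∈ u} :=
      Finite.of_injective (fun c : {c : Cn X // Sum.inl c ∈ u} =>
        (⟨Sum.inl c.1, c.2⟩ : {z : Cn X ⊕ ℕ // z ∈ u})) (by
          intro c c' h
          have h1 := congrArg Subtype.val h
          exact Subtype.ext (Sum.inl_injective h1))
    have hι : Finite ι := inferInstance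
    let K : ℕ := u.sup idx
    have hε : (0 : ℝ) < 1 / ((K : ℝ) + 1) := by positivity
    have hle : ∀ z ∈ u, 1 / ((K : ℝ) + 1) ≤ 1 / ((idx z : ℝ) + 1) := by
      intro z hz
      have h1 : idx z ≤ K := Finset.le_sup (f := idx) hz
      have h2 : (idx z : ℝ) ≤ K := by exact_mod_cast h1
      exact one_div_le_one_div_of_le (by positivity) (by linarith)
    obtain ⟨f, y, hf, hfx, hy⟩ := hI X hA x₀ ι (fun j => j.1.1.g j.2) (fun j => j.1.1.a j.2)
      (fun j => ⟨j.1.1.x j.2, j.1.1.hx j.2⟩) (1 / ((K : ℝ) + 1)) hε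
    refine ⟨WeakDual.toStrongDual.symm f, ?_, ?_⟩
    · show WeakDual.toStrongDual (WeakDual.toStrongDual.symm f) ∈ Metric.closedBall 0 1
      rw [LinearEquiv.apply_symm_apply, mem_closedBall_zero_iff]
      exact hf
    · rw [Set.mem_iInter₂]
      intro z hz
      rcases z with c | k
      · show ∑ i, c.l i * (1 - |f (c.x i)|) ≤ 2 * c.δ + 1 / ((c.k : ℝ) + 1)
        have h1 := hM X c.n c.l c.g c.a c.δ c.small f (1 / ((K : ℝ) + 1))
          (fun i => y ⟨⟨c, hz⟩, i⟩) hf (fun i => hy ⟨⟨c, hz⟩, i⟩) c.x c.hx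
        have h2 : 1 / ((K : ℝ) + 1) ≤ 1 / ((c.k : ℝ) + 1) := hle _ hz
        linarith
      · show ‖x₀‖ - 1 / ((k : ℝ) + 1) ≤ f x₀
        have h2 : 1 / ((K : ℝ) + 1) ≤ 1 / ((k : ℝ) + 1) := hle _ hz
        linarith)
  have hF : ‖WeakDual.toStrongDual f‖ ≤ 1 := by
    have h1 : WeakDual.toStrongDual f ∈ Metric.closedBall 0 1 := hf1
    rwa [mem_closedBall_zero_iff] at h1
  rw [Set.mem_iInter] at hf2
  refine ⟨WeakDual.toStrongDual f, ⟨hF, ?_⟩, ?_⟩
  · intro n l g a δ hs x hx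
    refine le_of_forall_pos_le_add (fun ε hε => ?_)
    obtain ⟨k, hk⟩ := exists_nat_one_div_lt hε
    have h1 : ∑ i, l i * (1 - |f (x i)|) ≤ 2 * δ + 1 / ((k : ℝ) + 1) :=
      hf2 (Sum.inl ⟨n, l, g, a, δ, hs, x, hx, k⟩)
    show ∑ i, l i * (1 - |f (x i)|) ≤ 2 * δ + ε
    linarith
  · refine le_antisymm ?_ ?_
    · have h1 := (WeakDual.toStrongDual f).le_opNorm x₀
      have h2 : ‖WeakDual.toStrongDual f‖ * ‖x₀‖ ≤ ‖x₀‖ :=
        mul_le_of_le_one_left (norm_nonneg _) hF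
      exact (le_abs_self _).trans (h1.trans h2)
    · refine le_of_forall_pos_le_add (fun ε hε => ?_)
      obtain ⟨k, hk⟩ := exists_nat_one_div_lt hε
      have h1 : ‖x₀‖ - 1 / ((k : ℝ) + 1) ≤ f x₀ := hf2 (Sum.inr k)
      show ‖x₀‖ ≤ f x₀ + ε
      linarith

end MPbb13ef

end

section

set_option autoImplicit false

namespace MPbb13ef

namespace BOU

variable {X : Type} [NormedAddCommGroup X] [NormedSpace ℝ X]

/-- points of slices with small oscillation of `g` and `h` -/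
def DD (g h : X →L[ℝ] ℝ) (η : ℝ) : Set X :=
  {e | ‖e‖ ≤ 1 ∧ ∃ (k : X →L[ℝ] ℝ) (a : ℝ), InS k a e ∧
    ∀ x, InS k a x → |g x - g e| < η / 2 ∧ |h x - h e| < η / 2}

theorem ball_le (g : X →L[ℝ] ℝ) (x : X) (hx : ‖x‖ ≤ 1) : |g x| ≤ ‖g‖ := by
  have h1 := g.le_opNorm x
  rw [Real.norm_eq_abs] at h1
  calc |g x| ≤ ‖g‖ * ‖x‖ := h1
    _ ≤ ‖g‖ * 1 := by gcongr
    _ = ‖g‖ := mul_one _

theorem claim (g h : X →L[ℝ] ℝ) (z : X) (hz : ‖z‖ ≤ 1) (η : ℝ) (hη : 0 < η) :
    (g z, h z) ∈ closure (convexHull ℝ ((fun e => (g e, h e)) '' DD g h η)) := by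
  by_contra hcon
  obtain ⟨φ, c, h1, h2⟩ := geometric_hahn_banach_closed_point
    (convex_convexHull ℝ ((fun e => (g e, h e)) '' DD g h η)).closure isClosed_closure hcon
  obtain ⟨α, hα⟩ : ∃ α : ℝ, α = φ (1, 0) := ⟨_, rfl⟩
  obtain ⟨β, hβ⟩ : ∃ β : ℝ, β = φ (0, 1) := ⟨_, rfl⟩
  have hφ : ∀ u v : ℝ, φ (u, v) = α * u + β * v := by
    intro u v
    have : (u, v) = u • ((1 : ℝ), (0 : ℝ)) + v • ((0 : ℝ), (1 : ℝ)) := by simp
    rw [this, map_add, map_smul, map_smul, hα, hβ, smul_eq_mul, smul_eq_mul]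
    ring
  rw [hφ] at h2
  obtain ⟨M, hM⟩ : ∃ M : ℝ, M = ‖g‖ ^ 2 + ‖h‖ ^ 2 := ⟨_, rfl⟩
  have hM0 : 0 ≤ M := by rw [hM]; positivity
  obtain ⟨R, hR⟩ : ∃ R : ℝ, R = (M + 1) / (2 * (α * g z + β * h z - c)) := ⟨_, rfl⟩
  have hd : 0 < α * g z + β * h z - c := by linarith
  have hRpos : 0 < R := by rw [hR]; positivity
  have hR2 : 2 * R * (α * g z + β * h z - c) = M + 1 := by
    rw [hR]
    field_simp
  obtain ⟨Ψ, hΨ⟩ : ∃ Ψ : X → ℝ, ∀ x, Ψ x = (g x + R * α) ^ 2 + (h x + R * β) ^ 2 :=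
    ⟨_, fun _ => rfl⟩
  have hbdd : BddAbove (Ψ '' {x : X | ‖x‖ ≤ 1}) := by
    refine ⟨(‖g‖ + |R * α|) ^ 2 + (‖h‖ + |R * β|) ^ 2, ?_⟩
    rintro _ ⟨x, hx, rfl⟩
    rw [hΨ]
    have e1 : |g x + R * α| ≤ ‖g‖ + |R * α| := (abs_add_le _ _).trans (by
      have := ball_le g x hx
      linarith)
    have e2 : |h x + R * β| ≤ ‖h‖ + |R * β| := (abs_add_le _ _).trans (by
      have := ball_le h x hx
      linarith)
    have e3 : (g x + R * α) ^ 2 ≤ (‖g‖ + |R * α|) ^ 2 := by
      rw [← sq_abs (g x + R * α)]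
      gcongr
    have e4 : (h x + R * β) ^ 2 ≤ (‖h‖ + |R * β|) ^ 2 := by
      rw [← sq_abs (h x + R * β)]
      gcongr
    linarith
  obtain ⟨θ, hθ⟩ : ∃ θ : ℝ, θ = η ^ 2 / 16 := ⟨_, rfl⟩
  have hθ0 : 0 < θ := by rw [hθ]; positivity
  have hsup : ∀ x : X, ‖x‖ ≤ 1 → Ψ x ≤ sSup (Ψ '' {x : X | ‖x‖ ≤ 1}) := fun x hx =>
    le_csSup hbdd ⟨x, hx, rfl⟩
  have hex : ∃ e : X, ‖e‖ ≤ 1 ∧ sSup (Ψ '' {x : X | ‖x‖ ≤ 1}) - θ < Ψ e ∧ Ψ z ≤ Ψ e := by
    obtain ⟨_, ⟨e, he, rfl⟩, hlt⟩ := exists_lt_of_lt_csSup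
      (⟨Ψ z, z, hz, rfl⟩ : (Ψ '' {x : X | ‖x‖ ≤ 1}).Nonempty)
      (sub_lt_self (sSup (Ψ '' {x : X | ‖x‖ ≤ 1})) hθ0)
    rcases le_or_gt (Ψ z) (Ψ e) with h3 | h3
    · exact ⟨e, he, hlt, h3⟩
    · exact ⟨z, hz, hlt.trans h3, le_refl _⟩
  obtain ⟨e, he, he1, he2⟩ := hex
  have hge := ball_le g e he
  have hhe := ball_le h e he
  have hge2 : (g e) ^ 2 ≤ ‖g‖ ^ 2 := by
    rw [← sq_abs (g e)]
    gcongr
  have hhe2 : (h e) ^ 2 ≤ ‖h‖ ^ 2 := by
    rw [← sq_abs (h e)]
    gcongr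
  have hgt : c < α * g e + β * h e := by
    rw [hΨ, hΨ] at he2
    have h3 : 2 * R * (α * g z + β * h z) ≤ M + 2 * R * (α * g e + β * h e) := by
      nlinarith [sq_nonneg (g z), sq_nonneg (h z)]
    have h4 : 2 * R * c < 2 * R * (α * g e + β * h e) := by nlinarith
    exact lt_of_mul_lt_mul_left h4 (by positivity)
  have hD : e ∈ DD g h η := by
    refine ⟨he, (g e + R * α) • g + (h e + R * β) • h,
      ((g e + R * α) • g + (h e + R * β) • h) e - θ, ⟨he, by linarith⟩, ?_⟩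
    rintro x ⟨hx, hx2⟩
    simp only [ContinuousLinearMap.add_apply, ContinuousLinearMap.smul_apply, smul_eq_mul] at hx2
    have h5 := hsup x hx
    have h6 : (g x - g e) ^ 2 + (h x - h e) ^ 2 < 3 * θ := by
      rw [hΨ] at h5 he1
      nlinarith
    have h7 : 3 * θ < (η / 2) ^ 2 := by
      rw [hθ]
      nlinarith [sq_nonneg η, mul_pos hη hη]
    constructor
    · apply abs_lt_of_sq_lt_sq _ (by positivity)
      nlinarith [sq_nonneg (h x - h e)]
    · apply abs_lt_of_sq_lt_sq _ (by positivity)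
      nlinarith [sq_nonneg (g x - g e)]
  have h8 := h1 (g e, h e) (subset_closure (subset_convexHull ℝ _ ⟨e, hD, rfl⟩))
  rw [hφ] at h8
  linarith

theorem comb {n : ℕ} (g : X →L[ℝ] ℝ) (z : X) (η : ℝ) (l : Fin n → ℝ) (x e : Fin n → X)
    (hl : ∀ i, 0 ≤ l i) (hs : ∑ i, l i = 1) (h1 : ∀ i, |g (x i) - g (e i)| < η / 2)
    (h2 : |g z - ∑ i, l i * g (e i)| < η / 2) : |g (∑ i, l i • x i) - g z| < η := by
  have e1 : g (∑ i, l i • x i) - g z =
      ∑ i, l i * (g (x i) - g (e i)) - (g z - ∑ i, l i * g (e i)) := by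
    rw [map_sum]
    simp only [map_smul, smul_eq_mul, mul_sub, Finset.sum_sub_distrib]
    ring
  have e2 : |∑ i, l i * (g (x i) - g (e i))| ≤ η / 2 := by
    calc |∑ i, l i * (g (x i) - g (e i))| ≤ ∑ i, |l i * (g (x i) - g (e i))| :=
          Finset.abs_sum_le_sum_abs _ _
      _ ≤ ∑ i, l i * (η / 2) := by
          apply Finset.sum_le_sum
          intro i _
          rw [abs_mul, abs_of_nonneg (hl i)]
          exact mul_le_mul_of_nonneg_left (h1 i).le (hl i)
      _ = η / 2 := by rw [← Finset.sum_mul, hs, one_mul]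
  rw [e1]
  calc |∑ i, l i * (g (x i) - g (e i)) - (g z - ∑ i, l i * g (e i))|
      ≤ |∑ i, l i * (g (x i) - g (e i))| + |g z - ∑ i, l i * g (e i)| := abs_sub _ _
    _ < η / 2 + η / 2 := by linarith
    _ = η := by ring

end BOU

theorem prf_BOU : S_BOU := by
  intro X _ _ g h z hz η hη
  have hcl := BOU.claim g h z hz η hη
  rw [Metric.mem_closure_iff] at hcl
  obtain ⟨p, hp, hdist⟩ := hcl (η / 2) (by positivity)
  rw [mem_convexHull_iff_exists_fintype] at hp
  obtain ⟨ι, _, w, q, hw0, hw1, hq, hsum⟩ := hp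
  choose e he heq using hq
  choose hen k a hin hosc using he
  let r : Fin (Fintype.card ι) ≃ ι := (Fintype.equivFin ι).symm
  refine ⟨Fintype.card ι, fun i => w (r i), fun i => k (r i), fun i => a (r i), fun i => hw0 _,
    ?_, fun i => ⟨_, hin (r i)⟩, ?_⟩
  · rw [← hw1]
    exact Equiv.sum_comp r w
  · intro x hx
    have hs1 : ∑ i, w (r i) = 1 := by
      rw [← hw1]
      exact Equiv.sum_comp r w
    have hp1 : p = (∑ i, w (r i) * g (e (r i)), ∑ i, w (r i) * h (e (r i))) := by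
      rw [← hsum, Equiv.sum_comp r (fun j => w j * g (e j)),
        Equiv.sum_comp r (fun j => w j * h (e j))]
      have : ∀ i, w i • q i = (w i * g (e i), w i * h (e i)) := by
        intro i
        rw [← heq i]
        rfl
      simp only [this]
      ext
      · simp [Prod.fst_sum]
      · simp [Prod.snd_sum]
    rw [hp1, Prod.dist_eq, max_lt_iff, Real.dist_eq, Real.dist_eq] at hdist
    refine ⟨BOU.comb g z η _ x (fun i => e (r i)) (fun i => hw0 _) hs1
      (fun i => (hosc (r i) (x i) (hx i)).1) hdist.1, BOU.comb h z η _ x (fun i => e (r i))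
      (fun i => hw0 _) hs1 (fun i => (hosc (r i) (x i) (hx i)).2) hdist.2⟩

end MPbb13ef

end

section

/-!
# CLO: closing off
-/

set_option autoImplicit false

namespace MPbb13ef

namespace CLO

variable {X : Type} [NormedAddCommGroup X] [NormedSpace ℝ X]

/-- one step of the closing off -/
def nxt (Z : X → X → ℕ → Set X) (A : Set X) : Set X :=
  ((A ∪ ⋃ x ∈ A, ⋃ y ∈ A, ⋃ k, Z x y k) ∪
    ⋃ q : ℚ, ⋃ r : ℚ, Set.image2 (fun x y => (q : ℝ) • x + (r : ℝ) • y) A A) ∪ {0}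

theorem nxt_countable (Z : X → X → ℕ → Set X) (hZ : ∀ x y k, (Z x y k).Countable) (A : Set X)
    (hA : A.Countable) : (nxt Z A).Countable := by
  unfold nxt
  refine ((hA.union ?_).union ?_).union (Set.countable_singleton 0)
  · exact hA.biUnion fun x _ => hA.biUnion fun y _ => Set.countable_iUnion fun k => hZ x y k
  · exact Set.countable_iUnion fun q => Set.countable_iUnion fun r => hA.image2 hA _

theorem sub_nxt (Z : X → X → ℕ → Set X) (A : Set X) : A ⊆ nxt Z A :=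
  fun _ hx => Or.inl (Or.inl (Or.inl hx))

/-- the stages -/
def stg (Z : X → X → ℕ → Set X) (A : Set X) : ℕ → Set X
  | 0 => A
  | n + 1 => nxt Z (stg Z A n)

theorem stg_mono (Z : X → X → ℕ → Set X) (A : Set X) : Monotone (stg Z A) :=
  monotone_nat_of_le_succ fun n => sub_nxt Z (stg Z A n)

theorem stg_countable (Z : X → X → ℕ → Set X) (hZ : ∀ x y k, (Z x y k).Countable) (A : Set X)
    (hA : A.Countable) : ∀ n, (stg Z A n).Countable
  | 0 => hA
  | n + 1 => nxt_countable Z hZ _ (stg_countable Z hZ A hA n)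

/-- the union of the stages -/
def tot (Z : X → X → ℕ → Set X) (A : Set X) : Set X := ⋃ n, stg Z A n

theorem common (Z : X → X → ℕ → Set X) (A : Set X) {x y : X} (hx : x ∈ tot Z A)
    (hy : y ∈ tot Z A) : ∃ n, x ∈ stg Z A n ∧ y ∈ stg Z A n := by
  obtain ⟨m, hm⟩ := Set.mem_iUnion.1 hx
  obtain ⟨n, hn⟩ := Set.mem_iUnion.1 hy
  exact ⟨max m n, stg_mono Z A (le_max_left m n) hm, stg_mono Z A (le_max_right m n) hn⟩

theorem tot_Z (Z : X → X → ℕ → Set X) (A : Set X) {x y : X} (hx : x ∈ tot Z A)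
    (hy : y ∈ tot Z A) (k : ℕ) : Z x y k ⊆ tot Z A := by
  obtain ⟨n, h1, h2⟩ := common Z A hx hy
  intro z hz
  refine Set.mem_iUnion.2 ⟨n + 1, Or.inl (Or.inl (Or.inr ?_))⟩
  exact Set.mem_biUnion h1 (Set.mem_biUnion h2 (Set.mem_iUnion.2 ⟨k, hz⟩))

theorem tot_comb (Z : X → X → ℕ → Set X) (A : Set X) {x y : X} (hx : x ∈ tot Z A)
    (hy : y ∈ tot Z A) (q r : ℚ) : (q : ℝ) • x + (r : ℝ) • y ∈ tot Z A := by
  obtain ⟨n, h1, h2⟩ := common Z A hx hy
  refine Set.mem_iUnion.2 ⟨n + 1, Or.inl (Or.inr ?_)⟩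
  exact Set.mem_iUnion.2 ⟨q, Set.mem_iUnion.2 ⟨r, Set.mem_image2_of_mem h1 h2⟩⟩

theorem tot_zero (Z : X → X → ℕ → Set X) (A : Set X) : (0 : X) ∈ tot Z A :=
  Set.mem_iUnion.2 ⟨1, Or.inr rfl⟩

/-- the closed subspace -/
def sub (Z : X → X → ℕ → Set X) (A : Set X) : Submodule ℝ X where
  carrier := closure (tot Z A)
  zero_mem' := subset_closure (tot_zero Z A)
  add_mem' := by
    intro a b ha hb
    refine map_mem_closure₂ continuous_add ha hb fun x hx y hy => ?_
    have h := tot_comb Z A hx hy 1 1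
    simpa using h
  smul_mem' := by
    intro c x hx
    have hc : c ∈ closure (Set.range ((↑) : ℚ → ℝ)) := Rat.denseRange_cast c
    refine map_mem_closure₂ continuous_smul hc hx fun a ha y hy => ?_
    obtain ⟨q, rfl⟩ := ha
    have h := tot_comb Z A hy hy q 0
    simpa using h

end CLO

theorem prf_CLO : S_CLO := by
  intro X _ _ Z hZ A hA
  have hcar : ((CLO.sub Z A : Submodule ℝ X) : Set X) = closure (CLO.tot Z A) := rfl
  have hcount : (CLO.tot Z A).Countable :=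
    Set.countable_iUnion fun n => CLO.stg_countable Z hZ A hA n
  refine ⟨CLO.sub Z A, {x | x ∈ CLO.tot Z A ∧ ‖x‖ ≤ 1}, ?_, ?_, ?_, ?_, ?_, ?_, ?_⟩
  · rw [hcar]
    exact isClosed_closure
  · rw [hcar]
    exact hcount.isSeparable.closure
  · rw [hcar]
    exact fun x hx => subset_closure (Set.mem_iUnion.2 ⟨0, hx⟩)
  · rw [hcar]
    exact fun x hx => subset_closure hx.1
  · exact fun x hx => hx.2
  · intro y hy hy1 ε hε
    have hδ : 0 < min ε 1 := lt_min hε one_pos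
    have hδ1 : min ε 1 ≤ 1 := min_le_right _ _
    have hδε : min ε 1 ≤ ε := min_le_left _ _
    generalize min ε 1 = δ at hδ hδ1 hδε
    have hy' : (1 - δ / 2) • y ∈ CLO.sub Z A := (CLO.sub Z A).smul_mem _ hy
    have hy'' : (1 - δ / 2) • y ∈ closure (CLO.tot Z A) := hy'
    obtain ⟨x, hx, hd⟩ := Metric.mem_closure_iff.1 hy'' (δ / 2) (by linarith)
    rw [dist_eq_norm] at hd
    have h1 : ‖(1 - δ / 2) • y‖ ≤ 1 - δ / 2 := by
      rw [norm_smul, Real.norm_eq_abs, abs_of_nonneg (by linarith)]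
      exact mul_le_of_le_one_right (by linarith) hy1
    refine ⟨x, ⟨hx, ?_⟩, ?_⟩
    · have h2 : x = (1 - δ / 2) • y - ((1 - δ / 2) • y - x) := by abel
      rw [h2]
      have h3 := norm_sub_le ((1 - δ / 2) • y) ((1 - δ / 2) • y - x)
      linarith
    · have h2 : y - x = (δ / 2) • y + ((1 - δ / 2) • y - x) := by
        rw [sub_smul, one_smul]
        abel
      rw [h2]
      have h3 := norm_add_le ((δ / 2) • y) ((1 - δ / 2) • y - x)
      have h4 : ‖(δ / 2) • y‖ ≤ δ / 2 := by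
        rw [norm_smul, Real.norm_eq_abs, abs_of_nonneg (by linarith)]
        exact mul_le_of_le_one_right (by linarith) hy1
      linarith
  · intro x hx y hy k
    rw [hcar]
    exact (CLO.tot_Z Z A hx.1 hy.1 k).trans subset_closure

end MPbb13ef

end

section

/-!
# DEN1: slices of the unit ball contain small convex combinations of slices
-/

set_option autoImplicit false

namespace MPbb13ef

namespace DEN1

variable {X : Type} [NormedAddCommGroup X] [NormedSpace ℝ X]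

theorem exists_v {h f : X →L[ℝ] ℝ} {β c : ℝ} {z u : X} (hz : ‖z‖ ≤ 1) (hzβ : β < h z)
    (hu : ‖u‖ ≤ 1) (huβ : β ≤ h u) (hc : c < f u) :
    ∃ v : X, ‖v‖ ≤ 1 ∧ β < h v ∧ c < f v := by
  obtain ⟨t, ht0, ht1, ht⟩ : ∃ t : ℝ, 0 < t ∧ t ≤ 1 ∧ t * |f (z - u)| < f u - c := by
    have hpos : 0 < |f (z - u)| + 1 := by positivity
    have hfc : 0 < f u - c := sub_pos.mpr hc
    refine ⟨min 1 ((f u - c) / (|f (z - u)| + 1)), lt_min one_pos (div_pos hfc hpos),
      min_le_left _ _, ?_⟩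
    have h1 : min 1 ((f u - c) / (|f (z - u)| + 1)) * |f (z - u)| ≤
        (f u - c) / (|f (z - u)| + 1) * |f (z - u)| :=
      mul_le_mul_of_nonneg_right (min_le_right _ _) (abs_nonneg _)
    refine lt_of_le_of_lt h1 ?_
    rw [div_mul_eq_mul_div, div_lt_iff₀ hpos]
    nlinarith
  refine ⟨(1 - t) • u + t • z, ?_, ?_, ?_⟩
  · calc ‖(1 - t) • u + t • z‖ ≤ ‖(1 - t) • u‖ + ‖t • z‖ := norm_add_le _ _
      _ = (1 - t) * ‖u‖ + t * ‖z‖ := by
          rw [norm_smul, norm_smul, Real.norm_of_nonneg (sub_nonneg.mpr ht1),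
            Real.norm_of_nonneg ht0.le]
      _ ≤ 1 := by nlinarith [norm_nonneg u, norm_nonneg z]
  · rw [map_add, map_smul, map_smul, smul_eq_mul, smul_eq_mul]
    nlinarith
  · rw [map_add, map_smul, map_smul, smul_eq_mul, smul_eq_mul]
    have h2 : f (z - u) = f z - f u := map_sub f z u
    rw [h2] at ht
    have h3 : -|f z - f u| ≤ f z - f u := neg_abs_le _
    nlinarith [mul_le_mul_of_nonneg_left h3 ht0.le]

theorem norm_comb {n : ℕ} {l : Fin n → ℝ} (hl0 : ∀ i, 0 ≤ l i) (hl1 : ∑ i, l i = 1)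
    {x : Fin n → X} (hx : ∀ i, ‖x i‖ ≤ 1) : ‖∑ i, l i • x i‖ ≤ 1 := by
  calc ‖∑ i, l i • x i‖ ≤ ∑ i, ‖l i • x i‖ := norm_sum_le _ _
    _ ≤ ∑ i, l i := by
        refine Finset.sum_le_sum fun i _ => ?_
        rw [norm_smul, Real.norm_of_nonneg (hl0 i)]
        exact mul_le_of_le_one_right (hl0 i) (hx i)
    _ = 1 := hl1

/-- sums over the sigma type -/
theorem sum_sigma {n : ℕ} {m : Fin n → ℕ} {E : Type} [AddCommMonoid E]
    (F : (Σ i : Fin n, Fin (m i)) → E) :
    ∑ j : Fin (∑ i, m i), F (finSigmaFinEquiv.symm j) = ∑ i, ∑ k, F ⟨i, k⟩ := by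
  rw [Equiv.sum_comp finSigmaFinEquiv.symm F, Fintype.sum_sigma]

end DEN1

open DEN1 in
theorem prf_DEN1 (hB : S_BOU) : S_DEN1 := by
  intro X _ _ hSR h b hne δ hδ
  obtain ⟨z, hz1, hzb⟩ := hne
  obtain ⟨β, hβ1, hβ2⟩ := exists_between hzb
  set C : Set X := {x | ‖x‖ ≤ 1 ∧ β ≤ h x} with hC
  have hCne : C.Nonempty := ⟨z, hz1, hβ2.le⟩
  have hCcl : IsClosed C :=
    (isClosed_le continuous_norm continuous_const).inter (isClosed_le continuous_const h.continuous)
  have hCb : Bornology.IsBounded C := by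
    have hs : C ⊆ Metric.closedBall (0 : X) 1 := fun x hx => mem_closedBall_zero_iff.mpr hx.1
    exact Metric.isBounded_closedBall.subset hs
  have hCc : Convex ℝ C := by
    intro x hx y hy s t hs ht hst
    refine ⟨?_, ?_⟩
    · calc ‖s • x + t • y‖ ≤ ‖s • x‖ + ‖t • y‖ := norm_add_le _ _
        _ = s * ‖x‖ + t * ‖y‖ := by
            rw [norm_smul, norm_smul, Real.norm_of_nonneg hs, Real.norm_of_nonneg ht]
        _ ≤ s * 1 + t * 1 := add_le_add (mul_le_mul_of_nonneg_left hx.1 hs)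
            (mul_le_mul_of_nonneg_left hy.1 ht)
        _ = 1 := by rw [mul_one, mul_one, hst]
    · show β ≤ h (s • x + t • y)
      rw [map_add, map_smul, map_smul, smul_eq_mul, smul_eq_mul]
      calc β = s * β + t * β := by rw [← add_mul, hst, one_mul]
        _ ≤ s * h x + t * h y := add_le_add (mul_le_mul_of_nonneg_left hx.2 hs)
            (mul_le_mul_of_nonneg_left hy.2 ht)
  obtain ⟨n, l, f, a, hl0, hl1, hsl, hsmall⟩ := hSR C hCne hCcl hCb hCc δ hδ
  have hv : ∀ i, ∃ v : X, ‖v‖ ≤ 1 ∧ β < h v ∧ a i < f i v := by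
    intro i
    obtain ⟨u, hu, hau⟩ := hsl i
    exact exists_v hz1 hβ2 hu.1 hu.2 hau
  choose v hv1 hv2 hv3 using hv
  have hbou := fun i => hB X h (f i) (v i) (hv1 i) (min (h (v i) - β) (f i (v i) - a i))
    (lt_min (sub_pos.mpr (hv2 i)) (sub_pos.mpr (hv3 i)))
  choose m l' k a' hl'0 hl'1 hsl' hcomb using hbou
  -- properties of the combinations
  have hX : ∀ i (x : Fin (m i) → X), (∀ j, InS (k i j) (a' i j) (x j)) →
      (∑ j, l' i j • x j) ∈ C ∧ a i < f i (∑ j, l' i j • x j) := by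
    intro i x hx
    have h1 := hcomb i x hx
    have h2 := (abs_lt.mp (h1.1.trans_le (min_le_left _ _))).1
    have h3 := (abs_lt.mp (h1.2.trans_le (min_le_right _ _))).1
    refine ⟨⟨norm_comb (hl'0 i) (hl'1 i) fun j => (hx j).1, ?_⟩, ?_⟩
    · linarith
    · linarith
  have hmem : ∀ (x : Fin (∑ i, m i) → X), (∀ j, InS (k (finSigmaFinEquiv.symm j).1
      (finSigmaFinEquiv.symm j).2) (a' (finSigmaFinEquiv.symm j).1
      (finSigmaFinEquiv.symm j).2) (x j)) → ∀ i (j : Fin (m i)),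
      InS (k i j) (a' i j) (x (finSigmaFinEquiv ⟨i, j⟩)) := by
    intro x hx i j
    have := hx (finSigmaFinEquiv ⟨i, j⟩)
    rwa [Equiv.symm_apply_apply] at this
  have hsum : ∀ x : Fin (∑ i, m i) → X,
      ∑ j, (l (finSigmaFinEquiv.symm j).1 * l' (finSigmaFinEquiv.symm j).1
        (finSigmaFinEquiv.symm j).2) • x j =
      ∑ i, l i • ∑ j, l' i j • x (finSigmaFinEquiv ⟨i, j⟩) := by
    intro x
    have h1 := sum_sigma (m := m) (fun p => (l p.1 * l' p.1 p.2) • x (finSigmaFinEquiv p))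
    simp only [Equiv.apply_symm_apply] at h1
    rw [h1]
    refine Finset.sum_congr rfl fun i _ => ?_
    rw [Finset.smul_sum]
    exact Finset.sum_congr rfl fun j _ => by rw [smul_smul]
  have hSmall : Small (X := X) (fun j : Fin (∑ i, m i) => l (finSigmaFinEquiv.symm j).1 *
      l' (finSigmaFinEquiv.symm j).1 (finSigmaFinEquiv.symm j).2)
      (fun j => k (finSigmaFinEquiv.symm j).1 (finSigmaFinEquiv.symm j).2)
      (fun j => a' (finSigmaFinEquiv.symm j).1 (finSigmaFinEquiv.symm j).2) δ := by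
    refine ⟨fun j => mul_nonneg (hl0 _) (hl'0 _ _), ?_, fun j => hsl' _ _, ?_⟩
    · rw [sum_sigma (m := m) (fun p => l p.1 * l' p.1 p.2), ← hl1]
      refine Finset.sum_congr rfl fun i _ => ?_
      show ∑ j, l i * l' i j = l i
      rw [← Finset.mul_sum, hl'1, mul_one]
    · intro x y hx hy
      have h1 := hsmall (fun i => ∑ j, l' i j • x (finSigmaFinEquiv ⟨i, j⟩))
        (fun i => ∑ j, l' i j • y (finSigmaFinEquiv ⟨i, j⟩))
        (fun i => hX i _ (hmem x hx i)) (fun i => hX i _ (hmem y hy i))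
      have h2 : ∑ i, l i • ((∑ j, l' i j • x (finSigmaFinEquiv ⟨i, j⟩)) -
          ∑ j, l' i j • y (finSigmaFinEquiv ⟨i, j⟩)) =
          ∑ j, (l (finSigmaFinEquiv.symm j).1 * l' (finSigmaFinEquiv.symm j).1
        (finSigmaFinEquiv.symm j).2) • (x j - y j) := by
        have h3 := hsum (fun j => x j - y j)
        rw [h3]
        refine Finset.sum_congr rfl fun i _ => ?_
        congr 1
        rw [← Finset.sum_sub_distrib]
        exact Finset.sum_congr rfl fun j _ => (smul_sub _ _ _).symm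
      rw [← h2]
      exact h1
  choose x0 hx0 using hsl'
  set x : Fin (∑ i, m i) → X := fun j => x0 (finSigmaFinEquiv.symm j).1
    (finSigmaFinEquiv.symm j).2 with hxdef
  have hxm : ∀ j, InS (k (finSigmaFinEquiv.symm j).1
      (finSigmaFinEquiv.symm j).2) (a' (finSigmaFinEquiv.symm j).1
      (finSigmaFinEquiv.symm j).2) (x j) := fun j => hx0 _ _
  refine ⟨∑ j, (l (finSigmaFinEquiv.symm j).1 * l' (finSigmaFinEquiv.symm j).1
        (finSigmaFinEquiv.symm j).2) • x j,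
    ⟨_, _, _, _, x, hSmall, fun j => ⟨hxm j, Set.mem_univ _⟩, rfl⟩, ?_⟩
  rw [hsum x, map_sum]
  have h5 : ∀ i, β ≤ h (∑ j, l' i j • x (finSigmaFinEquiv ⟨i, j⟩)) :=
    fun i => (hX i _ (hmem x hxm i)).1.2
  calc b < β := hβ1
    _ = ∑ i, l i * β := by rw [← Finset.sum_mul, hl1, one_mul]
    _ ≤ ∑ i, h (l i • ∑ j, l' i j • x (finSigmaFinEquiv ⟨i, j⟩)) := by
        refine Finset.sum_le_sum fun i _ => ?_
        rw [map_smul, smul_eq_mul]
        exact mul_le_mul_of_nonneg_left (h5 i) (hl0 i)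

end MPbb13ef

end

section

/-!
# DEN2: from slices to the closed convex hull (helper19)
-/

set_option autoImplicit false

namespace MPbb13ef

theorem prf_DEN2 : S_DEN2 := by
  intro X _ _ H δ hδ z hz
  by_contra hzc
  have hconv : Convex ℝ (closure (convexHull ℝ (CSPin (X := X) Set.univ δ))) :=
    (convex_convexHull ℝ _).closure
  obtain ⟨h, b, h1, h2⟩ := geometric_hahn_banach_closed_point hconv isClosed_closure hzc
  have hz1 : ‖z‖ ≤ 1 := by simpa [Metric.mem_closedBall, dist_eq_norm] using hz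
  obtain ⟨u, hu, hbu⟩ := H h b ⟨z, hz1, h2⟩ δ hδ
  exact absurd (h1 u (subset_closure (subset_convexHull ℝ _ hu))) (not_lt.2 hbu.le)

end MPbb13ef

end

section

set_option autoImplicit false

open scoped ZeroAtInfty

namespace MPbb13ef

theorem prf_HAS : S_HAS := by
  intro X _ _ Y
  constructor
  · rintro ⟨S, c, hc, h⟩
    exact ⟨Y.subtypeL.comp S, c, hc, fun y => h y⟩
  · rintro ⟨S, c, hc, h⟩
    exact ⟨Y.subtypeL.comp S, c, hc, fun y => h y⟩

end MPbb13ef

end

section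

set_option autoImplicit false

namespace MPbb13ef

namespace INF

theorem aux (X : Type) [NormedAddCommGroup X] [NormedSpace ℝ X]
    (h : ¬ FiniteDimensional ℝ X) : ∃ v : ℕ → X, LinearIndependent ℝ v := by
  classical
  let b := Module.Basis.ofVectorSpace ℝ X
  have hinf : Infinite (Module.Basis.ofVectorSpaceIndex ℝ X) := by
    by_contra hcon
    have hfin : Finite (Module.Basis.ofVectorSpaceIndex ℝ X) := not_infinite_iff_finite.mp hcon
    exact h (Module.Finite.of_basis b)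
  refine ⟨fun n => b (Infinite.natEmbedding _ n), ?_⟩
  exact b.linearIndependent.comp _ (Infinite.natEmbedding _).injective

end INF

theorem prf_INF : S_INF := by
  intro X _ _ h
  obtain ⟨v, hv⟩ := INF.aux X h
  refine ⟨Set.range v, Set.countable_range v, ?_⟩
  intro Y hY hfd
  have hmem : ∀ n, v n ∈ Y := fun n => hY (Set.mem_range_self n)
  let w : ℕ → Y := fun n => ⟨v n, hmem n⟩
  have hw : LinearIndependent ℝ w := by
    apply LinearIndependent.of_comp Y.subtype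
    exact hv
  have hf : Finite ℕ := hw.finite
  exact not_finite ℕ

end MPbb13ef

end

section

set_option autoImplicit false

namespace MPbb13ef

namespace ITER

theorem le_norm {X : Type} [NormedAddCommGroup X] [NormedSpace ℝ X] {f : X →L[ℝ] ℝ}
    (hf : ‖f‖ ≤ 1) (x : X) : |f x| ≤ ‖x‖ := by
  have := f.le_opNorm x
  rw [Real.norm_eq_abs] at this
  exact this.trans (mul_le_of_le_one_left (norm_nonneg _) hf)

theorem abs_sg (b : Bool) : |sg b| = 1 := by
  cases b <;> simp [sg]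

theorem sg_abs (r : ℝ) : sg (decide (0 ≤ r)) * r = |r| := by
  by_cases h : 0 ≤ r
  · simp [sg, h, abs_of_nonneg h]
  · simp [sg, h, abs_of_neg (not_le.mp h)]

theorem fin_case (X : Type) [NormedAddCommGroup X] [NormedSpace ℝ X] (hA : ADP X) (x : X) :
    ∀ (n : ℕ) (g : Fin n → (X →L[ℝ] ℝ)) (a : Fin n → ℝ), (∀ i, ∃ z, InS (g i) (a i) z) →
    ∀ ε : ℝ, 0 < ε → ∃ (f : X →L[ℝ] ℝ) (y : Fin n → X), ‖f‖ ≤ 1 ∧ ‖x‖ - ε < f x ∧
      ∀ i, InS (g i) (a i) (y i) ∧ 1 - ε < |f (y i)| := by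
  intro n
  induction n with
  | zero =>
    intro g a _ ε hε
    obtain ⟨f, hf, hfx⟩ := exists_dual_vector'' ℝ x
    refine ⟨f, fun i => i.elim0, hf, ?_, fun i => i.elim0⟩
    rw [hfx]
    simp only [RCLike.ofReal_real_eq_id, id_eq]
    linarith
  | succ n ih =>
    intro g a hne ε hε
    have hn : (0 : ℝ) < (n : ℝ) + 2 := by positivity
    set e : ℝ := ε / ((n : ℝ) + 2) with he
    have he0 : 0 < e := by positivity
    have hmul : ((n : ℝ) + 2) * e = ε := by rw [he]; field_simp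
    obtain ⟨f0, y0, hf0, hx0, hy0⟩ := ih (fun i => g i.castSucc) (fun i => a i.castSucc)
      (fun i => hne _) e he0
    set s : Fin n → Bool := fun i => decide (0 ≤ f0 (y0 i)) with hs
    obtain ⟨yl, f, hyl, hf, hw, hfl⟩ := hA (x + ∑ i, sg (s i) • y0 i) (g (Fin.last n))
      (a (Fin.last n)) (hne _) e he0
    have h1 : f0 (x + ∑ i, sg (s i) • y0 i) = f0 x + ∑ i, |f0 (y0 i)| := by
      rw [map_add, map_sum]
      congr 1
      refine Finset.sum_congr rfl fun i _ => ?_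
      rw [map_smul, smul_eq_mul, hs]
      exact sg_abs _
    have h2 : (n : ℝ) * (1 - e) ≤ ∑ i, |f0 (y0 i)| := by
      have : ∑ _i : Fin n, (1 - e) ≤ ∑ i, |f0 (y0 i)| :=
        Finset.sum_le_sum fun i _ => (hy0 i).2.le
      rw [Finset.sum_const, nsmul_eq_mul, Finset.card_univ, Fintype.card_fin] at this
      exact this
    have h3 : f0 (x + ∑ i, sg (s i) • y0 i) ≤ ‖x + ∑ i, sg (s i) • y0 i‖ :=
      (le_abs_self _).trans (le_norm hf0 _)
    have h4 : f (x + ∑ i, sg (s i) • y0 i) = f x + ∑ i, sg (s i) * f (y0 i) := by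
      rw [map_add, map_sum]
      congr 1
      refine Finset.sum_congr rfl fun i _ => ?_
      rw [map_smul, smul_eq_mul]
    have h5 : ‖x‖ + n - ε < f x + ∑ i, sg (s i) * f (y0 i) := by
      rw [← h4]
      nlinarith
    have h6 : ∀ i, sg (s i) * f (y0 i) ≤ |f (y0 i)| := by
      intro i
      refine (le_abs_self _).trans ?_
      rw [abs_mul, abs_sg, one_mul]
    have h7 : ∀ i, |f (y0 i)| ≤ 1 := fun i => (le_norm hf _).trans (hy0 i).1.1
    have h8 : f x ≤ ‖x‖ := (le_abs_self _).trans (le_norm hf x)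
    have h9 : ∑ i, sg (s i) * f (y0 i) ≤ n := by
      have : ∑ i, sg (s i) * f (y0 i) ≤ ∑ _i : Fin n, (1 : ℝ) :=
        Finset.sum_le_sum fun i _ => (h6 i).trans (h7 i)
      simpa using this
    have h10 : ∀ i, 1 - ε < |f (y0 i)| := by
      intro i
      have h11 : ∑ j, sg (s j) * f (y0 j) = sg (s i) * f (y0 i) +
          ∑ j ∈ Finset.univ.erase i, sg (s j) * f (y0 j) :=
        (Finset.add_sum_erase _ _ (Finset.mem_univ i)).symm
      have h12 : ∑ j ∈ Finset.univ.erase i, sg (s j) * f (y0 j) ≤ (n : ℝ) - 1 := by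
        have h13 : ∑ j ∈ Finset.univ.erase i, sg (s j) * f (y0 j) ≤
            ∑ _j ∈ Finset.univ.erase i, (1 : ℝ) :=
          Finset.sum_le_sum fun j _ => (h6 j).trans (h7 j)
        have h14 : ∑ _j ∈ Finset.univ.erase i, (1 : ℝ) = (n : ℝ) - 1 := by
          rw [Finset.sum_const, nsmul_eq_mul, mul_one, Finset.card_erase_of_mem
            (Finset.mem_univ i), Finset.card_univ, Fintype.card_fin]
          have : 1 ≤ n := by have := i.2; omega
          push_cast [Nat.cast_sub this]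
          ring
        linarith
      have := h6 i
      linarith
    refine ⟨f, Fin.snoc y0 yl, hf, by linarith, ?_⟩
    intro i
    refine Fin.lastCases ?_ (fun j => ?_) i
    · rw [Fin.snoc_last]
      refine ⟨hyl, ?_⟩
      have : e ≤ ε := by nlinarith
      linarith
    · rw [Fin.snoc_castSucc]
      exact ⟨(hy0 j).1, h10 j⟩

end ITER

theorem prf_ITER : S_ITER := by
  intro X _ _ hA x ι _ g a hne ε hε
  obtain ⟨n, ⟨σ⟩⟩ := Finite.exists_equiv_fin ι
  obtain ⟨f, y, hf, hx, hy⟩ := ITER.fin_case X hA x n (fun i => g (σ.symm i))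
    (fun i => a (σ.symm i)) (fun i => hne _) ε hε
  refine ⟨f, fun i => y (σ i), hf, hx, fun i => ?_⟩
  have := hy (σ i)
  simpa using this

end MPbb13ef

end

section

/-!
# MIX: exchanging the points of one sign
-/

set_option autoImplicit false

namespace MPbb13ef

namespace MIX

theorem apply_le {X : Type} [NormedAddCommGroup X] [NormedSpace ℝ X] {f : X →L[ℝ] ℝ}
    (hf : ‖f‖ ≤ 1) {n : ℕ} (l : Fin n → ℝ) (v : Fin n → X) {δ : ℝ} (h : ‖∑ i, l i • v i‖ ≤ δ) :
    ∑ i, l i * f (v i) ≤ δ := by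
  have e : ∑ i, l i * f (v i) = f (∑ i, l i • v i) := by
    rw [map_sum]
    exact Finset.sum_congr rfl fun i _ => by rw [map_smul, smul_eq_mul]
  rw [e]
  have h1 : f (∑ i, l i • v i) ≤ ‖f (∑ i, l i • v i)‖ := Real.le_norm_self _
  have h2 : ‖f (∑ i, l i • v i)‖ ≤ ‖f‖ * ‖∑ i, l i • v i‖ := f.le_opNorm _
  have h3 : ‖f‖ * ‖∑ i, l i • v i‖ ≤ 1 * ‖∑ i, l i • v i‖ :=
    mul_le_mul_of_nonneg_right hf (norm_nonneg _)
  linarith

end MIX

theorem prf_MIX : S_MIX := by
  classical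
  intro X _ _ n l g a δ hS f ε y hf hy x hx
  obtain ⟨hl, hl1, -, hd⟩ := hS
  have hz : ∀ i, InS (g i) (a i) (if 0 ≤ f (y i) then y i else x i) := by
    intro i
    split_ifs
    · exact (hy i).1
    · exact hx i
  have hz' : ∀ i, InS (g i) (a i) (if 0 ≤ f (y i) then x i else y i) := by
    intro i
    split_ifs
    · exact hx i
    · exact (hy i).1
  have hA := MIX.apply_le hf l (fun i => (if 0 ≤ f (y i) then y i else x i) - x i)
    (hd (fun i => if 0 ≤ f (y i) then y i else x i) x hz hx)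
  have hB := MIX.apply_le hf l (fun i => x i - (if 0 ≤ f (y i) then x i else y i))
    (hd x (fun i => if 0 ≤ f (y i) then x i else y i) hx hz')
  have hE : ∑ i, l i * ε = ε := by
    rw [← Finset.sum_mul, hl1, one_mul]
  have key : ∑ i, l i * (1 - |f (x i)|) ≤
      ∑ i, (l i * f ((if 0 ≤ f (y i) then y i else x i) - x i) +
        l i * f (x i - (if 0 ≤ f (y i) then x i else y i)) + l i * ε) := by
    refine Finset.sum_le_sum fun i _ => ?_
    rw [← mul_add, ← mul_add]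
    refine mul_le_mul_of_nonneg_left ?_ (hl i)
    have h1 := (hy i).2
    by_cases h0 : 0 ≤ f (y i)
    · rw [abs_of_nonneg h0] at h1
      simp only [h0, if_true, map_sub]
      have := le_abs_self (f (x i))
      linarith
    · rw [abs_of_neg (not_le.1 h0)] at h1
      simp only [h0, if_false, map_sub]
      have := neg_abs_le (f (x i))
      linarith
  rw [Finset.sum_add_distrib, Finset.sum_add_distrib, hE] at key
  linarith

end MPbb13ef

end

section

/-!
# MP_bb13ef_an, block SR: the separable reduction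
-/

set_option autoImplicit false

namespace MPbb13ef

theorem prf_SEP (hC : S_CLO) (hA : S_SEPA) (hH : S_SEPH) : S_SEP := by
  intro X _ _ hadp hscs A hAc
  obtain ⟨Z₁, hZ₁c, hZ₁⟩ := hA X hadp
  obtain ⟨Z₂, hZ₂c, hZ₂⟩ := hH X hscs
  obtain ⟨Y, D, hYcl, hYsep, hAY, hDY, hDn, hDd, hZ⟩ :=
    hC X (fun x y k => Z₁ x y k ∪ Z₂ x y k) (fun x y k => (hZ₁c x y k).union (hZ₂c x y k)) A hAc
  refine ⟨Y, hYcl, hYsep.separableSpace, hAY, ?_, ?_⟩
  · exact hZ₁ Y D hDY hDn hDd fun x hx y hy k =>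
      Set.subset_union_left.trans (hZ x hx y hy k)
  · exact hZ₂ Y D hDY hDn hDd fun x hx y hy k =>
      Set.subset_union_right.trans (hZ x hx y hy k)

end MPbb13ef

end

section

/-!
# Generation by small convex combinations of slices is separably determined
-/

set_option autoImplicit false

namespace MPbb13ef

namespace SEPH

theorem mono {X : Type} [NormedAddCommGroup X] [NormedSpace ℝ X] {W W' : Set X} (h : W ⊆ W')
    (δ : ℝ) : CSPin W δ ⊆ CSPin W' δ := by
  rintro u ⟨n, l, g, a, x, h1, h2, h3⟩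
  exact ⟨n, l, g, a, x, h1, fun i => ⟨(h2 i).1, h (h2 i).2⟩, h3⟩

theorem count {X : Type} [NormedAddCommGroup X] [NormedSpace ℝ X] {δ : ℝ} {v : X}
    (h : v ∈ CSPin (X := X) Set.univ δ) : ∃ W : Set X, W.Countable ∧ v ∈ CSPin W δ := by
  obtain ⟨n, l, g, a, x, h1, h2, h3⟩ := h
  exact ⟨Set.range x, Set.countable_range x, n, l, g, a, x, h1,
    fun i => ⟨(h2 i).1, Set.mem_range_self i⟩, h3⟩

theorem point {X : Type} [NormedAddCommGroup X] [NormedSpace ℝ X] (hX : SCSGen X) (y : X) (k : ℕ) :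
    ∃ W : Set X, W.Countable ∧ (‖y‖ ≤ 1 →
      ∃ u ∈ convexHull ℝ (CSPin W (1 / ((k : ℝ) + 1))), ‖y - u‖ < 1 / ((k : ℝ) + 1)) := by
  by_cases hy : ‖y‖ ≤ 1
  · have hk : (0 : ℝ) < 1 / ((k : ℝ) + 1) := by positivity
    have h1 := hX _ hk (mem_closedBall_zero_iff.2 hy)
    obtain ⟨u, hu, hyu⟩ := Metric.mem_closure_iff.1 h1 _ hk
    rw [convexHull_eq_union_convexHull_finite_subsets] at hu
    simp only [Set.mem_iUnion] at hu
    obtain ⟨F, hF, huF⟩ := hu
    have h2 : ∀ v : X, ∃ W : Set X, W.Countable ∧ (v ∈ F → v ∈ CSPin W (1 / ((k : ℝ) + 1))) := by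
      intro v
      by_cases hv : v ∈ F
      · obtain ⟨W, hW, hvW⟩ := count (hF (Finset.mem_coe.2 hv))
        exact ⟨W, hW, fun _ => hvW⟩
      · exact ⟨∅, Set.countable_empty, fun h => absurd h hv⟩
    choose W hWc hW using h2
    refine ⟨⋃ v ∈ F, W v, Set.Countable.biUnion (Finset.countable_toSet F) fun v _ => hWc v,
      fun _ => ⟨u, ?_, ?_⟩⟩
    · refine convexHull_mono ?_ huF
      intro v hv
      exact mono (Set.subset_biUnion_of_mem (u := W) hv) _ (hW v (Finset.mem_coe.1 hv))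
    · rwa [dist_eq_norm] at hyu
  · exact ⟨∅, Set.countable_empty, fun h => absurd h hy⟩

theorem image {X : Type} [NormedAddCommGroup X] [NormedSpace ℝ X] (Y : Submodule ℝ X)
    {W : Set X} (hW : W ⊆ (Y : Set X)) {δ δ' : ℝ} (hδ : δ' ≤ δ) :
    CSPin W δ' ⊆ Y.subtype '' CSPin (X := Y) Set.univ δ := by
  rintro v ⟨n, l, g, a, x, ⟨h1, h2, h3, h4⟩, h5, rfl⟩
  have hin : ∀ i, InS ((g i).comp Y.subtypeL) (a i) ⟨x i, hW (h5 i).2⟩ := fun i => (h5 i).1
  refine ⟨∑ i, l i • (⟨x i, hW (h5 i).2⟩ : Y), ⟨n, l, fun i => (g i).comp Y.subtypeL, a,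
    fun i => ⟨x i, hW (h5 i).2⟩, ⟨h1, h2, fun i => ⟨_, hin i⟩, ?_⟩,
    fun i => ⟨hin i, Set.mem_univ _⟩, rfl⟩, ?_⟩
  · intro p q hp hq
    have h := h4 (fun i => (p i : X)) (fun i => (q i : X)) (fun i => hp i) (fun i => hq i)
    refine le_trans (le_of_eq ?_) (h.trans hδ)
    have h6 : ((∑ i, l i • (p i - q i) : Y) : X) = ∑ i, l i • ((p i : X) - (q i : X)) := by
      push_cast
      rfl
    rw [← h6]
    rfl
  · simp

end SEPH

theorem prf_SEPH : S_SEPH := by
  intro X _ _ hX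
  choose W hWc hW using SEPH.point hX
  refine ⟨fun x _ k => W x k, fun x _ k => hWc x k, ?_⟩
  intro Y D hDY hD1 hD hZ δ hδ y hy
  rw [Metric.mem_closure_iff]
  intro ε hε
  obtain ⟨k, hk⟩ := exists_nat_one_div_lt (lt_min hδ (half_pos hε))
  have hkδ := hk.trans_le (min_le_left _ _)
  have hkε := hk.trans_le (min_le_right _ _)
  have hk0 : (0 : ℝ) < 1 / ((k : ℝ) + 1) := by positivity
  obtain ⟨y', hy'D, hy'⟩ := hD y y.2 (mem_closedBall_zero_iff.1 hy) _ hk0
  obtain ⟨u, hu, hyu⟩ := hW y' k (hD1 y' hy'D)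
  have h1 := convexHull_mono (SEPH.image Y (hZ y' hy'D y' hy'D k) hkδ.le) hu
  rw [← LinearMap.image_convexHull] at h1
  obtain ⟨b, hb, hbu⟩ := h1
  refine ⟨b, hb, ?_⟩
  have hbu' : (b : X) = u := hbu
  have h2 : dist y b = ‖(y : X) - (b : X)‖ := by
    rw [dist_eq_norm]
    rfl
  rw [h2, hbu']
  have h3 : (y : X) - u = ((y : X) - y') + (y' - u) := by abel
  rw [h3]
  exact (norm_add_le _ _).trans_lt (by linarith)

end MPbb13ef

end

section

set_option autoImplicit false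

namespace MPbb13ef

namespace SET

theorem neg {X : Type} [NormedAddCommGroup X] [NormedSpace ℝ X] (f : X →L[ℝ] ℝ)
    (hf : Spear f) : Spear (-f) := by
  refine ⟨by rw [norm_neg]; exact hf.1, ?_⟩
  intro ε hε
  have h := hf.2 ε hε
  have e : ({x : X | ‖x‖ ≤ 1 ∧ 1 - ε < (-f) x} ∪ {x : X | ‖x‖ ≤ 1 ∧ (-f) x < -(1 - ε)}) =
      ({x : X | ‖x‖ ≤ 1 ∧ 1 - ε < f x} ∪ {x : X | ‖x‖ ≤ 1 ∧ f x < -(1 - ε)}) := by
    rw [Set.union_comm]
    congr 1
    · ext x
      simp only [Set.mem_ofPred_eq, neg_apply]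
      constructor
      · rintro ⟨h1, h2⟩
        exact ⟨h1, by linarith⟩
      · rintro ⟨h1, h2⟩
        exact ⟨h1, by linarith⟩
    · ext x
      simp only [Set.mem_ofPred_eq, neg_apply]
      constructor
      · rintro ⟨h1, h2⟩
        exact ⟨h1, by linarith⟩
      · rintro ⟨h1, h2⟩
        exact ⟨h1, by linarith⟩
  rw [e]
  exact h

end SET

theorem prf_SET (hH : S_HULL) : S_SET := by
  intro X _ _ hne hx
  refine ⟨?_, ?_, ?_, ?_, ?_⟩
  · intro f hf
    exact hH X f hf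
  · intro f hf
    exact SET.neg f hf
  · intro x r hr
    by_cases h0 : x = 0
    · obtain ⟨z, hz⟩ := hne
      obtain ⟨f, hf, -⟩ := hx z hz
      refine ⟨f, hf, ?_⟩
      subst h0
      simpa using hr
    · obtain ⟨f, hf, hfx⟩ := hx x h0
      exact ⟨f, hf, by rw [hfx]; exact hr⟩
  · intro x
    by_cases h0 : x = 0
    · obtain ⟨z, hz⟩ := hne
      obtain ⟨f, hf, -⟩ := hx z hz
      refine ⟨f, Or.inl hf, hf.1.le, ?_⟩
      subst h0
      simp
    · obtain ⟨f, hf, hfx⟩ := hx x h0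
      refine ⟨f, Or.inl hf, hf.1.le, ?_⟩
      rw [hfx, abs_of_nonneg (norm_nonneg x)]
  · exact Set.countable_empty

end MPbb13ef

end

section

/-!
# Good functionals are spears
-/

set_option autoImplicit false

namespace MPbb13ef

namespace SPR

variable {X : Type} [NormedAddCommGroup X] [NormedSpace ℝ X]

theorem abs_le_one {f : X →L[ℝ] ℝ} (hf : ‖f‖ ≤ 1) {x : X} (hx : ‖x‖ ≤ 1) : |f x| ≤ 1 := by
  have h1 : ‖f x‖ ≤ ‖f‖ * ‖x‖ := f.le_opNorm x
  rw [Real.norm_eq_abs] at h1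
  refine le_trans h1 ?_
  have h2 : ‖f‖ * ‖x‖ ≤ 1 * 1 := mul_le_mul hf hx (norm_nonneg _) zero_le_one
  rw [one_mul] at h2
  exact h2

theorem le_norm (h : X →L[ℝ] ℝ) {x : X} (hx : ‖x‖ ≤ 1) : h x ≤ ‖h‖ := by
  have h1 : ‖h x‖ ≤ ‖h‖ * ‖x‖ := h.le_opNorm x
  rw [Real.norm_eq_abs] at h1
  have h2 : ‖h‖ * ‖x‖ ≤ ‖h‖ * 1 := mul_le_mul_of_nonneg_left hx (norm_nonneg _)
  rw [mul_one] at h2
  exact le_trans (le_abs_self _) (le_trans h1 h2)

theorem exists_big {S : Set X} {z : X} (hz : z ∈ closure (convexHull ℝ S)) (h : X →L[ℝ] ℝ) {c : ℝ}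
    (hc : c < h z) : ∃ u ∈ S, c < h u := by
  by_contra hcon
  have h1 : S ⊆ {x | h x ≤ c} := by
    intro u hu
    by_contra h2
    exact hcon ⟨u, hu, not_le.1 h2⟩
  have h2 : Convex ℝ {x : X | h x ≤ c} := convex_halfSpace_le h.toLinearMap.isLinear c
  have h3 : IsClosed {x : X | h x ≤ c} := isClosed_le h.continuous continuous_const
  have h4 : closure (convexHull ℝ S) ⊆ {x | h x ≤ c} := closure_minimal (convexHull_min h1 h2) h3
  exact absurd (h4 hz) (not_le.2 hc)

end SPR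

theorem prf_SPR : S_SPR := by
  intro X _ _ hgen f hgood hf1
  refine ⟨hf1, fun ε hε z0 hz0 => ?_⟩
  by_contra hz
  obtain ⟨h, b, hb, hzb⟩ := geometric_hahn_banach_closed_point
    (convex_convexHull ℝ _).closure isClosed_closure hz
  have hb' : ∀ x : X, ‖x‖ ≤ 1 → 1 - ε < |f x| → h x < b := by
    intro x hx hfx
    refine hb x (subset_closure (subset_convexHull ℝ _ ?_))
    rcases lt_abs.1 hfx with h1 | h1
    · exact Or.inl ⟨hx, h1⟩
    · exact Or.inr ⟨hx, by linarith⟩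
  set M : ℝ := ‖h‖ + |b| with hM
  have hM0 : 0 ≤ M := add_nonneg (norm_nonneg _) (abs_nonneg _)
  set δ : ℝ := ε * ((h z0 - b) / 2) / (2 * (M + 1)) with hδ
  have hgap : 0 < h z0 - b := sub_pos.2 hzb
  have hδ0 : 0 < δ := by positivity
  obtain ⟨u, hu, hbu⟩ := SPR.exists_big (hgen δ hδ0 hz0) h
    (show (b + h z0) / 2 < h z0 by linarith)
  obtain ⟨n, l, g, a, x, hs, hx, rfl⟩ := hu
  have h1 : ∑ i, l i * (1 - |f (x i)|) ≤ 2 * δ := hgood.2 n l g a δ hs x fun i => (hx i).1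
  have h2 : h (∑ i, l i • x i) = ∑ i, l i * h (x i) := by
    rw [map_sum]
    exact Finset.sum_congr rfl fun i _ => by rw [map_smul, smul_eq_mul]
  have h3 : ∀ i, l i * h (x i) ≤ l i * b + (l i * (1 - |f (x i)|)) * (M / ε) := by
    intro i
    have hl : 0 ≤ l i := hs.1 i
    have hxi : ‖x i‖ ≤ 1 := (hx i).1.1
    have h4 : h (x i) ≤ b + (1 - |f (x i)|) * (M / ε) := by
      by_cases h5 : 1 - ε < |f (x i)|
      · have h6 := hb' (x i) hxi h5
        have h7 : 0 ≤ (1 - |f (x i)|) * (M / ε) :=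
          mul_nonneg (sub_nonneg.2 (SPR.abs_le_one hgood.1 hxi)) (div_nonneg hM0 hε.le)
        linarith
      · have h6 : ε ≤ 1 - |f (x i)| := by linarith [not_lt.1 h5]
        have h7 : M ≤ (1 - |f (x i)|) * (M / ε) := by
          calc M = ε * (M / ε) := by field_simp
            _ ≤ (1 - |f (x i)|) * (M / ε) :=
              mul_le_mul_of_nonneg_right h6 (div_nonneg hM0 hε.le)
        have h8 := SPR.le_norm h hxi
        have h9 := neg_abs_le b
        linarith
    calc l i * h (x i) ≤ l i * (b + (1 - |f (x i)|) * (M / ε)) := mul_le_mul_of_nonneg_left h4 hl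
      _ = _ := by ring
  have h4 : ∑ i, l i * h (x i) ≤ b + 2 * δ * (M / ε) := by
    calc ∑ i, l i * h (x i) ≤ ∑ i, (l i * b + (l i * (1 - |f (x i)|)) * (M / ε)) :=
          Finset.sum_le_sum fun i _ => h3 i
      _ = (∑ i, l i) * b + (∑ i, l i * (1 - |f (x i)|)) * (M / ε) := by
          rw [Finset.sum_add_distrib, ← Finset.sum_mul, ← Finset.sum_mul]
      _ ≤ b + 2 * δ * (M / ε) := by
          rw [hs.2.1, one_mul]
          have := mul_le_mul_of_nonneg_right h1 (div_nonneg hM0 hε.le)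
          linarith
  have h5 : 2 * δ * (M / ε) ≤ (h z0 - b) / 2 := by
    have h6 : 2 * δ * (M / ε) = ((h z0 - b) / 2) * (M / (M + 1)) := by
      rw [hδ]
      have : M + 1 ≠ 0 := by positivity
      field_simp
    rw [h6]
    have h7 : M / (M + 1) ≤ 1 := by
      rw [div_le_one (by positivity)]
      linarith
    calc ((h z0 - b) / 2) * (M / (M + 1)) ≤ ((h z0 - b) / 2) * 1 :=
          mul_le_mul_of_nonneg_left h7 (by linarith)
      _ = _ := mul_one _
  rw [h2] at hbu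
  linarith

end MPbb13ef

end

section

/-!
# Assembly of the block SR
-/

set_option autoImplicit false

namespace MPbb13ef

theorem prf_FIN1 : S_FIN1 := by
  intro X _ _ hA hG x hx
  obtain ⟨f, hf, hfx⟩ := prf_BD prf_ITER prf_MIX X hA x
  have hx0 : 0 < ‖x‖ := norm_pos_iff.2 hx
  have h1 : ‖f‖ = 1 := by
    refine le_antisymm hf.1 ?_
    have := f.le_opNorm x
    rw [hfx, Real.norm_of_nonneg hx0.le] at this
    exact le_of_mul_le_mul_right (by linarith) hx0
  exact ⟨f, prf_SPR X hG f hf h1, hfx⟩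

theorem prf_FIN2 (hMAIN : S_MAIN) (hHULL : S_HULL) : S_FIN2 := by
  intro X _ _ _ hX hN hG
  have hA : ADPc X := (prf_ADPC X).1 (prf_NIA X hN)
  obtain ⟨A, hAc, hAi⟩ := prf_INF X hX
  obtain ⟨Y, hYc, hYs, hAY, hYA, hYG⟩ := prf_SEP prf_CLO prf_SEPA prf_SEPH X hA hG A hAc
  have hYi : ¬ FiniteDimensional ℝ Y := hAi Y hAY
  have : CompleteSpace Y := hYc.completeSpace_coe
  have hne : ∃ x : Y, x ≠ 0 := by
    by_contra hcon
    push Not at hcon
    exact hYi (by
      have : Subsingleton Y := ⟨fun a b => by rw [hcon a, hcon b]⟩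
      infer_instance)
  have hS := prf_SET hHULL Y hne (prf_FIN1 Y ((prf_ADPC Y).2 hYA) hYG)
  rcases hMAIN Y _ _ hS hYi with h | h
  · exact Or.inl ((prf_HAS X Y).1 h)
  · exact Or.inr ((prf_HAS X Y).2 h)

theorem prf_FIN3 (hMAIN : S_MAIN) (hHULL : S_HULL) : S_FIN3 := by
  intro X _ _ _ hX hN hR
  rcases prf_FIN2 hMAIN hHULL X hX hN (prf_DEN2 X (prf_DEN1 prf_BOU X hR)) with h | h
  · exact absurd h (prf_NC0 X hR)
  · exact h

end MPbb13ef

end
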