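import Pool.Agent.Work.MP_bb13ef_an.Bd.B03
import Pool.Agent.Work.MP_bb13ef_an.SR.Main

/-! Bundle of small proof modules (one section per former module). -/

section

/-!
# WOP: from slices to weakly open sets
-/

set_option autoImplicit false

namespace MPbb13ef

namespace WOP

/-- sums over the sigma type -/
theorem sum_sig {ι : Type} [Fintype ι] {m : ι → ℕ} {E : Type} [AddCommMonoid E]
    (e : (Σ i : ι, Fin (m i)) ≃ Fin (Fintype.card (Σ i : ι, Fin (m i))))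
    (F : (Σ i : ι, Fin (m i)) → E) :
    ∑ j, F (e.symm j) = ∑ i, ∑ k, F ⟨i, k⟩ := by
  rw [Equiv.sum_comp e.symm F, Fintype.sum_sigma]

end WOP

open WOP in
theorem prf_WOP (hB : S_BOUN) : S_WOP := by
  intro X _ _ C δ hC hCb hS ι _ l Γ hl0 hl1 hne
  have hbou := fun i => hB X C hC hCb (Γ i) (hne i)
  choose m l' g a hl'0 hl'1 hsl hcomb using hbou
  set e : (Σ i : ι, Fin (m i)) ≃ Fin (Fintype.card (Σ i : ι, Fin (m i))) :=
    Fintype.equivFin _ with he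
  have hsum : ∀ x : Fin (Fintype.card (Σ i : ι, Fin (m i))) → X,
      ∑ j, (l (e.symm j).1 * l' (e.symm j).1 (e.symm j).2) • x j =
      ∑ i, l i • ∑ j, l' i j • x (e ⟨i, j⟩) := by
    intro x
    have h1 := sum_sig (m := m) e (fun p => (l p.1 * l' p.1 p.2) • x (e p))
    simp only [Equiv.apply_symm_apply] at h1
    rw [h1]
    refine Finset.sum_congr rfl fun i _ => ?_
    rw [Finset.smul_sum]
    exact Finset.sum_congr rfl fun j _ => by rw [smul_smul]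
  obtain ⟨x, y, hx, hy, hxy⟩ := hS (Fintype.card (Σ i : ι, Fin (m i)))
    (fun j => l (e.symm j).1 * l' (e.symm j).1 (e.symm j).2)
    (fun j => g (e.symm j).1 (e.symm j).2) (fun j => a (e.symm j).1 (e.symm j).2)
    (fun j => mul_nonneg (hl0 _) (hl'0 _ _)) (by
      rw [sum_sig (m := m) e (fun p => l p.1 * l' p.1 p.2), ← hl1]
      refine Finset.sum_congr rfl fun i _ => ?_
      show ∑ j, l i * l' i j = l i
      rw [← Finset.mul_sum, hl'1, mul_one]) (fun j => hsl _ _)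
  have hmem : ∀ (z : Fin (Fintype.card (Σ i : ι, Fin (m i))) → X),
      (∀ j, z j ∈ C ∧ a (e.symm j).1 (e.symm j).2 < g (e.symm j).1 (e.symm j).2 (z j)) →
      ∀ i (j : Fin (m i)), z (e ⟨i, j⟩) ∈ C ∧ a i j < g i j (z (e ⟨i, j⟩)) := by
    intro z hz i j
    have := hz (e ⟨i, j⟩)
    rwa [Equiv.symm_apply_apply] at this
  refine ⟨fun i => ∑ j, l' i j • x (e ⟨i, j⟩), fun i => ∑ j, l' i j • y (e ⟨i, j⟩),
    fun i => hcomb i _ (hmem x hx i), fun i => hcomb i _ (hmem y hy i), ?_⟩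
  have h2 : ∑ i, l i • ((∑ j, l' i j • x (e ⟨i, j⟩)) - ∑ j, l' i j • y (e ⟨i, j⟩)) =
      ∑ j, (l (e.symm j).1 * l' (e.symm j).1 (e.symm j).2) • (x j - y j) := by
    rw [hsum (fun j => x j - y j)]
    refine Finset.sum_congr rfl fun i _ => ?_
    congr 1
    rw [← Finset.sum_sub_distrib]
    exact Finset.sum_congr rfl fun j _ => (smul_sub _ _ _).symm
  show δ < ‖∑ i, l i • ((∑ j, l' i j • x (e ⟨i, j⟩)) - ∑ j, l' i j • y (e ⟨i, j⟩))‖
  rw [h2]
  exact hxy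

end MPbb13ef

end

section

/-!
# Assembly of the block DU
-/

set_option autoImplicit false

namespace MPbb13ef

theorem hasL1_of_equiv (X Z : Type) [NormedAddCommGroup X] [NormedSpace ℝ X]
    [NormedAddCommGroup Z] [NormedSpace ℝ Z] (J : X ≃L[ℝ] Z) (h : HasL1 Z) : HasL1 X := by
  obtain ⟨S, c, hc, hS⟩ := h
  have hM : 0 < ‖(J : X →L[ℝ] Z)‖ + 1 := by positivity
  refine ⟨(J.symm : Z →L[ℝ] X).comp S, c / (‖(J : X →L[ℝ] Z)‖ + 1), by positivity, fun y => ?_⟩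
  have h1 : ‖S y‖ ≤ ‖(J : X →L[ℝ] Z)‖ * ‖J.symm (S y)‖ := by
    have := (J : X →L[ℝ] Z).le_opNorm (J.symm (S y))
    simpa using this
  have h2 := hS y
  rw [div_mul_eq_mul_div, div_le_iff₀ hM]
  have h3 : ((J.symm : Z →L[ℝ] X).comp S) y = J.symm (S y) := rfl
  rw [h3]
  have h4 := norm_nonneg (J.symm (S y))
  nlinarith

theorem prf_DUAL (hSRD : S_SRD) (hLD : S_LD) : S_DUAL := by
  intro X Y _ _ _ _ _ _ J hX hN
  by_cases h : HasL1 Y
  · exact hasL1_of_equiv X (Y →L[ℝ] ℝ) J (hLD Y h)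
  · have hM : 0 < ‖(J.symm : (Y →L[ℝ] ℝ) →L[ℝ] X)‖ + 1 := by positivity
    refine FIN3 X hX hN (hSRD X Y (J : X →L[ℝ] (Y →L[ℝ] ℝ))
      (1 / (‖(J.symm : (Y →L[ℝ] ℝ) →L[ℝ] X)‖ + 1)) (by positivity) (fun x => ?_) h)
    have h1 : ‖x‖ ≤ ‖(J.symm : (Y →L[ℝ] ℝ) →L[ℝ] X)‖ * ‖J x‖ := by
      have := (J.symm : (Y →L[ℝ] ℝ) →L[ℝ] X).le_opNorm (J x)
      simpa using this
    rw [div_mul_eq_mul_div, one_mul, div_le_iff₀ hM]
    have h2 : (J : X →L[ℝ] (Y →L[ℝ] ℝ)) x = J x := rfl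
    rw [h2]
    have h4 := norm_nonneg (J x)
    nlinarith

end MPbb13ef

end

section

set_option autoImplicit false

namespace MPbb13ef

theorem COMB : S_COMB := prf_COMB prf_EN0 prf_EN1 prf_EN2

/-- Banach spaces which embed into the dual of a space without copies of `ℓ₁` are strongly
regular. -/
theorem SRD : S_SRD :=
  prf_SRD (prf_WOP prf_BOUN) (prf_STEP prf_AVV) (prf_IND prf_TREE prf_PIG COMB) prf_L1C

theorem DUAL : S_DUAL := prf_DUAL SRD (prf_LD prf_L1C)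

end MPbb13ef

end
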